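import Pool.Agent.Lib.MP_46a7d5_co.Main

/-!
Asymptotic upper bound for the integrality gap of weighted set cover on `m` elements:
`log m - log log m + log log log m + O(1)`.
-/

set_option autoImplicit false

namespace Pool.Agent.Lib.MP_46a7d5_co

open Finset Filter

/-- Independent rounding, by conditional expectations. -/
theorem round_indep {m : ℕ} (z p : Finset (Fin m) → ℝ) (hp0 : ∀ S, 0 ≤ p S) (hp1 : ∀ S, p S ≤ 1)
    (C : Finset (Finset (Fin m))) :
    ∀ w : Fin m → ℝ, ∃ A ⊆ C, ∑ S ∈ A, z S + ∑ j, (if ∃ S ∈ A, j ∈ S then 0 else w j) ≤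
      ∑ S ∈ C, p S * z S + ∑ j, w j * ∏ S ∈ C with j ∈ S, (1 - p S) := by
  classical
  induction C using Finset.induction_on with
  | empty => intro w; exact ⟨∅, by simp, by simp⟩
  | insert S₀ C hS₀ ih =>
    intro w
    obtain ⟨A₀, hA₀, hle₀⟩ := ih w
    obtain ⟨A₁, hA₁, hle₁⟩ := ih (fun j => if j ∈ S₀ then 0 else w j)
    have hprod : ∀ j, ∏ S ∈ insert S₀ C with j ∈ S, (1 - p S) =
        (if j ∈ S₀ then (1 - p S₀) else 1) * ∏ S ∈ C with j ∈ S, (1 - p S) := by
      intro j
      rw [Finset.filter_insert]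
      split_ifs with h
      · rw [Finset.prod_insert]
        simp [hS₀]
      · rw [one_mul]
    have htarget : ∑ S ∈ insert S₀ C, p S * z S +
        ∑ j, w j * ∏ S ∈ insert S₀ C with j ∈ S, (1 - p S) =
        p S₀ * (z S₀ + (∑ S ∈ C, p S * z S +
          ∑ j, (if j ∈ S₀ then 0 else w j) * ∏ S ∈ C with j ∈ S, (1 - p S))) +
        (1 - p S₀) * (∑ S ∈ C, p S * z S + ∑ j, w j * ∏ S ∈ C with j ∈ S, (1 - p S)) := by
      rw [Finset.sum_insert hS₀]
      have h1 : ∑ j, w j * ∏ S ∈ insert S₀ C with j ∈ S, (1 - p S) =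
          p S₀ * (∑ j, (if j ∈ S₀ then 0 else w j) * ∏ S ∈ C with j ∈ S, (1 - p S)) +
          (1 - p S₀) * ∑ j, w j * ∏ S ∈ C with j ∈ S, (1 - p S) := by
        rw [Finset.mul_sum, Finset.mul_sum, ← Finset.sum_add_distrib]
        refine Finset.sum_congr rfl (fun j _ => ?_)
        rw [hprod]
        split_ifs <;> ring
      rw [h1]
      ring
    rw [htarget]
    rcases le_total (z S₀ + (∑ S ∈ C, p S * z S +
        ∑ j, (if j ∈ S₀ then 0 else w j) * ∏ S ∈ C with j ∈ S, (1 - p S)))
        (∑ S ∈ C, p S * z S + ∑ j, w j * ∏ S ∈ C with j ∈ S, (1 - p S)) with h | h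
    · have hS₀A : S₀ ∉ A₁ := fun hmem => hS₀ (hA₁ hmem)
      refine ⟨insert S₀ A₁, Finset.insert_subset_insert _ hA₁, ?_⟩
      rw [Finset.sum_insert hS₀A]
      have h2 : ∑ j, (if ∃ S ∈ insert S₀ A₁, j ∈ S then 0 else w j) =
          ∑ j, (if ∃ S ∈ A₁, j ∈ S then 0 else if j ∈ S₀ then 0 else w j) := by
        refine Finset.sum_congr rfl (fun j _ => ?_)
        by_cases hj : j ∈ S₀
        · rw [if_pos ⟨S₀, Finset.mem_insert_self _ _, hj⟩]
          split_ifs <;> rfl
        · have : (∃ S ∈ insert S₀ A₁, j ∈ S) ↔ ∃ S ∈ A₁, j ∈ S := by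
            simp [Finset.mem_insert, hj]
          simp only [this, hj, if_false]
      rw [h2]
      have h3 := hp1 S₀
      nlinarith [mul_le_mul_of_nonneg_left h (by linarith : (0 : ℝ) ≤ 1 - p S₀)]
    · refine ⟨A₀, hA₀.trans (Finset.subset_insert _ _), ?_⟩
      nlinarith [mul_le_mul_of_nonneg_left h (hp0 S₀)]

/-- Independent draws of sets from a family, by conditional expectations. -/
theorem round_iid {m : ℕ} (z x : Finset (Fin m) → ℝ) (hz : ∀ S, 0 ≤ z S) (hx : ∀ S, 0 ≤ x S)
    (E : Finset (Finset (Fin m))) {X : ℝ} (hX : X = ∑ S ∈ E, x S) (hX0 : 0 < X) (k : ℕ) :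
    ∀ w : Fin m → ℝ, ∃ A ⊆ E, ∑ S ∈ A, z S + ∑ j, (if ∃ S ∈ A, j ∈ S then 0 else w j) ≤
      k * ((∑ S ∈ E, x S * z S) / X) +
        ∑ j, w j * (1 - (∑ S ∈ E with j ∈ S, x S) / X) ^ k := by
  classical
  induction k with
  | zero => intro w; exact ⟨∅, by simp, by simp⟩
  | succ k ih =>
    intro w
    set F := ∑ S ∈ E, x S * z S with hF
    set y : Fin m → ℝ := fun j => ∑ S ∈ E with j ∈ S, x S with hy
    -- averaging over the first draw
    let val : Finset (Fin m) → ℝ := fun S =>
      z S + ∑ j, (if j ∈ S then 0 else w j) * (1 - y j / X) ^ k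
    have havg : ∑ S ∈ E, x S * val S =
        X * (F / X + ∑ j, w j * (1 - y j / X) ^ (k + 1)) := by
      simp only [val, mul_add, Finset.sum_add_distrib]
      rw [mul_div_cancel₀ _ hX0.ne', ← hF]
      congr 1
      simp only [Finset.mul_sum]
      rw [Finset.sum_comm]
      refine Finset.sum_congr rfl (fun j _ => ?_)
      have h1 : ∑ S ∈ E, x S * ((if j ∈ S then 0 else w j) * (1 - y j / X) ^ k) =
          (∑ S ∈ E, (x S - if j ∈ S then x S else 0)) * (w j * (1 - y j / X) ^ k) := by
        rw [Finset.sum_mul]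
        refine Finset.sum_congr rfl (fun S _ => ?_)
        split_ifs <;> ring
      rw [h1, Finset.sum_sub_distrib, ← hX, ← Finset.sum_filter]
      have h2 : X - y j = X * (1 - y j / X) := by
        field_simp
      change (X - y j) * (w j * (1 - y j / X) ^ k) = _
      rw [h2]
      ring
    have hex : ∃ S ∈ E, val S ≤ F / X + ∑ j, w j * (1 - y j / X) ^ (k + 1) := by
      by_contra hcon
      push Not at hcon
      have hpos : ∃ S ∈ E, 0 < x S := by
        by_contra hcon'
        push Not at hcon'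
        have : ∑ S ∈ E, x S ≤ 0 := Finset.sum_nonpos hcon'
        rw [← hX] at this
        linarith
      obtain ⟨S₁, hS₁, hxS₁⟩ := hpos
      have h1 : ∑ S ∈ E, x S * (F / X + ∑ j, w j * (1 - y j / X) ^ (k + 1)) <
          ∑ S ∈ E, x S * val S :=
        Finset.sum_lt_sum (fun S hS => mul_le_mul_of_nonneg_left (hcon S hS).le (hx S))
          ⟨S₁, hS₁, mul_lt_mul_of_pos_left (hcon S₁ hS₁) hxS₁⟩
      rw [← Finset.sum_mul, ← hX, havg] at h1
      exact lt_irrefl _ h1
    obtain ⟨S, hSE, hSle⟩ := hex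
    obtain ⟨A, hA, hAle⟩ := ih (fun j => if j ∈ S then 0 else w j)
    refine ⟨insert S A, Finset.insert_subset hSE hA, ?_⟩
    have h2 : ∑ S' ∈ insert S A, z S' ≤ z S + ∑ S' ∈ A, z S' := by
      by_cases hSA : S ∈ A
      · rw [Finset.insert_eq_of_mem hSA]
        linarith [hz S]
      · rw [Finset.sum_insert hSA]
    have h3 : ∑ j, (if ∃ S' ∈ insert S A, j ∈ S' then 0 else w j) =
        ∑ j, (if ∃ S' ∈ A, j ∈ S' then 0 else if j ∈ S then 0 else w j) := by
      refine Finset.sum_congr rfl (fun j _ => ?_)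
      by_cases hj : j ∈ S
      · rw [if_pos ⟨S, Finset.mem_insert_self _ _, hj⟩]
        split_ifs <;> rfl
      · have : (∃ S' ∈ insert S A, j ∈ S') ↔ ∃ S' ∈ A, j ∈ S' := by
          simp [Finset.mem_insert, hj]
        simp only [this, hj, if_false]
    rw [h3]
    simp only [val] at hSle
    push_cast
    have h4 : ((k : ℝ) + 1) * (F / X) = k * (F / X) + F / X := by ring
    rw [h4]
    linarith

theorem one_sub_le_exp_sq {u : ℝ} (h0 : 0 ≤ u) (h1 : u ≤ 1) :
    1 - u ≤ Real.exp (-(u + u ^ 2 / 2)) := by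
  rcases h1.lt_or_eq with h1 | h1
  · have hs := Real.hasSum_pow_div_log_of_abs_lt_one (x := u) (by rw [abs_of_nonneg h0]; exact h1)
    have h2 := sum_le_hasSum (Finset.range 2) (fun n _ => by positivity) hs
    have h3 : ∑ n ∈ Finset.range 2, u ^ (n + 1) / ((n : ℝ) + 1) = u + u ^ 2 / 2 := by
      simp [Finset.sum_range_succ]
      norm_num
    rw [h3] at h2
    have h4 : 0 < 1 - u := by linarith
    rw [← Real.exp_log h4]
    refine Real.exp_le_exp.2 ?_
    linarith
  · subst h1
    simp only [sub_self]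
    exact (Real.exp_pos _).le

/-- The bound for normalised costs. -/
theorem gap_upper_normalised {m : ℕ} {q t : ℝ} (hq : 0 < q) (ht : 0 ≤ t)
    (z x : Finset (Fin m) → ℝ) (hz : ∀ S, 0 ≤ z S) (hx : IsFracCover x)
    (hF : ∑ S, x S * z S = 1) :
    ∃ T : Finset (Finset (Fin m)), IsCover T ∧
      ∑ S ∈ T, z S ≤ t + 1 + m * (q * Real.exp (-t)) + m * Real.exp (-(t * (1 + q / 2))) := by
  classical
  have hnn : ∀ S, 0 ≤ x S * z S := fun S => mul_nonneg (hx.1 S) (hz S)
  -- patching sets
  have hpatch1 : ∀ j : Fin m, ∃ S : Finset (Fin m), j ∈ S ∧ z S ≤ 1 := by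
    intro j
    by_contra hcon
    push Not at hcon
    have h1 : ∑ S : Finset (Fin m) with j ∈ S, x S * z S ≤ ∑ S, x S * z S :=
      Finset.sum_le_sum_of_subset_of_nonneg (Finset.filter_subset _ _) (fun S _ _ => hnn S)
    have hne : ∃ S : Finset (Fin m), j ∈ S ∧ 0 < x S := by
      by_contra hcon'
      push Not at hcon'
      have h0 : ∑ S : Finset (Fin m) with j ∈ S, x S ≤ 0 :=
        Finset.sum_nonpos (fun S hS => hcon' S (by simpa using hS))
      have := hx.2 j
      linarith
    obtain ⟨S₀, hjS₀, hxS₀⟩ := hne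
    have h2 : ∑ S : Finset (Fin m) with j ∈ S, x S <
        ∑ S : Finset (Fin m) with j ∈ S, x S * z S := by
      refine Finset.sum_lt_sum (fun S hS => ?_) ⟨S₀, by simpa using hjS₀, ?_⟩
      · have := mul_le_mul_of_nonneg_left (hcon S (by simpa using hS)).le (hx.1 S)
        linarith
      · have := mul_lt_mul_of_pos_left (hcon S₀ hjS₀) hxS₀
        linarith
    have := hx.2 j
    linarith
  -- cheap elements
  let cheap : Fin m → Prop := fun j => ∃ S : Finset (Fin m), j ∈ S ∧ z S < q
  let w : Fin m → ℝ := fun j => if cheap j then q else 1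
  have hw0 : ∀ j, 0 ≤ w j := by
    intro j
    simp only [w]
    split_ifs
    · exact hq.le
    · exact zero_le_one
  have hpatch : ∀ j : Fin m, ∃ S : Finset (Fin m), j ∈ S ∧ z S ≤ w j := by
    intro j
    by_cases h : cheap j
    · obtain ⟨S, hS, hzS⟩ := h
      refine ⟨S, hS, ?_⟩
      simp only [w]
      rw [if_pos ⟨S, hS, hzS⟩]
      exact hzS.le
    · obtain ⟨S, hS, hzS⟩ := hpatch1 j
      refine ⟨S, hS, ?_⟩
      simp only [w]
      rw [if_neg h]
      exact hzS
  choose P hP1 hP2 using hpatch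
  -- completing a partial cover
  have hcomplete : ∀ A : Finset (Finset (Fin m)), ∀ V : ℝ,
      ∑ S ∈ A, z S + ∑ j, (if ∃ S ∈ A, j ∈ S then 0 else w j) ≤ V →
      ∃ T : Finset (Finset (Fin m)), IsCover T ∧ ∑ S ∈ T, z S ≤ V := by
    intro A V hV
    refine ⟨A ∪ (univ.filter (fun j => ¬ ∃ S ∈ A, j ∈ S)).image P, ?_, ?_⟩
    · intro j
      by_cases h : ∃ S ∈ A, j ∈ S
      · obtain ⟨S, hS, hj⟩ := h
        exact ⟨S, Finset.mem_union_left _ hS, hj⟩
      · exact ⟨P j, Finset.mem_union_right _ (Finset.mem_image_of_mem _ (by simpa using h)), hP1 j⟩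
    · have h1 : ∑ S ∈ A ∪ (univ.filter (fun j => ¬ ∃ S ∈ A, j ∈ S)).image P, z S ≤
          ∑ S ∈ A, z S + ∑ S ∈ (univ.filter (fun j => ¬ ∃ S ∈ A, j ∈ S)).image P, z S := by
        rw [← Finset.sum_union_inter]
        have : 0 ≤ ∑ S ∈ A ∩ (univ.filter (fun j => ¬ ∃ S ∈ A, j ∈ S)).image P, z S :=
          Finset.sum_nonneg (fun S _ => hz S)
        linarith
      have h2 := sum_image_le_sum (univ.filter (fun j => ¬ ∃ S ∈ A, j ∈ S)) P z hz
      have h3 : ∑ j ∈ univ.filter (fun j => ¬ ∃ S ∈ A, j ∈ S), z (P j) ≤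
          ∑ j, (if ∃ S ∈ A, j ∈ S then 0 else w j) := by
        rw [Finset.sum_filter]
        refine Finset.sum_le_sum (fun j _ => ?_)
        by_cases h : ∃ S ∈ A, j ∈ S
        · rw [if_neg (not_not.2 h), if_pos h]
        · rw [if_pos h, if_neg h]
          exact hP2 j
      linarith
  have hp0 : ∀ S, 0 ≤ 1 - Real.exp (-(t * x S)) := by
    intro S
    have : Real.exp (-(t * x S)) ≤ 1 := by
      rw [Real.exp_le_one_iff]
      have := mul_nonneg ht (hx.1 S)
      linarith
    linarith
  have hp1 : ∀ S, 1 - Real.exp (-(t * x S)) ≤ 1 := by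
    intro S
    have := Real.exp_pos (-(t * x S))
    linarith
  have hpt : ∀ S, 1 - Real.exp (-(t * x S)) ≤ t * x S := by
    intro S
    have := Real.add_one_le_exp (-(t * x S))
    linarith
  have hprod : ∀ (C : Finset (Finset (Fin m))) (j : Fin m),
      ∏ S ∈ C with j ∈ S, (1 - (1 - Real.exp (-(t * x S)))) =
        Real.exp (-(t * ∑ S ∈ C with j ∈ S, x S)) := by
    intro C j
    rw [Finset.prod_congr rfl (fun S _ => sub_sub_cancel _ _), ← Real.exp_sum,
      Finset.sum_neg_distrib, Finset.mul_sum]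
  have hm0 : (0 : ℝ) ≤ m := Nat.cast_nonneg m
  by_cases hall : ∀ j, cheap j
  · -- all elements are cheap
    obtain ⟨A, -, hA⟩ := round_indep z (fun S => 1 - Real.exp (-(t * x S))) hp0 hp1 univ w
    refine hcomplete A _ (hA.trans ?_)
    have h1 : ∑ S, (1 - Real.exp (-(t * x S))) * z S ≤ t := by
      calc ∑ S, (1 - Real.exp (-(t * x S))) * z S ≤ ∑ S, t * x S * z S :=
            Finset.sum_le_sum (fun S _ => mul_le_mul_of_nonneg_right (hpt S) (hz S))
        _ = t * ∑ S, x S * z S := by
            rw [Finset.mul_sum]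
            exact Finset.sum_congr rfl (fun S _ => by ring)
        _ = t := by rw [hF, mul_one]
    have h2 : ∑ j, w j * ∏ S ∈ univ with j ∈ S, (1 - (1 - Real.exp (-(t * x S)))) ≤
        m * (q * Real.exp (-t)) := by
      calc ∑ j, w j * ∏ S ∈ univ with j ∈ S, (1 - (1 - Real.exp (-(t * x S))))
          ≤ ∑ _j : Fin m, q * Real.exp (-t) := by
            refine Finset.sum_le_sum (fun j _ => ?_)
            rw [hprod]
            have : w j = q := by simp only [w]; rw [if_pos (hall j)]
            rw [this]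
            refine mul_le_mul_of_nonneg_left (Real.exp_le_exp.2 ?_) hq.le
            have := mul_le_mul_of_nonneg_left (hx.2 j) ht
            linarith
        _ = m * (q * Real.exp (-t)) := by simp
    have h3 : 0 ≤ m * Real.exp (-(t * (1 + q / 2))) := by positivity
    linarith
  · push Not at hall
    obtain ⟨j₀, hj₀⟩ := hall
    set E : Finset (Finset (Fin m)) := univ.filter (fun S => q ≤ z S) with hE
    set C : Finset (Finset (Fin m)) := univ.filter (fun S => ¬ q ≤ z S) with hC
    obtain ⟨X, hX⟩ : ∃ X : ℝ, X = ∑ S ∈ E, x S := ⟨_, rfl⟩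
    have hexp : ∀ j, ¬ cheap j → 1 ≤ ∑ S ∈ E with j ∈ S, x S := by
      intro j hj
      have h1 : ∑ S ∈ E with j ∈ S, x S = ∑ S : Finset (Fin m) with j ∈ S, x S := by
        refine Finset.sum_congr ?_ (fun _ _ => rfl)
        ext S
        simp only [hE, mem_filter, mem_univ, true_and, and_iff_right_iff_imp]
        intro hjS
        by_contra hlt
        push Not at hlt
        exact hj ⟨S, hjS, hlt⟩
      rw [h1]
      exact hx.2 j
    have hyX : ∀ j, ∑ S ∈ E with j ∈ S, x S ≤ X := by
      intro j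
      rw [hX]
      exact Finset.sum_le_sum_of_subset_of_nonneg (Finset.filter_subset _ _)
        (fun S _ _ => hx.1 S)
    have hX1 : 1 ≤ X := (hexp j₀ hj₀).trans (hyX j₀)
    have hX0 : 0 < X := by linarith
    have hFE : ∑ S ∈ E, x S * z S + ∑ S ∈ C, x S * z S = 1 := by
      rw [← hF, hE, hC]
      exact Finset.sum_filter_add_sum_filter_not _ _ _
    have hFC0 : 0 ≤ ∑ S ∈ C, x S * z S := Finset.sum_nonneg (fun S _ => hnn S)
    have hFE0 : 0 ≤ ∑ S ∈ E, x S * z S := Finset.sum_nonneg (fun S _ => hnn S)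
    have hqX : q * X ≤ 1 := by
      have : q * X ≤ ∑ S ∈ E, x S * z S := by
        rw [hX, Finset.mul_sum]
        refine Finset.sum_le_sum (fun S hS => ?_)
        have h1 : q ≤ z S := by simpa [hE] using hS
        have := mul_le_mul_of_nonneg_left h1 (hx.1 S)
        linarith
      linarith
    set k : ℕ := ⌈t * X⌉₊ with hk
    have hk1 : t * X ≤ k := Nat.le_ceil _
    have hk2 : (k : ℝ) ≤ t * X + 1 := (Nat.ceil_lt_add_one (by positivity)).le
    -- weights after the independent rounding of the cheap sets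
    let w' : Fin m → ℝ := fun j => w j * Real.exp (-(t * ∑ S ∈ C with j ∈ S, x S))
    obtain ⟨A, -, hA⟩ := round_iid z x hz hx.1 E hX hX0 k w'
    obtain ⟨B, -, hB⟩ := round_indep z (fun S => 1 - Real.exp (-(t * x S))) hp0 hp1 C
      (fun j => if ∃ S ∈ A, j ∈ S then 0 else w j)
    have hcomb : ∑ S ∈ A ∪ B, z S + ∑ j, (if ∃ S ∈ A ∪ B, j ∈ S then 0 else w j) ≤
        k * ((∑ S ∈ E, x S * z S) / X) + ∑ S ∈ C, (1 - Real.exp (-(t * x S))) * z S +
          ∑ j, w' j * (1 - (∑ S ∈ E with j ∈ S, x S) / X) ^ k := by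
      have h1 : ∑ S ∈ A ∪ B, z S ≤ ∑ S ∈ A, z S + ∑ S ∈ B, z S := by
        rw [← Finset.sum_union_inter]
        have : 0 ≤ ∑ S ∈ A ∩ B, z S := Finset.sum_nonneg (fun S _ => hz S)
        linarith
      have h2 : ∑ j, (if ∃ S ∈ A ∪ B, j ∈ S then 0 else w j) =
          ∑ j, (if ∃ S ∈ B, j ∈ S then 0 else if ∃ S ∈ A, j ∈ S then 0 else w j) := by
        refine Finset.sum_congr rfl (fun j _ => ?_)
        have : (∃ S ∈ A ∪ B, j ∈ S) ↔ (∃ S ∈ B, j ∈ S) ∨ ∃ S ∈ A, j ∈ S := by
          constructor
          · rintro ⟨S, hS, hj⟩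
            rcases Finset.mem_union.1 hS with h | h
            · exact Or.inr ⟨S, h, hj⟩
            · exact Or.inl ⟨S, h, hj⟩
          · rintro (⟨S, hS, hj⟩ | ⟨S, hS, hj⟩)
            · exact ⟨S, Finset.mem_union_right _ hS, hj⟩
            · exact ⟨S, Finset.mem_union_left _ hS, hj⟩
        by_cases hb : ∃ S ∈ B, j ∈ S
        · rw [if_pos (this.2 (Or.inl hb)), if_pos hb]
        · by_cases ha : ∃ S ∈ A, j ∈ S
          · rw [if_pos (this.2 (Or.inr ha)), if_neg hb, if_pos ha]
          · rw [if_neg (fun h => (this.1 h).elim hb ha), if_neg hb, if_neg ha]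
      have h3 : ∑ j, (if ∃ S ∈ A, j ∈ S then 0 else w j) *
          ∏ S ∈ C with j ∈ S, (1 - (1 - Real.exp (-(t * x S)))) =
          ∑ j, (if ∃ S ∈ A, j ∈ S then 0 else w' j) := by
        refine Finset.sum_congr rfl (fun j _ => ?_)
        rw [hprod]
        split_ifs
        · rw [zero_mul]
        · rfl
      rw [h2]
      rw [h3] at hB
      linarith
    refine hcomplete (A ∪ B) _ (hcomb.trans ?_)
    have h1 : k * ((∑ S ∈ E, x S * z S) / X) ≤ t * (∑ S ∈ E, x S * z S) + 1 := by
      have h2 : (∑ S ∈ E, x S * z S) / X ≤ 1 := by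
        rw [div_le_one hX0]
        linarith
      have h3 : 0 ≤ (∑ S ∈ E, x S * z S) / X := div_nonneg hFE0 hX0.le
      calc k * ((∑ S ∈ E, x S * z S) / X) ≤ (t * X + 1) * ((∑ S ∈ E, x S * z S) / X) :=
            mul_le_mul_of_nonneg_right hk2 h3
        _ = t * (∑ S ∈ E, x S * z S) + (∑ S ∈ E, x S * z S) / X := by
            field_simp
        _ ≤ _ := by linarith
    have h2 : ∑ S ∈ C, (1 - Real.exp (-(t * x S))) * z S ≤ t * ∑ S ∈ C, x S * z S := by
      rw [Finset.mul_sum]
      refine Finset.sum_le_sum (fun S _ => ?_)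
      have := mul_le_mul_of_nonneg_right (hpt S) (hz S)
      linarith
    have h3 : ∑ j, w' j * (1 - (∑ S ∈ E with j ∈ S, x S) / X) ^ k ≤
        m * (q * Real.exp (-t)) + m * Real.exp (-(t * (1 + q / 2))) := by
      have h4 : ∀ j, w' j * (1 - (∑ S ∈ E with j ∈ S, x S) / X) ^ k ≤
          q * Real.exp (-t) + Real.exp (-(t * (1 + q / 2))) := by
        intro j
        set y := ∑ S ∈ E with j ∈ S, x S with hy
        set y' := ∑ S ∈ C with j ∈ S, x S with hy'
        have hy0 : 0 ≤ y := Finset.sum_nonneg (fun S _ => hx.1 S)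
        have hy'0 : 0 ≤ y' := Finset.sum_nonneg (fun S _ => hx.1 S)
        have hyy' : 1 ≤ y + y' := by
          have h5 : y + y' = ∑ S : Finset (Fin m) with j ∈ S, x S := by
            rw [hy, hy', hE, hC, Finset.filter_filter, Finset.filter_filter,
              ← Finset.sum_filter_add_sum_filter_not (univ.filter (fun S : Finset (Fin m) => j ∈ S))
                (fun S => q ≤ z S), Finset.filter_filter, Finset.filter_filter]
            congr 1
            · exact Finset.sum_congr (Finset.filter_congr (fun S _ => and_comm)) (fun _ _ => rfl)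
            · exact Finset.sum_congr (Finset.filter_congr (fun S _ => and_comm)) (fun _ _ => rfl)
          rw [h5]
          exact hx.2 j
        have hyX' : y / X ≤ 1 := by
          rw [div_le_one hX0]
          exact hyX j
        have hbase0 : 0 ≤ 1 - y / X := by linarith
        have hyXnn : 0 ≤ y / X := div_nonneg hy0 hX0.le
        by_cases hc : cheap j
        · have hwj : w j = q := by simp only [w]; rw [if_pos hc]
          have h6 : (1 - y / X) ^ k ≤ Real.exp (-(t * y)) := by
            calc (1 - y / X) ^ k ≤ (Real.exp (-(y / X))) ^ k := by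
                  refine pow_le_pow_left₀ hbase0 ?_ _
                  have := Real.add_one_le_exp (-(y / X))
                  linarith
              _ = Real.exp (-(y / X * k)) := by
                  rw [← Real.exp_nat_mul]
                  ring_nf
              _ ≤ Real.exp (-(t * y)) := by
                  refine Real.exp_le_exp.2 (neg_le_neg ?_)
                  calc t * y = y / X * (t * X) := by field_simp
                    _ ≤ y / X * k := mul_le_mul_of_nonneg_left hk1 hyXnn
          calc w' j * (1 - y / X) ^ k ≤ (q * Real.exp (-(t * y'))) * Real.exp (-(t * y)) := by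
                simp only [w', hwj]
                exact mul_le_mul_of_nonneg_left h6 (by positivity)
            _ = q * Real.exp (-(t * (y + y'))) := by
                rw [mul_assoc, ← Real.exp_add]
                ring_nf
            _ ≤ q * Real.exp (-t) := by
                refine mul_le_mul_of_nonneg_left (Real.exp_le_exp.2 ?_) hq.le
                have := mul_le_mul_of_nonneg_left hyy' ht
                linarith
            _ ≤ _ := by
                have := Real.exp_pos (-(t * (1 + q / 2)))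
                linarith
        · have hwj : w j = 1 := by simp only [w]; rw [if_neg hc]
          have hy1 : 1 ≤ y := hexp j hc
          have h6 : (1 - y / X) ^ k ≤ Real.exp (-(t * (1 + q / 2))) := by
            have h7 : 1 - y / X ≤ 1 - 1 / X := by
              have : 1 / X ≤ y / X := div_le_div_of_nonneg_right hy1 hX0.le
              linarith
            have hu0 : 0 ≤ 1 / X := by positivity
            have hu1 : 1 / X ≤ 1 := by
              rw [div_le_one hX0]
              exact hX1
            calc (1 - y / X) ^ k ≤ (Real.exp (-(1 / X + (1 / X) ^ 2 / 2))) ^ k := by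
                  refine pow_le_pow_left₀ hbase0 ?_ _
                  exact h7.trans (one_sub_le_exp_sq hu0 hu1)
              _ = Real.exp (-((1 / X + (1 / X) ^ 2 / 2) * k)) := by
                  rw [← Real.exp_nat_mul]
                  ring_nf
              _ ≤ Real.exp (-(t * (1 + q / 2))) := by
                  refine Real.exp_le_exp.2 (neg_le_neg ?_)
                  have hqX' : q ≤ 1 / X := by
                    rw [le_div_iff₀ hX0]
                    exact hqX
                  calc t * (1 + q / 2) ≤ t * (1 + 1 / X / 2) := by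
                        refine mul_le_mul_of_nonneg_left ?_ ht
                        linarith
                    _ = (1 / X + (1 / X) ^ 2 / 2) * (t * X) := by field_simp
                    _ ≤ (1 / X + (1 / X) ^ 2 / 2) * k :=
                        mul_le_mul_of_nonneg_left hk1 (by positivity)
          have h8 : w' j ≤ 1 := by
            simp only [w', hwj, one_mul]
            rw [Real.exp_le_one_iff]
            have := mul_nonneg ht hy'0
            linarith
          have h9 : 0 ≤ (1 - y / X) ^ k := pow_nonneg hbase0 _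
          have h10 : 0 ≤ q * Real.exp (-t) := by positivity
          calc w' j * (1 - y / X) ^ k ≤ 1 * (1 - y / X) ^ k :=
                mul_le_mul_of_nonneg_right h8 h9
            _ ≤ _ := by linarith
      calc ∑ j, w' j * (1 - (∑ S ∈ E with j ∈ S, x S) / X) ^ k
          ≤ ∑ _j : Fin m, (q * Real.exp (-t) + Real.exp (-(t * (1 + q / 2)))) :=
            Finset.sum_le_sum (fun j _ => h4 j)
        _ = _ := by
            rw [Finset.sum_const, nsmul_eq_mul, Finset.card_univ, Fintype.card_fin]
            ring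
    have h5 : t * (∑ S ∈ E, x S * z S) + t * (∑ S ∈ C, x S * z S) = t := by
      rw [← mul_add, hFE, mul_one]
    linarith

theorem isGapBound_param {m : ℕ} {q t : ℝ} (hq : 0 < q) (ht : 0 ≤ t) :
    IsGapBound m (t + 1 + m * (q * Real.exp (-t)) + m * Real.exp (-(t * (1 + q / 2)))) := by
  classical
  intro z hz x hx
  set F := ∑ S, x S * z S with hF
  have hnn : ∀ S, 0 ≤ x S * z S := fun S => mul_nonneg (hx.1 S) (hz S)
  have hF0 : 0 ≤ F := Finset.sum_nonneg (fun S _ => hnn S)
  rcases hF0.lt_or_eq with hpos | hzero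
  · obtain ⟨T, hT, hle⟩ := gap_upper_normalised hq ht (fun S => z S / F) x
      (fun S => div_nonneg (hz S) hF0) hx (by
        have : ∑ S, x S * (z S / F) = (∑ S, x S * z S) / F := by
          rw [Finset.sum_div]
          exact Finset.sum_congr rfl (fun S _ => by ring)
        rw [this, ← hF, div_self hpos.ne'])
    refine ⟨T, hT, ?_⟩
    rw [← Finset.sum_div, div_le_iff₀ hpos] at hle
    exact hle
  · refine ⟨univ.filter (fun S : Finset (Fin m) => x S ≠ 0), ?_, ?_⟩
    · intro j
      by_contra hcon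
      push Not at hcon
      have h0 : ∑ S : Finset (Fin m) with j ∈ S, x S = 0 := by
        apply Finset.sum_eq_zero
        intro S hS
        by_contra hxS
        exact hcon S (by simp [hxS]) (by simpa using hS)
      have := hx.2 j
      linarith
    · rw [← hzero, mul_zero]
      refine le_of_eq (Finset.sum_eq_zero (fun S hS => ?_))
      simp only [mem_filter, mem_univ, true_and] at hS
      have h1 := (Finset.sum_eq_zero_iff_of_nonneg (fun S _ => hnn S)).1 hzero.symm S (mem_univ S)
      exact (mul_eq_zero.1 h1).resolve_left hS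

end Pool.Agent.Lib.MP_46a7d5_co
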