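import Mathlib

/-!
Definitions for the choice number of balanced complete multipartite graphs and for the
integrality gap of weighted set cover.
-/

set_option autoImplicit false

namespace Pool.Agent.Lib.MP_46a7d5_co

open Finset

/-- `G` is `s`-choosable: it can be properly coloured from any assignment of lists of `s` colours. -/
def Choosable {V : Type*} (G : SimpleGraph V) (s : ℕ) : Prop :=
  ∀ L : V → Finset ℕ, (∀ v, (L v).card = s) →
    ∃ c : V → ℕ, (∀ v, c v ∈ L v) ∧ ∀ u v, G.Adj u v → c u ≠ c v

/-- The choice number: the least `s` such that `G` is `s`-choosable. -/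
noncomputable def choiceNumber {V : Type*} (G : SimpleGraph V) : ℕ :=
  sInf {s | Choosable G s}

/-- The complete `k`-partite graph whose parts all have `m` vertices. -/
abbrev balancedMultipartite (m k : ℕ) : SimpleGraph (Σ _ : Fin k, Fin m) :=
  SimpleGraph.completeMultipartiteGraph (fun _ : Fin k => Fin m)

/-- A family `T` of subsets of `{1, ..., m}` covers `{1, ..., m}`. -/
def IsCover {m : ℕ} (T : Finset (Finset (Fin m))) : Prop :=
  ∀ j : Fin m, ∃ S ∈ T, j ∈ S

/-- A fractional cover of `{1, ..., m}`: nonnegative weights on the subsets such that each element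
lies in sets of total weight at least one. -/
def IsFracCover {m : ℕ} (x : Finset (Fin m) → ℝ) : Prop :=
  (∀ S, 0 ≤ x S) ∧ ∀ j : Fin m, 1 ≤ ∑ S : Finset (Fin m) with j ∈ S, x S

/-- The real number `c` is an upper bound for the ratio between the cheapest cover and the
cheapest fractional cover, for all nonnegative set costs `z` on the subsets of `{1, ..., m}`. -/
def IsGapBound (m : ℕ) (c : ℝ) : Prop :=
  ∀ z : Finset (Fin m) → ℝ, (∀ S, 0 ≤ z S) → ∀ x : Finset (Fin m) → ℝ, IsFracCover x →
    ∃ T : Finset (Finset (Fin m)), IsCover T ∧ ∑ S ∈ T, z S ≤ c * ∑ S, x S * z S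

/-- The integrality gap of weighted set cover on `m` elements: the least `c` such that, for all
nonnegative set costs, the cheapest cover costs at most `c` times any fractional cover. -/
noncomputable def setCoverGap (m : ℕ) : ℝ := sInf {c : ℝ | IsGapBound m c}

end Pool.Agent.Lib.MP_46a7d5_co
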