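import Pool.Agent.Lib.MP_46a7d5_co.Main

/-!
Bounds for the integrality gap of weighted set cover on few elements.
-/

set_option autoImplicit false

namespace Pool.Agent.Lib.MP_46a7d5_co

open Finset

/-- Relative version: `g` bounds the ratio for covering a set `R` of `r` elements. -/
def GapOn (r : ℕ) (g : ℝ) : Prop :=
  ∀ (m : ℕ) (R : Finset (Fin m)), R.card = r → ∀ z x : Finset (Fin m) → ℝ, (∀ S, 0 ≤ z S) →
    (∀ S, 0 ≤ x S) → (∀ j ∈ R, 1 ≤ ∑ S : Finset (Fin m) with j ∈ S, x S) →
    ∃ T : Finset (Finset (Fin m)), (∀ j ∈ R, ∃ S ∈ T, j ∈ S) ∧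
      ∑ S ∈ T, z S ≤ g * ∑ S : Finset (Fin m) with (S ∩ R).Nonempty, x S * z S

theorem GapOn.isGapBound {r : ℕ} {g : ℝ} (hg : 0 ≤ g) (h : GapOn r g) : IsGapBound r g := by
  intro z hz x hx
  obtain ⟨T, hT, hle⟩ := h r univ (by simp) z x hz hx.1 (fun j _ => hx.2 j)
  refine ⟨T, fun j => hT j (mem_univ _), hle.trans (mul_le_mul_of_nonneg_left ?_ hg)⟩
  exact Finset.sum_le_sum_of_subset_of_nonneg (Finset.filter_subset _ _)
    (fun S _ _ => mul_nonneg (hx.1 S) (hz S))

theorem gapOn_zero : GapOn 0 0 := by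
  intro m R hR z x hz hx hcov
  have : R = ∅ := Finset.card_eq_zero.1 hR
  subst this
  exact ⟨∅, by simp, by simp⟩

/-- A fractional cover of `R` can be replaced by one, not more expensive, with at most `|R|` sets
in its support. -/
theorem exists_small_support {m : ℕ} (R : Finset (Fin m)) (z x : Finset (Fin m) → ℝ)
    (hz : ∀ S, 0 ≤ z S) (hx : ∀ S, 0 ≤ x S)
    (hcov : ∀ j ∈ R, 1 ≤ ∑ S : Finset (Fin m) with j ∈ S, x S) :
    ∃ x' : Finset (Fin m) → ℝ, (∀ S, 0 ≤ x' S) ∧ (∀ S, ¬ (S ∩ R).Nonempty → x' S = 0) ∧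
      (∀ j ∈ R, 1 ≤ ∑ S : Finset (Fin m) with j ∈ S, x' S) ∧
      ∑ S, x' S * z S ≤ ∑ S : Finset (Fin m) with (S ∩ R).Nonempty, x S * z S ∧
      (∀ S, x' S ≠ 0 → R ⊆ S → z S ≤ ∑ S, x' S * z S) ∧
      (univ.filter (fun S => x' S ≠ 0)).card ≤ R.card := by
  classical
  set F := ∑ S : Finset (Fin m) with (S ∩ R).Nonempty, x S * z S with hF
  let Good : (Finset (Fin m) → ℝ) → Prop := fun x' =>
    (∀ S, 0 ≤ x' S) ∧ (∀ S, ¬ (S ∩ R).Nonempty → x' S = 0) ∧
      (∀ j ∈ R, 1 ≤ ∑ S : Finset (Fin m) with j ∈ S, x' S) ∧ ∑ S, x' S * z S ≤ F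
  have hex : ∃ n : ℕ, ∃ x', Good x' ∧ (univ.filter (fun S => x' S ≠ 0)).card = n := by
    refine ⟨_, fun S => if (S ∩ R).Nonempty then x S else 0, ⟨?_, ?_, ?_, ?_⟩, rfl⟩
    · intro S
      dsimp only
      split_ifs
      · exact hx S
      · exact le_rfl
    · intro S hS
      dsimp only
      rw [if_neg hS]
    · intro j hj
      refine (hcov j hj).trans (le_of_eq ?_)
      refine Finset.sum_congr rfl (fun S hS => ?_)
      dsimp only
      rw [if_pos]
      exact ⟨j, Finset.mem_inter.2 ⟨by simpa using hS, hj⟩⟩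
    · rw [hF, Finset.sum_filter]
      refine le_of_eq (Finset.sum_congr rfl (fun S _ => ?_))
      dsimp only
      split_ifs <;> simp
  obtain ⟨x', hgood, hcard⟩ := Nat.find_spec hex
  have hmin : ∀ x'', Good x'' →
      (univ.filter (fun S => x' S ≠ 0)).card ≤ (univ.filter (fun S => x'' S ≠ 0)).card := by
    intro x'' h''
    rw [hcard]
    exact Nat.find_min' hex ⟨x'', h'', rfl⟩
  refine ⟨x', hgood.1, hgood.2.1, hgood.2.2.1, hgood.2.2.2, ?_, ?_⟩
  · intro S hS hRS
    by_contra hlt
    push Not at hlt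
    set F' := ∑ S, x' S * z S with hF'
    have hzS : 0 < z S := lt_of_le_of_lt
      (Finset.sum_nonneg (fun S _ => mul_nonneg (hgood.1 S) (hz S))) hlt
    have hle : x' S * z S ≤ F' :=
      Finset.single_le_sum (f := fun S => x' S * z S)
        (fun S _ => mul_nonneg (hgood.1 S) (hz S)) (mem_univ S)
    have hx1 : x' S < 1 := by
      by_contra h1
      push Not at h1
      have := mul_le_mul_of_nonneg_right h1 hzS.le
      linarith
    have h1x : 0 < 1 - x' S := by linarith
    have hgood' : Good (fun S' => if S' = S then 0 else x' S' / (1 - x' S)) := by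
      refine ⟨?_, ?_, ?_, ?_⟩
      · intro S'
        dsimp only
        split_ifs
        · exact le_rfl
        · exact div_nonneg (hgood.1 S') h1x.le
      · intro S' hS'
        dsimp only
        split_ifs
        · rfl
        · rw [hgood.2.1 S' hS', zero_div]
      · intro j hj
        have hjS : S ∈ univ.filter (fun S : Finset (Fin m) => j ∈ S) := by simp [hRS hj]
        rw [← Finset.add_sum_erase _ _ hjS]
        rw [if_pos rfl, zero_add]
        have h2 : ∑ S' ∈ (univ.filter (fun S : Finset (Fin m) => j ∈ S)).erase S,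
            (if S' = S then 0 else x' S' / (1 - x' S)) =
            (∑ S' ∈ (univ.filter (fun S : Finset (Fin m) => j ∈ S)).erase S, x' S') /
              (1 - x' S) := by
          rw [Finset.sum_div]
          refine Finset.sum_congr rfl (fun S' hS' => ?_)
          rw [if_neg (Finset.ne_of_mem_erase hS')]
        rw [h2, le_div_iff₀ h1x]
        have h3 := hgood.2.2.1 j hj
        rw [← Finset.add_sum_erase _ _ hjS] at h3
        linarith
      · have h2 : ∑ S', (if S' = S then 0 else x' S' / (1 - x' S)) * z S' =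
            (F' - x' S * z S) / (1 - x' S) := by
          rw [← Finset.add_sum_erase _ _ (mem_univ S), if_pos rfl, zero_mul, zero_add]
          rw [hF', ← Finset.add_sum_erase _ _ (mem_univ S), add_sub_cancel_left, Finset.sum_div]
          refine Finset.sum_congr rfl (fun S' hS' => ?_)
          rw [if_neg (Finset.ne_of_mem_erase hS')]
          ring
        rw [h2]
        refine le_trans ?_ hgood.2.2.2
        rw [div_le_iff₀ h1x]
        have := mul_le_mul_of_nonneg_left hlt.le (hgood.1 S)
        nlinarith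
    have hlt' : (univ.filter
        (fun S' => (if S' = S then 0 else x' S' / (1 - x' S)) ≠ 0)).card <
        (univ.filter (fun S => x' S ≠ 0)).card := by
      apply Finset.card_lt_card
      rw [Finset.ssubset_iff_of_subset]
      · exact ⟨S, by simp [hS], by simp⟩
      · intro S' hS'
        simp only [mem_filter, mem_univ, true_and] at hS' ⊢
        intro h0
        apply hS'
        rw [h0]
        simp
    exact absurd (hmin _ hgood') (not_le.2 hlt')
  by_contra hcon
  push Not at hcon
  set supp := univ.filter (fun S => x' S ≠ 0) with hsupp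
  -- a linear relation
  let M : Matrix R supp ℝ := fun j S => if j.1 ∈ S.1 then 1 else 0
  have hker : LinearMap.ker M.mulVecLin ≠ ⊥ := by
    apply LinearMap.ker_ne_bot_of_finrank_lt
    simp only [Module.finrank_fintype_fun_eq_card, Fintype.card_coe]
    exact hcon
  obtain ⟨y, hy, hy0⟩ := Submodule.exists_mem_ne_zero_of_ne_bot hker
  rw [LinearMap.mem_ker, Matrix.mulVecLin_apply] at hy
  let y₁ : Finset (Fin m) → ℝ := fun S => if h : S ∈ supp then y ⟨S, h⟩ else 0
  have hy₁sum : ∀ j ∈ R, ∑ S : Finset (Fin m) with j ∈ S, y₁ S = 0 := by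
    intro j hj
    have h1 := congrFun hy ⟨j, hj⟩
    simp only [Matrix.mulVec, dotProduct, M, Pi.zero_apply, ite_mul, one_mul, zero_mul] at h1
    rw [← h1, Finset.sum_filter]
    symm
    have h2 : ∀ S : supp, (if j ∈ S.1 then y S else 0) = (fun S => if j ∈ S then y₁ S else 0) S.1 := by
      intro S
      simp only [y₁]
      by_cases h : j ∈ S.1
      · simp [h]
      · simp [h]
    rw [Finset.sum_congr rfl (fun S _ => h2 S)]
    rw [Finset.sum_coe_sort supp (fun S => if j ∈ S then y₁ S else 0)]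
    refine Finset.sum_subset (Finset.subset_univ _) (fun S _ hS => ?_)
    simp only [y₁, dif_neg hS, ite_self]
  have hy₁supp : ∀ S, x' S = 0 → y₁ S = 0 := by
    intro S hS
    have : S ∉ supp := by simp [hsupp, hS]
    simp only [y₁, dif_neg this]
  have hy₁ne : ∃ S, y₁ S ≠ 0 := by
    by_contra hall
    push Not at hall
    apply hy0
    funext S
    have := hall S.1
    simp only [y₁, S.2, dif_pos] at this
    exact this
  obtain ⟨y₂, h2sum, h2supp, h2ne, h2cost⟩ : ∃ y₂ : Finset (Fin m) → ℝ,
      (∀ j ∈ R, ∑ S : Finset (Fin m) with j ∈ S, y₂ S = 0) ∧ (∀ S, x' S = 0 → y₂ S = 0) ∧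
      (∃ S, y₂ S ≠ 0) ∧ ∑ S, y₂ S * z S ≤ 0 := by
    rcases le_total (∑ S, y₁ S * z S) 0 with h | h
    · exact ⟨y₁, hy₁sum, hy₁supp, hy₁ne, h⟩
    · refine ⟨fun S => - y₁ S, ?_, ?_, ?_, ?_⟩
      · intro j hj
        rw [Finset.sum_neg_distrib, hy₁sum j hj, neg_zero]
      · intro S hS
        dsimp only
        rw [hy₁supp S hS, neg_zero]
      · obtain ⟨S, hS⟩ := hy₁ne
        exact ⟨S, neg_ne_zero.2 hS⟩
      · simp only [neg_mul, Finset.sum_neg_distrib]
        linarith
  -- a negative coordinate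
  have hneg : (univ.filter (fun S => y₂ S < 0)).Nonempty := by
    by_contra hempty
    rw [Finset.not_nonempty_iff_eq_empty] at hempty
    have hnn : ∀ S, 0 ≤ y₂ S := by
      intro S
      by_contra hlt
      push Not at hlt
      have : S ∈ univ.filter (fun S => y₂ S < 0) := by simp [hlt]
      rw [hempty] at this
      simp at this
    obtain ⟨S₀, hS₀⟩ := h2ne
    have hS₀' : (S₀ ∩ R).Nonempty := by
      by_contra hne
      exact hS₀ (h2supp S₀ (hgood.2.1 S₀ hne))
    obtain ⟨j, hj⟩ := hS₀'
    rw [Finset.mem_inter] at hj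
    have h1 := h2sum j hj.2
    have h2 : y₂ S₀ ≤ ∑ S : Finset (Fin m) with j ∈ S, y₂ S :=
      Finset.single_le_sum (fun S _ => hnn S) (by simp [hj.1])
    have h3 : 0 < y₂ S₀ := lt_of_le_of_ne (hnn S₀) (Ne.symm hS₀)
    linarith
  obtain ⟨S₁, hS₁, hS₁min⟩ := Finset.exists_min_image _ (fun S => x' S / (- y₂ S)) hneg
  simp only [mem_filter, mem_univ, true_and] at hS₁ hS₁min
  set t := x' S₁ / (- y₂ S₁) with ht
  have ht0 : 0 ≤ t := div_nonneg (hgood.1 S₁) (by linarith)
  have hgood' : Good (fun S => x' S + t * y₂ S) := by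
    refine ⟨?_, ?_, ?_, ?_⟩
    · intro S
      dsimp only
      rcases lt_or_ge (y₂ S) 0 with h | h
      · have h1 := hS₁min S h
        have h2 : 0 < - y₂ S := by linarith
        rw [le_div_iff₀ h2] at h1
        linarith
      · have := mul_nonneg ht0 h
        linarith [hgood.1 S]
    · intro S hS
      dsimp only
      rw [h2supp S (hgood.2.1 S hS), hgood.2.1 S hS]
      ring
    · intro j hj
      rw [Finset.sum_add_distrib, ← Finset.mul_sum, h2sum j hj, mul_zero, add_zero]
      exact hgood.2.2.1 j hj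
    · have h1 : ∑ S, (x' S + t * y₂ S) * z S = ∑ S, x' S * z S + t * ∑ S, y₂ S * z S := by
        rw [Finset.mul_sum, ← Finset.sum_add_distrib]
        exact Finset.sum_congr rfl (fun S _ => by ring)
      rw [h1]
      have h2 := mul_nonpos_of_nonneg_of_nonpos ht0 h2cost
      linarith [hgood.2.2.2]
  have hlt : (univ.filter (fun S => x' S + t * y₂ S ≠ 0)).card < supp.card := by
    apply Finset.card_lt_card
    rw [Finset.ssubset_iff_of_subset]
    · refine ⟨S₁, ?_, ?_⟩
      · simp only [hsupp, mem_filter, mem_univ, true_and]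
        intro h0
        exact hS₁.ne (h2supp S₁ h0)
      · simp only [mem_filter, mem_univ, true_and, not_not]
        rw [ht]
        field_simp [hS₁.ne]
        ring
    · intro S hS
      simp only [mem_filter, mem_univ, true_and, hsupp] at hS ⊢
      intro h0
      apply hS
      rw [h0, h2supp S h0]
      ring
  exact absurd (hmin _ hgood') (not_le.2 hlt)

end Pool.Agent.Lib.MP_46a7d5_co
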