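import Pool.Agent.Lib.MP_46a7d5_co.Values

/-!
An upper bound for the integrality gap of weighted set cover on `m ≥ 11` elements.
-/

set_option autoImplicit false

namespace Pool.Agent.Lib.MP_46a7d5_co

open Finset

theorem GapOn.mono {r : ℕ} {g g' : ℝ} (h : GapOn r g) (hgg : g ≤ g') : GapOn r g' := by
  intro m R hR z x hz hx hcov
  obtain ⟨T, hT, hle⟩ := h m R hR z x hz hx hcov
  refine ⟨T, hT, hle.trans (mul_le_mul_of_nonneg_right hgg ?_)⟩
  exact Finset.sum_nonneg (fun S _ => mul_nonneg (hx S) (hz S))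

/-- The greedy step. -/
theorem gapOn_greedy {r : ℕ} (hr : 1 ≤ r) {v : ℝ} (g : ℕ → ℝ)
    (hg : ∀ r' < r, GapOn r' (g r')) (hg0 : ∀ r' < r, 0 ≤ g r')
    (hineq : ∀ r' < r, ((r : ℝ) - r') / r + g r' ≤ v) : GapOn r v := by
  classical
  intro m R hR z x hz hx hcov
  have hr0 : (0 : ℝ) < r := by exact_mod_cast hr
  set F := ∑ S : Finset (Fin m) with (S ∩ R).Nonempty, x S * z S with hF
  have hnn : ∀ S, 0 ≤ x S * z S := fun S => mul_nonneg (hx S) (hz S)
  have hF0 : 0 ≤ F := Finset.sum_nonneg (fun S _ => hnn S)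
  have hS : ∃ S : Finset (Fin m), (S ∩ R).Nonempty ∧ z S * r ≤ (S ∩ R).card * F := by
    by_contra hcon
    push Not at hcon
    obtain ⟨j, hj⟩ : R.Nonempty := by rw [← Finset.card_pos]; omega
    have hne : ∃ S : Finset (Fin m), j ∈ S ∧ 0 < x S := by
      by_contra hcon'
      push Not at hcon'
      have h0 : ∑ S : Finset (Fin m) with j ∈ S, x S ≤ 0 :=
        Finset.sum_nonpos (fun S hS => hcon' S (by simpa using hS))
      have := hcov j hj
      linarith
    obtain ⟨S₀, hjS₀, hxS₀⟩ := hne
    have h1 : ∑ S : Finset (Fin m) with (S ∩ R).Nonempty, ((S ∩ R).card : ℝ) * x S * F <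
        ∑ S : Finset (Fin m) with (S ∩ R).Nonempty, x S * z S * r := by
      refine Finset.sum_lt_sum (fun S hS => ?_)
        ⟨S₀, by simpa using ⟨j, Finset.mem_inter.2 ⟨hjS₀, hj⟩⟩, ?_⟩
      · have := mul_le_mul_of_nonneg_left (hcon S (by simpa using hS)).le (hx S)
        linarith
      · have := mul_lt_mul_of_pos_left
          (hcon S₀ ⟨j, Finset.mem_inter.2 ⟨hjS₀, hj⟩⟩) hxS₀
        linarith
    rw [← Finset.sum_mul, ← Finset.sum_mul, ← hF] at h1
    have h2 : (r : ℝ) ≤ ∑ S : Finset (Fin m) with (S ∩ R).Nonempty, ((S ∩ R).card : ℝ) * x S := by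
      have h3 : ∑ S : Finset (Fin m) with (S ∩ R).Nonempty, ((S ∩ R).card : ℝ) * x S =
          ∑ S, ((S ∩ R).card : ℝ) * x S := by
        refine Finset.sum_subset (Finset.filter_subset _ _) (fun S _ hS => ?_)
        have : S ∩ R = ∅ := by
          rw [Finset.mem_filter, not_and] at hS
          exact Finset.not_nonempty_iff_eq_empty.1 (hS (mem_univ S))
        rw [this, Finset.card_empty, Nat.cast_zero, zero_mul]
      rw [h3, sum_inter_card]
      calc (r : ℝ) = ∑ _j ∈ R, (1 : ℝ) := by simp [hR]
        _ ≤ _ := Finset.sum_le_sum hcov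
    have h4 := mul_le_mul_of_nonneg_right h2 hF0
    linarith
  obtain ⟨S, hSne, hSle⟩ := hS
  set s := (S ∩ R).card with hs
  have hs1 : 1 ≤ s := Finset.card_pos.2 hSne
  have hsr : s ≤ r := by
    rw [← hR]
    exact Finset.card_le_card Finset.inter_subset_right
  have hcard : (R \ S).card = r - s := by
    rw [Finset.card_sdiff, hR]
  have hlt : r - s < r := by omega
  obtain ⟨T, hT, hTle⟩ := hg (r - s) hlt m (R \ S) hcard z x hz hx
    (fun j hj => hcov j (Finset.mem_sdiff.1 hj).1)
  have hrest : ∑ S' : Finset (Fin m) with (S' ∩ (R \ S)).Nonempty, x S' * z S' ≤ F := by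
    rw [hF]
    refine Finset.sum_le_sum_of_subset_of_nonneg ?_ (fun S' _ _ => hnn S')
    intro S' hS'
    rw [Finset.mem_filter] at hS' ⊢
    refine ⟨mem_univ _, ?_⟩
    obtain ⟨j, hj⟩ := hS'.2
    rw [Finset.mem_inter, Finset.mem_sdiff] at hj
    exact ⟨j, Finset.mem_inter.2 ⟨hj.1, hj.2.1⟩⟩
  refine ⟨insert S T, ?_, ?_⟩
  · intro j hj
    by_cases hjS : j ∈ S
    · exact ⟨S, Finset.mem_insert_self _ _, hjS⟩
    · obtain ⟨S', hS', hj'⟩ := hT j (Finset.mem_sdiff.2 ⟨hj, hjS⟩)
      exact ⟨S', Finset.mem_insert_of_mem hS', hj'⟩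
  · have h2 : ∑ S' ∈ insert S T, z S' ≤ z S + ∑ S' ∈ T, z S' := by
      by_cases hST : S ∈ T
      · rw [Finset.insert_eq_of_mem hST]
        linarith [hz S]
      · rw [Finset.sum_insert hST]
    have h3 : z S ≤ (s : ℝ) / r * F := by
      rw [div_mul_eq_mul_div, le_div_iff₀ hr0]
      exact hSle
    have h4 := hTle.trans (mul_le_mul_of_nonneg_left hrest (hg0 _ hlt))
    have h5 := mul_le_mul_of_nonneg_right (hineq (r - s) hlt) hF0
    have h6 : ((r : ℝ) - ((r - s : ℕ) : ℝ)) / r = s / r := by
      rw [Nat.cast_sub hsr]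
      ring
    rw [h6] at h5
    linarith

theorem quad_aux {A g κ w : ℝ} (hA : 0 ≤ A) (hg : 0 ≤ g) (hκ : 0 ≤ κ)
    (h : A + κ * g - w ≤ 0 ∨ (A + κ * g - w) ^ 2 ≤ 4 * A * g * κ) (x : ℝ) (hx : 0 < x) :
    (A * x - κ) * (1 - g * x) ≤ x * w := by
  have hAg : 0 ≤ A * g := mul_nonneg hA hg
  rcases h with h | h
  · have h1 : 0 ≤ A * g * x ^ 2 := by positivity
    have h2 : (A + κ * g - w) * x ≤ 0 := mul_nonpos_of_nonpos_of_nonneg h hx.le
    nlinarith
  · rcases hAg.lt_or_eq with h0 | h0
    · have h1 : 0 ≤ (2 * (A * g) * x - (A + κ * g - w)) ^ 2 := sq_nonneg _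
      have h2 : 0 ≤ 4 * (A * g) * (A * g * x ^ 2 - (A + κ * g - w) * x + κ) := by nlinarith
      have h3 : 0 ≤ A * g * x ^ 2 - (A + κ * g - w) * x + κ := by
        by_contra hneg
        push Not at hneg
        have := mul_neg_of_pos_of_neg (by linarith : 0 < 4 * (A * g)) hneg
        linarith
      nlinarith
    · have h1 : (A + κ * g - w) ^ 2 ≤ 0 := by
        have : 4 * A * g * κ = 0 := by
          rw [mul_assoc 4 A g, ← h0]; ring
        linarith
      have h2 : A + κ * g - w = 0 := by
        have := sq_nonneg (A + κ * g - w)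
        exact pow_eq_zero_iff (two_ne_zero) |>.1 (le_antisymm h1 this)
      have h3 : A * g * x ^ 2 = 0 := by rw [← h0]; ring
      nlinarith

/-- Table of bounds for small ground sets. -/
noncomputable def gtab (n : ℕ) : ℝ :=
  if n = 0 then 0 else if n = 1 then 1 else if n = 2 then 1 else if n = 3 then 4 / 3 else
  if n = 4 then 3 / 2 else if n = 5 then 8 / 5 else if n = 6 then 5 / 3 else
  if n = 7 then 347 / 200 else if n = 8 then 363 / 200 else if n = 9 then 189 / 100 else
  if n = 10 then 781 / 400 else if n = 11 then 801 / 400 else if n = 12 then 821 / 400 else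
  837 / 400

theorem gapOn_table_step {r : ℕ} (hr : 7 ≤ r) (hg : ∀ r' < r, GapOn r' (gtab r'))
    (hg0 : ∀ r' < r, 0 ≤ gtab r')
    (hgv : ∀ r' < r, gtab r' < gtab r) (β κ : ℝ) (hκ : 0 ≤ κ) (hβ : 0 ≤ β)
    (hβκ : 1 ≤ (β - κ) * r)
    (hineq : ∀ s : ℕ, 1 ≤ s → s < r →
      β * s + κ * gtab (r - s) - (gtab r - gtab (r - s)) ≤ 0 ∨
      (β * s + κ * gtab (r - s) - (gtab r - gtab (r - s))) ^ 2 ≤
        4 * (β * s) * gtab (r - s) * κ) :
    GapOn r (gtab r) := by
  refine gapOn_step (by omega) ?_ gtab hg hg0 hgv hκ hβ hβκ ?_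
  · have h1 := hgv 1 (by omega)
    have h2 : gtab 1 = 1 := by simp [gtab]
    linarith
  · intro s hs1 hs2 x hx
    exact quad_aux (mul_nonneg hβ (Nat.cast_nonneg s)) (hg0 _ (by omega)) hκ (hineq s hs1 hs2) x hx

theorem gapOn_table_six : ∀ r < 7, GapOn r (gtab r) := by
  intro r hr
  interval_cases r
  · simpa [gtab] using gapOn_zero
  · simpa [gtab] using gapOn_one
  · simpa [gtab] using gapOn_two
  · simpa [gtab] using gapOn_three
  · simpa [gtab] using gapOn_four
  · simpa [gtab] using gapOn_five
  · simpa [gtab] using gapOn_six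

theorem gapOn_table_seven : ∀ r < 8, GapOn r (gtab r) := by
  intro r hr
  rcases Nat.lt_succ_iff_lt_or_eq.1 hr with h | rfl
  · exact gapOn_table_six r h
  · refine gapOn_table_step (by norm_num) gapOn_table_six ?_ ?_ (137 / 700)
      (37 / 700) (by norm_num) (by norm_num) (by norm_num) ?_
    · intro r' hr'
      interval_cases r' <;> norm_num [gtab]
    · intro r' hr'
      interval_cases r' <;> norm_num [gtab]
    · intro s hs1 hs2
      interval_cases s <;> norm_num [gtab]

theorem gapOn_table_eight : ∀ r < 9, GapOn r (gtab r) := by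
  intro r hr
  rcases Nat.lt_succ_iff_lt_or_eq.1 hr with h | rfl
  · exact gapOn_table_seven r h
  · refine gapOn_table_step (by norm_num) gapOn_table_seven ?_ ?_ (721 / 4000)
      (221 / 4000) (by norm_num) (by norm_num) (by norm_num) ?_
    · intro r' hr'
      interval_cases r' <;> norm_num [gtab]
    · intro r' hr'
      interval_cases r' <;> norm_num [gtab]
    · intro s hs1 hs2
      interval_cases s <;> norm_num [gtab]

theorem gapOn_table_nine : ∀ r < 10, GapOn r (gtab r) := by
  intro r hr
  rcases Nat.lt_succ_iff_lt_or_eq.1 hr with h | rfl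
  · exact gapOn_table_eight r h
  · refine gapOn_table_step (by norm_num) gapOn_table_eight ?_ ?_ (1351 / 9000)
      (39 / 1000) (by norm_num) (by norm_num) (by norm_num) ?_
    · intro r' hr'
      interval_cases r' <;> norm_num [gtab]
    · intro r' hr'
      interval_cases r' <;> norm_num [gtab]
    · intro s hs1 hs2
      interval_cases s <;> norm_num [gtab]

theorem gapOn_table_ten : ∀ r < 11, GapOn r (gtab r) := by
  intro r hr
  rcases Nat.lt_succ_iff_lt_or_eq.1 hr with h | rfl
  · exact gapOn_table_nine r h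
  · refine gapOn_table_step (by norm_num) gapOn_table_nine ?_ ?_ (1243 / 10000)
      (243 / 10000) (by norm_num) (by norm_num) (by norm_num) ?_
    · intro r' hr'
      interval_cases r' <;> norm_num [gtab]
    · intro r' hr'
      interval_cases r' <;> norm_num [gtab]
    · intro s hs1 hs2
      interval_cases s <;> norm_num [gtab]

theorem gapOn_table_eleven : ∀ r < 12, GapOn r (gtab r) := by
  intro r hr
  rcases Nat.lt_succ_iff_lt_or_eq.1 hr with h | rfl
  · exact gapOn_table_ten r h
  · refine gapOn_table_step (by norm_num) gapOn_table_ten ?_ ?_ (1263 / 11000)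
      (263 / 11000) (by norm_num) (by norm_num) (by norm_num) ?_
    · intro r' hr'
      interval_cases r' <;> norm_num [gtab]
    · intro r' hr'
      interval_cases r' <;> norm_num [gtab]
    · intro s hs1 hs2
      interval_cases s <;> norm_num [gtab]

theorem gapOn_table_twelve : ∀ r < 13, GapOn r (gtab r) := by
  intro r hr
  rcases Nat.lt_succ_iff_lt_or_eq.1 hr with h | rfl
  · exact gapOn_table_eleven r h
  · refine gapOn_table_step (by norm_num) gapOn_table_eleven ?_ ?_ (1213 / 12000)
      (71 / 4000) (by norm_num) (by norm_num) (by norm_num) ?_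
    · intro r' hr'
      interval_cases r' <;> norm_num [gtab]
    · intro r' hr'
      interval_cases r' <;> norm_num [gtab]
    · intro s hs1 hs2
      interval_cases s <;> norm_num [gtab]

theorem gapOn_table_thirteen : ∀ r < 14, GapOn r (gtab r) := by
  intro r hr
  rcases Nat.lt_succ_iff_lt_or_eq.1 hr with h | rfl
  · exact gapOn_table_twelve r h
  · refine gapOn_table_step (by norm_num) gapOn_table_twelve ?_ ?_ (1229 / 13000)
      (229 / 13000) (by norm_num) (by norm_num) (by norm_num) ?_
    · intro r' hr'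
      interval_cases r' <;> norm_num [gtab]
    · intro r' hr'
      interval_cases r' <;> norm_num [gtab]
    · intro s hs1 hs2
      interval_cases s <;> norm_num [gtab]

theorem harmonic_step {a b : ℕ} (hab : a ≤ b) :
    ((b : ℝ) - a) / b ≤ (harmonic b : ℝ) - (harmonic a : ℝ) := by
  induction b, hab using Nat.le_induction with
  | base => simp
  | succ n hn ih =>
    rcases Nat.eq_zero_or_pos n with h0 | h0
    · subst h0
      have : a = 0 := by omega
      subst this
      simp [harmonic]
    · have hn0 : (0 : ℝ) < n := by exact_mod_cast h0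
      have han : (a : ℝ) ≤ n := by exact_mod_cast hn
      rw [harmonic_succ]
      push_cast
      have h1 : ((n : ℝ) + 1 - a) / (n + 1) ≤ (n - a) / n + ((n : ℝ) + 1)⁻¹ := by
        rw [div_le_iff₀ (by positivity)]
        have h2 : ((n - a) / n + ((n : ℝ) + 1)⁻¹) * (n + 1) = (n - a) / n * (n + 1) + 1 := by
          field_simp
        rw [h2]
        have h3 : (n : ℝ) - a ≤ (n - a) / n * (n + 1) := by
          rw [div_mul_eq_mul_div, le_div_iff₀ hn0]
          nlinarith
        linarith
      linarith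

theorem harmonic_step' {a b₀ b : ℕ} (hab : a ≤ b₀) (hb : b₀ ≤ b) (hb₀ : 1 ≤ b₀) :
    (harmonic b₀ : ℝ) - (harmonic a : ℝ) - ((b₀ : ℝ) - a) / b₀ ≤
      (harmonic b : ℝ) - (harmonic a : ℝ) - ((b : ℝ) - a) / b := by
  induction b, hb using Nat.le_induction with
  | base => exact le_rfl
  | succ n hn ih =>
    refine ih.trans ?_
    have hn0 : (0 : ℝ) < n := by
      have : 1 ≤ n := le_trans hb₀ hn
      exact_mod_cast this
    have han : (a : ℝ) ≤ n := by exact_mod_cast le_trans hab hn
    rw [harmonic_succ]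
    push_cast
    have h1 : ((n : ℝ) + 1 - a) / (n + 1) ≤ (n - a) / n + ((n : ℝ) + 1)⁻¹ := by
      rw [div_le_iff₀ (by positivity)]
      have h2 : ((n - a) / n + ((n : ℝ) + 1)⁻¹) * (n + 1) = (n - a) / n * (n + 1) + 1 := by
        field_simp
      rw [h2]
      have h3 : (n : ℝ) - a ≤ (n - a) / n * (n + 1) := by
        rw [div_mul_eq_mul_div, le_div_iff₀ hn0]
        nlinarith
      linarith
    linarith

/-- For `r ≥ 11` the integrality gap is at most `1/2 + 1/3 + ... + 1/r`. -/
theorem gapOn_harmonic : ∀ r : ℕ, 11 ≤ r → GapOn r ((harmonic r : ℝ) - 1) := by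
  intro r
  induction r using Nat.strong_induction_on with
  | _ r ih =>
    intro hr
    rcases lt_or_ge r 14 with h14 | h14
    · have h1 := gapOn_table_thirteen r h14
      refine h1.mono ?_
      interval_cases r <;> norm_num [gtab, harmonic, Finset.sum_range_succ]
    · have hr0 : (0 : ℝ) < r := by
        have : 1 ≤ r := by omega
        exact_mod_cast this
      refine gapOn_greedy (by omega)
        (fun n => if n ≤ 10 then gtab n else (harmonic n : ℝ) - 1) ?_ ?_ ?_
      · intro r' hr'
        split_ifs with h10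
        · exact gapOn_table_thirteen r' (by omega)
        · exact ih r' hr' (by omega)
      · intro r' hr'
        split_ifs with h10
        · interval_cases r' <;> norm_num [gtab]
        · have h1 := harmonic_step (a := 2) (b := r') (by omega)
          have h2 : ((harmonic 2 : ℚ) : ℝ) = 3 / 2 := by
            norm_num [harmonic, Finset.sum_range_succ]
          have h3 : 0 ≤ ((r' : ℝ) - (2 : ℕ)) / r' := by
            apply div_nonneg _ (Nat.cast_nonneg _)
            have : (2 : ℝ) ≤ r' := by
              have : 2 ≤ r' := by omega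
              exact_mod_cast this
            push_cast
            linarith
          linarith
      · intro r' hr'
        split_ifs with h10
        · have h1 := harmonic_step' (a := r') (b₀ := 14) (b := r) (by omega) h14 (by norm_num)
          have h2 : gtab r' - ((harmonic r' : ℝ) - 1) ≤
              (harmonic 14 : ℝ) - (harmonic r' : ℝ) - (((14 : ℕ) : ℝ) - r') / (14 : ℕ) := by
            interval_cases r' <;> norm_num [gtab, harmonic, Finset.sum_range_succ]
          linarith
        · have h1 := harmonic_step (a := r') (b := r) hr'.le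
          linarith

theorem setCoverGap_le_harmonic {m : ℕ} (hm : 11 ≤ m) :
    setCoverGap m ≤ (harmonic m : ℝ) - 1 := by
  have h := gapOn_harmonic m hm
  have h0 : 0 ≤ (harmonic m : ℝ) - 1 := by
    have h1 := harmonic_step (a := 1) (b := m) (by omega)
    have h2 : ((harmonic 1 : ℚ) : ℝ) = 1 := by
      norm_num [harmonic]
    have h3 : 0 ≤ ((m : ℝ) - (1 : ℕ)) / m := by
      apply div_nonneg _ (Nat.cast_nonneg _)
      have : (1 : ℝ) ≤ m := by
        have : 1 ≤ m := by omega
        exact_mod_cast this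
      push_cast
      linarith
    linarith
  exact csInf_le ⟨1, fun d hd => IsGapBound.one_le (by omega) hd⟩ (h.isGapBound h0)

end Pool.Agent.Lib.MP_46a7d5_co
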