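import Pool.Agent.Lib.MP_46a7d5_co.Defs

/-!
Lower bound: `ch(K_{m*k})` is at least about `k` times the integrality gap.
-/

set_option autoImplicit false

namespace Pool.Agent.Lib.MP_46a7d5_co

open Finset

/-- Choosability may be used with colours from any encodable type. -/
theorem Choosable.encodable {V : Type*} {G : SimpleGraph V} {s : ℕ} (h : Choosable G s)
    {κ : Type*} [Encodable κ] (L : V → Finset κ) (hL : ∀ v, (L v).card = s) :
    ∃ c : V → κ, (∀ v, c v ∈ L v) ∧ ∀ u v, G.Adj u v → c u ≠ c v := by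
  classical
  have hinj : Function.Injective (Encodable.encode : κ → ℕ) := Encodable.encode_injective
  obtain ⟨c, hc, hadj⟩ := h (fun v => (L v).image Encodable.encode) (by
    intro v
    rw [Finset.card_image_of_injective _ hinj, hL])
  have hc' : ∀ v, ∃ a ∈ L v, Encodable.encode a = c v := by
    intro v
    simpa using hc v
  choose c' h1 h2 using hc'
  refine ⟨c', h1, fun u v huv heq => hadj u v huv ?_⟩
  rw [← h2 u, ← h2 v, heq]

theorem sum_image_le_sum {α β : Type*} [DecidableEq β] (s : Finset α) (f : α → β) (g : β → ℝ)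
    (hg : ∀ b, 0 ≤ g b) : ∑ b ∈ s.image f, g b ≤ ∑ a ∈ s, g (f a) := by
  classical
  induction s using Finset.induction_on with
  | empty => simp
  | insert a s ha ih =>
    rw [Finset.image_insert, Finset.sum_insert ha]
    by_cases h : f a ∈ s.image f
    · rw [Finset.insert_eq_of_mem h]
      have := hg (f a)
      linarith
    · rw [Finset.sum_insert h]
      linarith

/-- The counting inequality behind the lower bound. -/
theorem lower_core {m k s : ℕ} {z x : Finset (Fin m) → ℝ} (hz : ∀ S, 0 ≤ z S)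
    (hx : IsFracCover x) {τ : ℝ}
    (hτ : ∀ T : Finset (Finset (Fin m)), IsCover T → τ ≤ ∑ S ∈ T, z S)
    (h : Choosable (balancedMultipartite m k) s) :
    (k : ℝ) * τ ≤ s * (∑ S, x S * z S) + ∑ S, z S := by
  classical
  let n : Finset (Fin m) → ℕ := fun S => ⌈(s : ℝ) * x S⌉₊
  have hn1 : ∀ S, (s : ℝ) * x S ≤ n S := fun S => Nat.le_ceil _
  have hn2 : ∀ S, (n S : ℝ) ≤ s * x S + 1 := fun S =>
    (Nat.ceil_lt_add_one (mul_nonneg (Nat.cast_nonneg _) (hx.1 S))).le
  let full : Fin m → Finset (Σ _ : Finset (Fin m), ℕ) := fun j =>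
    (univ.filter (fun S : Finset (Fin m) => j ∈ S)).sigma (fun S => range (n S))
  have hfull : ∀ j, s ≤ (full j).card := by
    intro j
    have h1 : ((full j).card : ℝ) = ∑ S : Finset (Fin m) with j ∈ S, (n S : ℝ) := by
      simp only [full, Finset.card_sigma, card_range, Nat.cast_sum]
    have h2 : (s : ℝ) ≤ (full j).card := by
      rw [h1]
      calc (s : ℝ) = s * 1 := by ring
        _ ≤ s * ∑ S : Finset (Fin m) with j ∈ S, x S :=
          mul_le_mul_of_nonneg_left (hx.2 j) (Nat.cast_nonneg _)
        _ = ∑ S : Finset (Fin m) with j ∈ S, s * x S := by rw [Finset.mul_sum]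
        _ ≤ _ := Finset.sum_le_sum (fun S _ => hn1 S)
    exact_mod_cast h2
  choose L hL1 hL2 using fun j => Finset.exists_subset_card_eq (hfull j)
  obtain ⟨c, hc, hadj⟩ := h.encodable (fun v => L v.2) (fun v => hL2 v.2)
  let used : Fin k → Finset (Σ _ : Finset (Fin m), ℕ) := fun i =>
    univ.image (fun j : Fin m => c ⟨i, j⟩)
  have hdisj : ∀ i ∈ (univ : Finset (Fin k)), ∀ i' ∈ (univ : Finset (Fin k)), i ≠ i' →
      Disjoint (used i) (used i') := by
    intro i _ i' _ hne
    rw [Finset.disjoint_left]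
    intro a ha hb
    simp only [used, mem_image, mem_univ, true_and] at ha hb
    obtain ⟨j, hj⟩ := ha
    obtain ⟨j', hj'⟩ := hb
    exact hadj ⟨i, j⟩ ⟨i', j'⟩ (by simpa using hne) (hj.trans hj'.symm)
  let C : Finset (Σ _ : Finset (Fin m), ℕ) := univ.sigma (fun S => range (n S))
  have hsub : univ.biUnion used ⊆ C := by
    intro a ha
    simp only [mem_biUnion, mem_univ, true_and, used, mem_image] at ha
    obtain ⟨i, j, rfl⟩ := ha
    have := hL1 j (hc ⟨i, j⟩)
    simp only [full, mem_sigma] at this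
    simp only [C, mem_sigma, mem_univ, true_and]
    exact this.2
  have hcov : ∀ i, τ ≤ ∑ a ∈ used i, z a.1 := by
    intro i
    refine le_trans (hτ ((used i).image Sigma.fst) ?_) (sum_image_le_sum _ _ _ hz)
    intro j
    refine ⟨(c ⟨i, j⟩).1, ?_, ?_⟩
    · refine mem_image_of_mem _ ?_
      simp only [used, mem_image, mem_univ, true_and]
      exact ⟨j, rfl⟩
    · have := hL1 j (hc ⟨i, j⟩)
      simp only [full, mem_sigma, mem_filter, mem_univ, true_and] at this
      exact this.1
  calc (k : ℝ) * τ = ∑ _i : Fin k, τ := by simp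
    _ ≤ ∑ i : Fin k, ∑ a ∈ used i, z a.1 := Finset.sum_le_sum (fun i _ => hcov i)
    _ = ∑ a ∈ univ.biUnion used, z a.1 := by
      rw [Finset.sum_biUnion]
      intro i hi i' hi' hne
      exact hdisj i hi i' hi' hne
    _ ≤ ∑ a ∈ C, z a.1 :=
      Finset.sum_le_sum_of_subset_of_nonneg hsub (fun a _ _ => hz a.1)
    _ = ∑ S, (n S : ℝ) * z S := by
      simp only [C]
      rw [Finset.sum_sigma]
      simp
    _ ≤ ∑ S, (s * x S + 1) * z S :=
      Finset.sum_le_sum (fun S _ => mul_le_mul_of_nonneg_right (hn2 S) (hz S))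
    _ = s * (∑ S, x S * z S) + ∑ S, z S := by
      rw [Finset.mul_sum, ← Finset.sum_add_distrib]
      refine Finset.sum_congr rfl (fun S _ => by ring)

theorem IsGapBound.one_le {m : ℕ} (hm : 1 ≤ m) {c : ℝ} (h : IsGapBound m c) : 1 ≤ c := by
  classical
  obtain ⟨T, hT, hle⟩ := h (fun _ => 1) (fun _ => zero_le_one)
    (fun S => if S = univ then 1 else 0)
    ⟨fun S => by dsimp only; split_ifs <;> norm_num, fun j => by
      rw [Finset.sum_eq_single_of_mem (univ : Finset (Fin m))] <;> simp⟩
  obtain ⟨S, hS, -⟩ := hT ⟨0, hm⟩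
  have h1 : (1 : ℝ) ≤ ∑ S ∈ T, (1 : ℝ) := by
    have : 1 ≤ T.card := Finset.card_pos.2 ⟨S, hS⟩
    simpa using (by exact_mod_cast this : (1 : ℝ) ≤ T.card)
  have h2 : (c : ℝ) * ∑ S : Finset (Fin m), (if S = univ then (1 : ℝ) else 0) * 1 = c := by
    simp
  linarith

/-- If `c` is not a bound for the integrality gap, then for all large `k` the graph `K_{m*k}` is
not `s`-choosable for any `s < c k`. -/
theorem lower_bound {m : ℕ} {c : ℝ} (hc : 0 ≤ c) (h : ¬ IsGapBound m c) :
    ∃ k₀ : ℕ, ∀ k : ℕ, k₀ ≤ k → ∀ s : ℕ, Choosable (balancedMultipartite m k) s →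
      c * k ≤ s := by
  classical
  unfold IsGapBound at h
  push Not at h
  obtain ⟨z, hz, x, hx, hT⟩ := h
  set F := ∑ S, x S * z S with hF
  set Z := ∑ S, z S with hZ
  -- minimum cost of a cover
  let covers : Finset (Finset (Finset (Fin m))) := univ.filter (fun T => IsCover T)
  have hne : covers.Nonempty := by
    refine ⟨univ, ?_⟩
    simp only [covers, mem_filter, mem_univ, true_and]
    intro j
    exact ⟨univ, mem_univ _, mem_univ _⟩
  obtain ⟨T₀, hT₀, hmin⟩ := Finset.exists_min_image covers (fun T => ∑ S ∈ T, z S) hne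
  simp only [covers, mem_filter, mem_univ, true_and] at hT₀ hmin
  set τ := ∑ S ∈ T₀, z S with hτ
  have hcF : c * F < τ := hT T₀ hT₀
  have hF0 : 0 < F := by
    have hnn : 0 ≤ F := Finset.sum_nonneg (fun S _ => mul_nonneg (hx.1 S) (hz S))
    rcases hnn.lt_or_eq with h | h
    · exact h
    · exfalso
      have hzero : ∀ S, x S * z S = 0 := by
        intro S
        have := (Finset.sum_eq_zero_iff_of_nonneg
          (fun S _ => mul_nonneg (hx.1 S) (hz S))).1 h.symm S (mem_univ S)
        exact this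
      have hcov : IsCover (univ.filter (fun S : Finset (Fin m) => x S ≠ 0)) := by
        intro j
        by_contra hcon
        push Not at hcon
        have h0 : ∑ S : Finset (Fin m) with j ∈ S, x S = 0 := by
          apply Finset.sum_eq_zero
          intro S hS
          by_contra hxS
          exact hcon S (by simp [hxS]) (by simpa using hS)
        have := hx.2 j
        linarith
      have h1 := hT _ hcov
      have h2 : ∑ S ∈ univ.filter (fun S : Finset (Fin m) => x S ≠ 0), z S = 0 := by
        apply Finset.sum_eq_zero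
        intro S hS
        simp only [mem_filter, mem_univ, true_and] at hS
        exact (mul_eq_zero.1 (hzero S)).resolve_left hS
      rw [h2, ← h, mul_zero] at h1
      exact lt_irrefl _ h1
  have hZ0 : 0 ≤ Z := Finset.sum_nonneg (fun S _ => hz S)
  obtain ⟨k₀, hk₀⟩ := exists_nat_gt (Z / (τ - c * F))
  refine ⟨k₀, fun k hk s hs => ?_⟩
  by_contra hlt
  push Not at hlt
  have hcore := lower_core hz hx hmin hs

  have h1 : (s : ℝ) * F ≤ c * k * F := mul_le_mul_of_nonneg_right hlt.le hF0.le
  have h2 : Z < (τ - c * F) * k := by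
    have hpos : 0 < τ - c * F := by linarith
    have : Z / (τ - c * F) < k := lt_of_lt_of_le hk₀ (by exact_mod_cast hk)
    rw [div_lt_iff₀ hpos] at this
    linarith
  nlinarith

end Pool.Agent.Lib.MP_46a7d5_co
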