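import Pool.Agent.Lib.MP_46a7d5_co.MultiScale

/-!
Asymptotic lower bound for the integrality gap of weighted set cover on `m` elements:
`log m - 2 log log m - log log log m - 5`, by a counting argument.
-/

set_option autoImplicit false

namespace Pool.Agent.Lib.MP_46a7d5_co

open Finset Filter

theorem exists_omega {m N a k : ℕ}
    (h : N.choose k * (N.choose a - (N - k).choose a) ^ m < N.choose a ^ m) :
    ∃ ω : Fin m → Finset (Fin N), (∀ j, (ω j).card = a) ∧
      ∀ T : Finset (Fin N), T.card = k → ∃ j, Disjoint (ω j) T := by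
  classical
  set Ω : Finset (Fin m → Finset (Fin N)) :=
    Fintype.piFinset (fun _ : Fin m => powersetCard a (univ : Finset (Fin N))) with hΩ
  let bad : Finset (Fin N) → Finset (Fin m → Finset (Fin N)) := fun T =>
    Fintype.piFinset (fun _ : Fin m =>
      (powersetCard a (univ : Finset (Fin N))).filter (fun A => ¬ Disjoint A T))
  have hΩcard : Ω.card = N.choose a ^ m := by
    rw [hΩ, Fintype.card_piFinset]
    simp
  have hbad : ∀ T ∈ powersetCard k (univ : Finset (Fin N)),
      (bad T).card = (N.choose a - (N - k).choose a) ^ m := by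
    intro T hT
    rw [Finset.mem_powersetCard] at hT
    have h1 : ((powersetCard a (univ : Finset (Fin N))).filter (fun A => Disjoint A T)) =
        powersetCard a (univ \ T) := by
      ext A
      simp only [mem_filter, mem_powersetCard, subset_univ, true_and]
      constructor
      · rintro ⟨h2, h3⟩
        refine ⟨fun i hi => ?_, h2⟩
        rw [Finset.mem_sdiff]
        exact ⟨mem_univ _, Finset.disjoint_left.1 h3 hi⟩
      · rintro ⟨h2, h3⟩
        refine ⟨h3, Finset.disjoint_left.2 (fun i hi => ?_)⟩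
        exact (Finset.mem_sdiff.1 (h2 hi)).2
    have h2 : ((powersetCard a (univ : Finset (Fin N))).filter (fun A => Disjoint A T)).card =
        (N - k).choose a := by
      rw [h1, Finset.card_powersetCard, Finset.card_sdiff_of_subset (Finset.subset_univ _), hT.2]
      simp
    have h3 := Finset.card_filter_add_card_filter_not
      (s := powersetCard a (univ : Finset (Fin N))) (fun A => Disjoint A T)
    rw [h2, Finset.card_powersetCard, Finset.card_univ, Fintype.card_fin] at h3
    simp only [bad, Fintype.card_piFinset, Finset.prod_const, Finset.card_univ, Fintype.card_fin]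
    congr 1
    omega
  have hlt : ((powersetCard k (univ : Finset (Fin N))).biUnion bad).card < Ω.card := by
    calc ((powersetCard k (univ : Finset (Fin N))).biUnion bad).card
        ≤ ∑ T ∈ powersetCard k (univ : Finset (Fin N)), (bad T).card := Finset.card_biUnion_le
      _ = N.choose k * (N.choose a - (N - k).choose a) ^ m := by
          rw [Finset.sum_congr rfl hbad, Finset.sum_const, Finset.card_powersetCard, smul_eq_mul]
          simp
      _ < N.choose a ^ m := h
      _ = Ω.card := hΩcard.symm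
  obtain ⟨ω, hω, hω'⟩ := Finset.exists_mem_notMem_of_card_lt_card hlt
  rw [hΩ, Fintype.mem_piFinset] at hω
  refine ⟨ω, fun j => (Finset.mem_powersetCard.1 (hω j)).2, ?_⟩
  intro T hT
  by_contra hcon
  push Not at hcon
  apply hω'
  rw [Finset.mem_biUnion]
  refine ⟨T, Finset.mem_powersetCard.2 ⟨Finset.subset_univ _, hT⟩, ?_⟩
  simp only [bad, Fintype.mem_piFinset, mem_filter]
  exact fun j => ⟨hω j, hcon j⟩

theorem gap_ge_of_omega {m N a k L : ℕ} (ha : 0 < a) (hN0 : 0 < N) (hN : N = a * L) (hk : k ≤ N)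
    (ω : Fin m → Finset (Fin N)) (hω : ∀ j, (ω j).card = a)
    (hdisj : ∀ T : Finset (Fin N), T.card = k → ∃ j, Disjoint (ω j) T)
    {c : ℝ} (hgap : IsGapBound m c) : (k + 1 : ℝ) ≤ c * L := by
  classical
  have ha0 : (0 : ℝ) < a := by exact_mod_cast ha
  obtain ⟨S, hS⟩ : ∃ S : Fin N → Finset (Fin m), S = fun i => univ.filter (fun j => i ∈ ω j) :=
    ⟨_, rfl⟩
  have hmem : ∀ i j, j ∈ S i ↔ i ∈ ω j := by
    intro i j
    rw [hS]
    simp
  obtain ⟨x, hx⟩ : ∃ x : Finset (Fin m) → ℝ,
    x = fun S' => ((univ.filter (fun i => S i = S')).card : ℝ) / a := ⟨_, rfl⟩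
  obtain ⟨z, hz⟩ : ∃ z : Finset (Fin m) → ℝ,
    z = fun S' => if ∃ i, S i = S' then 1 else (k + 1 : ℝ) := ⟨_, rfl⟩
  have hz1 : ∀ S', 1 ≤ z S' := by
    intro S'
    rw [hz]
    dsimp only
    split_ifs
    · exact le_rfl
    · have : (0 : ℝ) ≤ k := Nat.cast_nonneg k
      linarith
  have hxcover : IsFracCover x := by
    refine ⟨fun S' => ?_, fun j => ?_⟩
    · rw [hx]
      positivity
    · have h1 : ∑ S' : Finset (Fin m) with j ∈ S', x S' =
          ((univ.filter (fun i => j ∈ S i)).card : ℝ) / a := by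
        rw [hx]
        dsimp only
        rw [← Finset.sum_div]
        congr 1
        rw [Finset.card_eq_sum_card_fiberwise (s := univ.filter (fun i => j ∈ S i))
          (t := univ.filter (fun S' : Finset (Fin m) => j ∈ S')) (f := S)
          (fun i hi => by simpa using hi)]
        push_cast
        refine Finset.sum_congr rfl (fun S' hS' => ?_)
        congr 2
        ext i
        simp only [mem_filter, mem_univ, true_and] at hS' ⊢
        constructor
        · intro h
          exact ⟨h ▸ hS', h⟩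
        · exact fun h => h.2
      have h2 : univ.filter (fun i => j ∈ S i) = ω j := by
        ext i
        simp [hmem]
      rw [h1, h2, hω j, div_self ha0.ne']
  have hF : ∑ S', x S' * z S' = L := by
    have h1 : ∀ S', x S' * z S' = ((univ.filter (fun i => S i = S')).card : ℝ) / a := by
      intro S'
      rw [hx, hz]
      dsimp only
      split_ifs with h
      · rw [mul_one]
      · have : univ.filter (fun i => S i = S') = ∅ := by
          rw [Finset.filter_eq_empty_iff]
          intro i _ hi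
          exact h ⟨i, hi⟩
        rw [this]
        simp
    rw [Finset.sum_congr rfl (fun S' _ => h1 S'), ← Finset.sum_div, ← Nat.cast_sum,
      ← Finset.card_eq_sum_card_fiberwise (s := (univ : Finset (Fin N)))
        (t := (univ : Finset (Finset (Fin m)))) (f := S) (fun i _ => by simp)]
    rw [Finset.card_univ, Fintype.card_fin, hN]
    push_cast
    field_simp
  obtain ⟨T, hT, hle⟩ := hgap z (fun S' => zero_le_one.trans (hz1 S')) x hxcover
  rw [hF] at hle
  refine le_trans ?_ hle
  by_cases hrange : ∀ S' ∈ T, ∃ i, S i = S'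
  · have hcard : k + 1 ≤ T.card := by
      by_contra hcon
      push Not at hcon
      haveI : Nonempty (Fin N) := ⟨⟨0, hN0⟩⟩
      choose! p hp using hrange
      have h1 : (T.image p).card ≤ k := Finset.card_image_le.trans (by omega)
      obtain ⟨T'', hT'', hcard''⟩ := Finset.exists_superset_card_eq h1
        (by rw [Fintype.card_fin]; exact hk)
      obtain ⟨j, hj⟩ := hdisj T'' hcard''
      obtain ⟨S', hS', hjS'⟩ := hT j
      have h2 : p S' ∈ ω j := by
        rw [← hmem, hp S' hS']
        exact hjS'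
      exact Finset.disjoint_left.1 hj h2 (hT'' (Finset.mem_image_of_mem _ hS'))
    calc (k + 1 : ℝ) ≤ T.card := by exact_mod_cast hcard
      _ = ∑ _S' ∈ T, (1 : ℝ) := by simp
      _ ≤ ∑ S' ∈ T, z S' := Finset.sum_le_sum (fun S' _ => hz1 S')
  · push Not at hrange
    obtain ⟨S', hS', hS'2⟩ := hrange
    have h1 : z S' = k + 1 := by
      rw [hz]
      dsimp only
      rw [if_neg (by push Not; exact hS'2)]
    rw [← h1]
    exact Finset.single_le_sum (fun S'' _ => zero_le_one.trans (hz1 S'')) hS'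

theorem descFactorial_ratio {N k a : ℕ} (hka : k + a ≤ N) : ∀ b, b ≤ a →
    N.descFactorial b * (N - a - k) ^ b ≤ (N - k).descFactorial b * (N - a) ^ b := by
  intro b
  induction b with
  | zero => intro _; simp
  | succ b ih =>
    intro hb
    rw [Nat.descFactorial_succ, Nat.descFactorial_succ, pow_succ, pow_succ]
    have h1 := ih (by omega)
    have h2 : (N - b) * (N - a - k) ≤ (N - k - b) * (N - a) := by
      obtain ⟨d, hd⟩ : ∃ d, a = b + d := ⟨a - b, by omega⟩
      obtain ⟨e, he⟩ : ∃ e, N = k + a + e := ⟨N - (k + a), by omega⟩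
      have e1 : N - b = k + d + e := by omega
      have e2 : N - a - k = e := by omega
      have e3 : N - k - b = d + e := by omega
      have e4 : N - a = k + e := by omega
      rw [e1, e2, e3, e4]
      nlinarith [Nat.zero_le (d * k)]
    calc (N - b) * N.descFactorial b * ((N - a - k) ^ b * (N - a - k))
        = (N.descFactorial b * (N - a - k) ^ b) * ((N - b) * (N - a - k)) := by ring
      _ ≤ ((N - k).descFactorial b * (N - a) ^ b) * ((N - k - b) * (N - a)) :=
          Nat.mul_le_mul h1 h2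
      _ = (N - k - b) * (N - k).descFactorial b * ((N - a) ^ b * (N - a)) := by ring

theorem choose_ratio {N k a : ℕ} (hka : k + a < N) :
    (N.choose a : ℝ) * Real.exp (-((a : ℝ) * k / (N - a - k))) ≤ ((N - k).choose a : ℝ) := by
  have hpos : (0 : ℝ) < (N : ℝ) - a - k := by
    have : ((k + a : ℕ) : ℝ) < N := by exact_mod_cast hka
    push_cast at this
    linarith
  have hk0 : (0 : ℝ) ≤ k := Nat.cast_nonneg k
  have hNa : (0 : ℝ) < (N : ℝ) - a := by linarith
  have h1 := descFactorial_ratio (N := N) (k := k) (a := a) hka.le a le_rfl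
  rw [Nat.descFactorial_eq_factorial_mul_choose, Nat.descFactorial_eq_factorial_mul_choose,
    mul_assoc, mul_assoc] at h1
  have h2 := Nat.le_of_mul_le_mul_left h1 (Nat.factorial_pos a)
  have h3 : (N.choose a : ℝ) * ((N : ℝ) - a - k) ^ a ≤ ((N - k).choose a : ℝ) * ((N : ℝ) - a) ^ a := by
    have h4 : ((N.choose a * (N - a - k) ^ a : ℕ) : ℝ) ≤ (((N - k).choose a * (N - a) ^ a : ℕ) : ℝ) := by
      exact_mod_cast h2
    push_cast at h4
    rw [Nat.cast_sub (by omega), Nat.cast_sub (by omega)] at h4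
    exact h4
  have h5 : Real.exp (-((k : ℝ) / (N - a - k))) ≤ ((N : ℝ) - a - k) / (N - a) := by
    have h6 := Real.add_one_le_exp ((k : ℝ) / (N - a - k))
    have h7 : (k : ℝ) / (N - a - k) + 1 = (N - a) / (N - a - k) := by
      field_simp
      ring
    rw [h7] at h6
    rw [Real.exp_neg]
    rw [inv_le_comm₀ (Real.exp_pos _) (by positivity), inv_div]
    exact h6
  have h8 : Real.exp (-((a : ℝ) * k / (N - a - k))) ≤ (((N : ℝ) - a - k) / (N - a)) ^ a := by
    calc Real.exp (-((a : ℝ) * k / (N - a - k))) = (Real.exp (-((k : ℝ) / (N - a - k)))) ^ a := by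
          rw [← Real.exp_nat_mul]
          congr 1
          ring
      _ ≤ _ := pow_le_pow_left₀ (Real.exp_pos _).le h5 _
  calc (N.choose a : ℝ) * Real.exp (-((a : ℝ) * k / (N - a - k)))
      ≤ (N.choose a : ℝ) * (((N : ℝ) - a - k) / (N - a)) ^ a :=
        mul_le_mul_of_nonneg_left h8 (Nat.cast_nonneg _)
    _ = (N.choose a : ℝ) * ((N : ℝ) - a - k) ^ a / (N - a) ^ a := by
        rw [div_pow, mul_div_assoc]
    _ ≤ _ := by
        rw [div_le_iff₀ (by positivity)]
        exact h3

/-- The counting condition follows from a numerical inequality. -/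
theorem counting_cond {m N a k : ℕ} (hka : k + a < N) (ha : a ≤ N)
    (h : (k : ℝ) * Real.log N < m * Real.exp (-((a : ℝ) * k / (N - a - k)))) :
    N.choose k * (N.choose a - (N - k).choose a) ^ m < N.choose a ^ m := by
  have hCpos : (0 : ℝ) < N.choose a := by exact_mod_cast Nat.choose_pos ha
  have hN0 : (0 : ℝ) < N := by
    have : 0 < N := by omega
    exact_mod_cast this
  obtain ⟨ρ, hρ⟩ : ∃ ρ : ℝ, ρ = Real.exp (-((a : ℝ) * k / (N - a - k))) := ⟨_, rfl⟩
  have hρ0 : 0 < ρ := by rw [hρ]; exact Real.exp_pos _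
  have hr := choose_ratio hka
  rw [← hρ] at hr h
  have hle : ((N - k).choose a : ℝ) ≤ N.choose a := by
    exact_mod_cast Nat.choose_le_choose a (Nat.sub_le _ _)
  have hρ1 : ρ ≤ 1 := by
    by_contra hcon
    push Not at hcon
    have := mul_lt_mul_of_pos_left hcon hCpos
    linarith
  have h1 : ((N.choose a - (N - k).choose a : ℕ) : ℝ) ≤ N.choose a * (1 - ρ) := by
    rw [Nat.cast_sub (Nat.choose_le_choose a (Nat.sub_le _ _))]
    linarith
  have h2 : (1 - ρ) ^ m ≤ Real.exp (-(m * ρ)) := by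
    calc (1 - ρ) ^ m ≤ (Real.exp (-ρ)) ^ m := by
          refine pow_le_pow_left₀ (by linarith) ?_ _
          have := Real.add_one_le_exp (-ρ)
          linarith
      _ = Real.exp (-(m * ρ)) := by
          rw [← Real.exp_nat_mul]
          ring_nf
  have h3 : (N.choose k : ℝ) ≤ Real.exp (k * Real.log N) := by
    calc (N.choose k : ℝ) ≤ (N : ℝ) ^ k := by
          exact_mod_cast Nat.choose_le_pow N k
      _ = Real.exp (k * Real.log N) := by
          rw [Real.exp_nat_mul, Real.exp_log hN0]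
  have h4 : (N.choose k : ℝ) * ((N.choose a - (N - k).choose a : ℕ) : ℝ) ^ m <
      (N.choose a : ℝ) ^ m := by
    calc (N.choose k : ℝ) * ((N.choose a - (N - k).choose a : ℕ) : ℝ) ^ m
        ≤ Real.exp (k * Real.log N) * ((N.choose a : ℝ) * (1 - ρ)) ^ m := by
          refine mul_le_mul h3 (pow_le_pow_left₀ (Nat.cast_nonneg _) h1 _) (by positivity)
            (Real.exp_pos _).le
      _ = (N.choose a : ℝ) ^ m * (Real.exp (k * Real.log N) * (1 - ρ) ^ m) := by
          rw [mul_pow]; ring
      _ ≤ (N.choose a : ℝ) ^ m * (Real.exp (k * Real.log N) * Real.exp (-(m * ρ))) := by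
          refine mul_le_mul_of_nonneg_left ?_ (by positivity)
          exact mul_le_mul_of_nonneg_left h2 (Real.exp_pos _).le
      _ < (N.choose a : ℝ) ^ m * 1 := by
          refine mul_lt_mul_of_pos_left ?_ (by positivity)
          rw [← Real.exp_add, Real.exp_lt_one_iff]
          linarith
      _ = _ := mul_one _
  exact_mod_cast h4

/-- `log m - 2 log log m - log log log m - 5 ≤ c(m)` for `m ≥ 16`. -/
theorem log_le_setCoverGap {m : ℕ} (hm : 16 ≤ m) :
    Real.log m - 2 * Real.log (Real.log m) - Real.log (Real.log (Real.log m)) - 5 ≤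
      setCoverGap m := by
  have hm0 : (0 : ℝ) < m := by
    have : 0 < m := by omega
    exact_mod_cast this
  have hm16 : (16 : ℝ) ≤ m := by exact_mod_cast hm
  obtain ⟨L₀, hL₀⟩ : ∃ L₀ : ℝ, L₀ = Real.log m := ⟨_, rfl⟩
  have hL₀e : Real.exp 1 < L₀ := by
    have h1 : Real.log 16 ≤ L₀ := by
      rw [hL₀]
      exact Real.log_le_log (by norm_num) hm16
    have h2 : Real.log 16 = 4 * Real.log 2 := by
      rw [show (16 : ℝ) = 2 ^ 4 by norm_num, Real.log_pow]
      norm_num
    have h3 := Real.exp_one_lt_d9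
    have h4 := Real.log_two_gt_d9
    linarith
  have hL₀0 : 0 < L₀ := (Real.exp_pos _).trans hL₀e
  obtain ⟨ℓ, hℓ⟩ : ∃ ℓ : ℝ, ℓ = Real.log L₀ := ⟨_, rfl⟩
  have hℓ1 : 1 < ℓ := by
    rw [hℓ, Real.lt_log_iff_exp_lt hL₀0]
    exact hL₀e
  have hℓℓ : 0 < Real.log ℓ := Real.log_pos hℓ1
  obtain ⟨K, hK⟩ : ∃ K : ℝ, K = L₀ - 2 * ℓ - Real.log ℓ - 5 := ⟨_, rfl⟩
  rw [← hL₀, ← hℓ, ← hK]
  have hne : ({c : ℝ | IsGapBound m c}).Nonempty := ⟨_, isGapBound_scales one_pos⟩
  refine le_csInf hne (fun c hc => ?_)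
  have hc' : IsGapBound m c := hc
  rcases le_or_gt K 1 with hK1 | hK1
  · exact hK1.trans (hc'.one_le (by omega))
  · have hL₀8 : 8 < L₀ := by linarith
    obtain ⟨L, hL⟩ : ∃ L : ℕ, L = ⌈L₀⌉₊ := ⟨_, rfl⟩
    have hLge : L₀ ≤ L := by rw [hL]; exact Nat.le_ceil _
    have hLle : (L : ℝ) ≤ L₀ + 1 := by rw [hL]; exact (Nat.ceil_lt_add_one hL₀0.le).le
    have hL8 : (8 : ℝ) < L := by linarith
    have hL0 : (0 : ℝ) < L := by linarith
    obtain ⟨k, hk⟩ : ∃ k : ℕ, k = ⌊L * K⌋₊ := ⟨_, rfl⟩
    have hLK0 : 0 ≤ L * K := by positivity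
    have hkle : (k : ℝ) ≤ L * K := by rw [hk]; exact Nat.floor_le hLK0
    have hklt : L * K < k + 1 := by rw [hk]; exact Nat.lt_floor_add_one _
    have hKL : K ≤ L := by linarith
    have hkL2 : (k : ℝ) ≤ L * L := hkle.trans (mul_le_mul_of_nonneg_left hKL hL0.le)
    have hden : (0 : ℝ) < L ^ 5 - L ^ 4 - k := by
      have h1 : (L : ℝ) ^ 5 - L ^ 4 - L * L = L * L * (L ^ 2 * (L - 1) - 1) := by ring
      have h2 : 0 < L * L * (L ^ 2 * ((L : ℝ) - 1) - 1) := by
        have h3 : (1 : ℝ) ≤ L ^ 2 := by nlinarith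
        have h4 : 1 < L ^ 2 * ((L : ℝ) - 1) := by nlinarith
        have h5 : 0 < L ^ 2 * ((L : ℝ) - 1) - 1 := by linarith
        positivity
      linarith
    have hka : k + L ^ 4 < L ^ 5 := by
      have : ((k + L ^ 4 : ℕ) : ℝ) < ((L ^ 5 : ℕ) : ℝ) := by
        push_cast
        linarith
      exact_mod_cast this
    -- exponent
    have hexpo : (((L ^ 4 : ℕ) : ℝ) * k / (((L ^ 5 : ℕ) : ℝ) - ((L ^ 4 : ℕ) : ℝ) - k)) ≤ K + 2 := by
      push_cast
      rw [div_le_iff₀ hden]
      have h1 : (L : ℝ) ^ 4 * k ≤ L ^ 4 * (L * K) :=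
        mul_le_mul_of_nonneg_left hkle (by positivity)
      have h2 : (L : ℝ) ^ 5 - L ^ 4 - L * L ≤ L ^ 5 - L ^ 4 - k := by linarith
      have h3 : (K + 2) * ((L : ℝ) ^ 5 - L ^ 4 - L * L) ≤ (K + 2) * (L ^ 5 - L ^ 4 - k) :=
        mul_le_mul_of_nonneg_left h2 (by linarith)
      have h4 : (L : ℝ) ^ 4 * (L * K) ≤ (K + 2) * ((L : ℝ) ^ 5 - L ^ 4 - L * L) := by
        have h5 : (K + 2) * ((L : ℝ) ^ 5 - L ^ 4 - L * L) - L ^ 4 * (L * K) =
            L * L * (2 * L ^ 3 - 2 * L ^ 2 - 2 - K * (L ^ 2 + 1)) := by ring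
        have h6 : K * ((L : ℝ) ^ 2 + 1) ≤ L * (L ^ 2 + 1) :=
          mul_le_mul_of_nonneg_right hKL (by positivity)
        have h7 : 0 ≤ 2 * (L : ℝ) ^ 3 - 2 * L ^ 2 - 2 - L * (L ^ 2 + 1) := by
          have : 0 ≤ (L : ℝ) * ((L - 8) * (L + 6) + 47) - 2 := by nlinarith
          nlinarith
        have h8 : 0 ≤ L * L * (2 * (L : ℝ) ^ 3 - 2 * L ^ 2 - 2 - K * (L ^ 2 + 1)) := by
          have h9 : 0 ≤ 2 * (L : ℝ) ^ 3 - 2 * L ^ 2 - 2 - K * (L ^ 2 + 1) := by linarith
          positivity
        linarith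
      linarith
    have hcond : (k : ℝ) * Real.log ((L ^ 5 : ℕ) : ℝ) < m *
        Real.exp (-(((L ^ 4 : ℕ) : ℝ) * k / (((L ^ 5 : ℕ) : ℝ) - ((L ^ 4 : ℕ) : ℝ) - k))) := by
      have h1 : Real.exp (-(K + 2)) ≤
          Real.exp (-(((L ^ 4 : ℕ) : ℝ) * k / (((L ^ 5 : ℕ) : ℝ) - ((L ^ 4 : ℕ) : ℝ) - k))) :=
        Real.exp_le_exp.2 (neg_le_neg hexpo)
      have h2 : (m : ℝ) * Real.exp (-(K + 2)) = L₀ ^ 2 * ℓ * Real.exp 3 := by
        have h3 : Real.exp (-(K + 2)) = Real.exp (-L₀) * (Real.exp ℓ) ^ 2 *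
            Real.exp (Real.log ℓ) * Real.exp 3 := by
          rw [← Real.exp_nat_mul, ← Real.exp_add, ← Real.exp_add, ← Real.exp_add, hK]
          congr 1
          push_cast
          ring
        rw [h3, Real.exp_log (by linarith : 0 < ℓ), Real.exp_neg, hL₀, Real.exp_log hm0, ← hL₀,
          hℓ, Real.exp_log hL₀0]
        field_simp
      have h4 : Real.log ((L ^ 5 : ℕ) : ℝ) ≤ 10 * ℓ := by
        push_cast
        rw [Real.log_pow]
        have h5 : Real.log L ≤ Real.log (2 * L₀) := Real.log_le_log hL0 (by linarith)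
        rw [Real.log_mul (by norm_num) hL₀0.ne', ← hℓ] at h5
        have h6 := Real.log_two_lt_d9
        push_cast
        linarith
      have h7 : (k : ℝ) ≤ 2 * L₀ * L₀ := by
        calc (k : ℝ) ≤ L * K := hkle
          _ ≤ (2 * L₀) * L₀ := mul_le_mul (by linarith) (by linarith) (by linarith) (by linarith)
      have h8 : (20 : ℝ) < Real.exp 3 := by
        have h9 : Real.exp 3 = Real.exp 1 ^ 3 := by
          rw [← Real.exp_nat_mul]
          norm_num
        have h10 := Real.exp_one_gt_d9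
        rw [h9]
        calc (20 : ℝ) < (2.7182818283) ^ 3 := by norm_num
          _ ≤ Real.exp 1 ^ 3 := pow_le_pow_left₀ (by norm_num) h10.le 3
      have hlog0 : 0 ≤ Real.log ((L ^ 5 : ℕ) : ℝ) := Real.log_natCast_nonneg _
      calc (k : ℝ) * Real.log ((L ^ 5 : ℕ) : ℝ) ≤ (2 * L₀ * L₀) * (10 * ℓ) :=
            mul_le_mul h7 h4 hlog0 (by positivity)
        _ = L₀ ^ 2 * ℓ * 20 := by ring
        _ < L₀ ^ 2 * ℓ * Real.exp 3 := by
            refine mul_lt_mul_of_pos_left h8 ?_
            have : 0 < ℓ := by linarith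
            positivity
        _ = m * Real.exp (-(K + 2)) := h2.symm
        _ ≤ _ := mul_le_mul_of_nonneg_left h1 hm0.le
    have hcount := counting_cond (m := m) (N := L ^ 5) (a := L ^ 4) (k := k) hka (by omega) hcond
    obtain ⟨ω, hω, hdisj⟩ := exists_omega hcount
    have hLnat : 0 < L := by exact_mod_cast hL0
    have hfin := gap_ge_of_omega (L := L) (Nat.pow_pos hLnat) (Nat.pow_pos hLnat) (by ring) (by omega) ω hω
      hdisj hc'
    by_contra hcon
    push Not at hcon
    have := mul_lt_mul_of_pos_right hcon hL0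
    linarith

end Pool.Agent.Lib.MP_46a7d5_co
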