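import Pool.Agent.Lib.MP_46a7d5_co.Upper

/-!
The limit of `ch(K_{m*k}) / k` is the integrality gap of weighted set cover on `m` elements.
-/

set_option autoImplicit false

namespace Pool.Agent.Lib.MP_46a7d5_co

open Finset Filter

theorem exp_le_one_add {α : ℝ} (h0 : 0 ≤ α) : Real.exp (α * (1 - α)) ≤ 1 + α := by
  have h1 : 0 < 1 + α := by linarith
  have h2 : α * (1 - α) ≤ α / (1 + α) := by
    rw [le_div_iff₀ h1]
    have : 0 ≤ α ^ 3 := by positivity
    nlinarith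
  have h3 : (1 + α)⁻¹ ≤ Real.exp (-(α / (1 + α))) := by
    have h4 := Real.add_one_le_exp (-(α / (1 + α)))
    have h5 : (1 + α)⁻¹ = -(α / (1 + α)) + 1 := by
      field_simp
      ring
    linarith
  rw [Real.exp_neg] at h3
  have h6 : Real.exp (α / (1 + α)) ≤ 1 + α :=
    (inv_le_inv₀ h1 (Real.exp_pos _)).1 h3
  exact (Real.exp_le_exp.2 h2).trans h6

theorem upper_bound {m : ℕ} (hm : 1 ≤ m) {c : ℝ} (hgap : IsGapBound m c) {ε : ℝ} (hε : 0 < ε) :
    ∃ k₀ : ℕ, ∀ k : ℕ, k₀ ≤ k →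
      Choosable (balancedMultipartite m k) ⌈(c + ε) * k⌉₊ := by
  have hc1 : 1 ≤ c := hgap.one_le hm
  have hc0 : 0 ≤ c := by linarith
  obtain ⟨η, hη⟩ : ∃ η : ℝ, η = ε / (8 * 2 ^ m) := ⟨_, rfl⟩
  have hη0 : 0 < η := by rw [hη]; positivity
  obtain ⟨δ, hδ⟩ : ∃ δ : ℝ, δ = (ε / 2) / (c + ε / 2) := ⟨_, rfl⟩
  have hδ0 : 0 < δ := by rw [hδ]; positivity
  obtain ⟨a, ha⟩ : ∃ a : ℝ, a = η * δ ^ 2 / 4 := ⟨_, rfl⟩
  have ha0 : 0 < a := by rw [ha]; positivity
  obtain ⟨k₁, hk₁⟩ := exists_nat_gt (1 / η)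
  obtain ⟨k₂, hk₂⟩ := exists_nat_gt (6 * m * (c + ε + 1) / a ^ 3)
  refine ⟨max 1 (max k₁ k₂), fun k hk => ?_⟩
  have hk1 : 1 ≤ k := le_trans (le_max_left _ _) hk
  have hkk1 : (k₁ : ℝ) ≤ k := by
    exact_mod_cast le_trans (le_trans (le_max_left _ _) (le_max_right _ _)) hk
  have hkk2 : (k₂ : ℝ) ≤ k := by
    exact_mod_cast le_trans (le_trans (le_max_right _ _) (le_max_right _ _)) hk
  have hkR : (1 : ℝ) ≤ k := by exact_mod_cast hk1
  have hk0 : (0 : ℝ) < k := by linarith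
  have hηk : 1 ≤ η * k := by
    have h1 : 1 / η < k := lt_of_lt_of_le hk₁ hkk1
    rw [div_lt_iff₀ hη0] at h1
    linarith
  have hbig : m * (c + ε + 1) * k ^ 2 < (a * k) ^ 3 / 6 := by
    have h1 : 6 * m * (c + ε + 1) / a ^ 3 < k := lt_of_lt_of_le hk₂ hkk2
    rw [div_lt_iff₀ (by positivity)] at h1
    have h2 : 0 < (k : ℝ) ^ 2 := by positivity
    have h3 := mul_lt_mul_of_pos_right h1 h2
    nlinarith
  set s : ℕ := ⌈(c + ε) * k⌉₊ with hs
  set t : ℕ := ⌈η * k⌉₊ with ht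
  have hs1 : (c + ε) * k ≤ s := Nat.le_ceil _
  have hs2 : (s : ℝ) ≤ (c + ε + 1) * k := by
    have : (s : ℝ) < (c + ε) * k + 1 := Nat.ceil_lt_add_one (by positivity)
    nlinarith
  have ht1 : η * k ≤ t := Nat.le_ceil _
  have ht2 : (t : ℝ) ≤ 2 * (η * k) := by
    have : (t : ℝ) < η * k + 1 := Nat.ceil_lt_add_one (by positivity)
    linarith
  have ht0 : 0 < t := by
    have : (0 : ℝ) < t := by linarith
    exact_mod_cast this
  have h2m : (2 : ℝ) ^ m * t ≤ ε * k / 4 := by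
    calc (2 : ℝ) ^ m * t ≤ 2 ^ m * (2 * (η * k)) :=
          mul_le_mul_of_nonneg_left ht2 (by positivity)
      _ = ε * k / 4 := by
        rw [hη]
        field_simp
        ring
  have hD' : (c + ε / 2) * k ≤ (s : ℝ) - 2 ^ m * t := by
    have : 0 < ε * k := by positivity
    nlinarith
  have hcε : 0 < c + ε / 2 := by positivity
  have hD : 0 < (s : ℝ) - 2 ^ m * t := lt_of_lt_of_le (by positivity) hD'
  have hβ : (k : ℝ) * (t * (c / (s - 2 ^ m * t))) ≤ t * (1 - δ) := by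
    have h1 : c / ((s : ℝ) - 2 ^ m * t) ≤ c / ((c + ε / 2) * k) :=
      div_le_div_of_nonneg_left hc0 (by positivity) hD'
    have h2 : 1 - δ = c / (c + ε / 2) := by
      rw [hδ]
      field_simp
      ring
    calc (k : ℝ) * (t * (c / (s - 2 ^ m * t))) ≤ k * (t * (c / ((c + ε / 2) * k))) := by
          gcongr
      _ = t * (1 - δ) := by
        rw [h2]
        field_simp
  have hα0 : 0 ≤ δ / 2 := by positivity
  refine upper_core hc0 hgap ht0 hα0 hD ?_
  set β : ℝ := t * (c / (s - 2 ^ m * t)) with hβdef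
  have hβ0 : 0 ≤ β := by positivity
  have e1 : (1 + δ / 2 * β) ^ k ≤ Real.exp (δ / 2 * (t * (1 - δ))) := by
    calc (1 + δ / 2 * β) ^ k ≤ (Real.exp (δ / 2 * β)) ^ k := by
          refine pow_le_pow_left₀ (by positivity) ?_ _
          have := Real.add_one_le_exp (δ / 2 * β)
          linarith
      _ = Real.exp (δ / 2 * (k * β)) := by
          rw [← Real.exp_nat_mul]
          ring_nf
      _ ≤ _ := by
          refine Real.exp_le_exp.2 (mul_le_mul_of_nonneg_left hβ hα0)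
  have e2 : Real.exp (t * (δ / 2 * (1 - δ / 2))) ≤ (1 + δ / 2) ^ (t + 1) := by
    calc Real.exp (t * (δ / 2 * (1 - δ / 2))) = (Real.exp (δ / 2 * (1 - δ / 2))) ^ t := by
          rw [← Real.exp_nat_mul]
      _ ≤ (1 + δ / 2) ^ t := pow_le_pow_left₀ (Real.exp_pos _).le (exp_le_one_add hα0) _
      _ ≤ (1 + δ / 2) ^ (t + 1) := pow_le_pow_right₀ (by linarith) (Nat.le_succ _)
  have e3 : (k * m * s : ℝ) < Real.exp (t * (δ ^ 2 / 4)) := by
    calc (k * m * s : ℝ) ≤ k * m * ((c + ε + 1) * k) := by gcongr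
      _ = m * (c + ε + 1) * k ^ 2 := by ring
      _ < (a * k) ^ 3 / 6 := hbig
      _ ≤ Real.exp (a * k) := by
          have := Real.pow_div_factorial_le_exp (x := a * k) (by positivity) 3
          have h6 : ((Nat.factorial 3 : ℕ) : ℝ) = 6 := by norm_num [Nat.factorial]
          rw [h6] at this
          exact this
      _ ≤ Real.exp (t * (δ ^ 2 / 4)) := by
          refine Real.exp_le_exp.2 ?_
          rw [ha]
          calc η * δ ^ 2 / 4 * k = (η * k) * (δ ^ 2 / 4) := by ring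
            _ ≤ t * (δ ^ 2 / 4) := mul_le_mul_of_nonneg_right ht1 (by positivity)
  calc (k * m * s : ℝ) * (1 + δ / 2 * β) ^ k
      ≤ (k * m * s : ℝ) * Real.exp (δ / 2 * (t * (1 - δ))) := by gcongr
    _ < Real.exp (t * (δ ^ 2 / 4)) * Real.exp (δ / 2 * (t * (1 - δ))) :=
        mul_lt_mul_of_pos_right e3 (Real.exp_pos _)
    _ = Real.exp (t * (δ / 2 * (1 - δ / 2))) := by
        rw [← Real.exp_add]
        ring_nf
    _ ≤ _ := e2

/-- The number `m` is a bound for the integrality gap. -/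
theorem isGapBound_self (m : ℕ) : IsGapBound m m := by
  classical
  intro z hz x hx
  have h : ∀ j : Fin m, ∃ S : Finset (Fin m), j ∈ S ∧ z S ≤ ∑ S, x S * z S := by
    intro j
    by_contra hcon
    push Not at hcon
    have h1 : ∑ S : Finset (Fin m) with j ∈ S, x S * z S ≤ ∑ S, x S * z S :=
      Finset.sum_le_sum_of_subset_of_nonneg (Finset.filter_subset _ _)
        (fun S _ _ => mul_nonneg (hx.1 S) (hz S))
    have hne : ∃ S : Finset (Fin m), j ∈ S ∧ 0 < x S := by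
      by_contra hcon'
      push Not at hcon'
      have h0 : ∑ S : Finset (Fin m) with j ∈ S, x S ≤ 0 :=
        Finset.sum_nonpos (fun S hS => hcon' S (by simpa using hS))
      have := hx.2 j
      linarith
    set F := ∑ S, x S * z S with hF
    have hF0 : 0 ≤ F := Finset.sum_nonneg (fun S _ => mul_nonneg (hx.1 S) (hz S))
    have h2 : (∑ S : Finset (Fin m) with j ∈ S, x S) * F <
        ∑ S : Finset (Fin m) with j ∈ S, x S * z S := by
      rw [Finset.sum_mul]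
      obtain ⟨S₀, hjS₀, hxS₀⟩ := hne
      refine Finset.sum_lt_sum (fun S hS => ?_) ⟨S₀, by simpa using hjS₀, ?_⟩
      · exact mul_le_mul_of_nonneg_left (hcon S (by simpa using hS)).le (hx.1 S)
      · exact mul_lt_mul_of_pos_left (hcon S₀ hjS₀) hxS₀
    have h3 : F ≤ (∑ S : Finset (Fin m) with j ∈ S, x S) * F := by
      have := mul_le_mul_of_nonneg_right (hx.2 j) hF0
      linarith
    linarith
  choose S hjS hS using h
  refine ⟨univ.image S, fun j => ⟨S j, mem_image_of_mem _ (mem_univ _), hjS j⟩, ?_⟩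
  calc ∑ S' ∈ univ.image S, z S' ≤ ∑ j : Fin m, z (S j) := sum_image_le_sum _ _ _ hz
    _ ≤ ∑ _j : Fin m, ∑ S, x S * z S := Finset.sum_le_sum (fun j _ => hS j)
    _ = m * ∑ S, x S * z S := by simp

theorem IsGapBound.mono {m : ℕ} {c d : ℝ} (h : IsGapBound m c) (hcd : c ≤ d) :
    IsGapBound m d := by
  intro z hz x hx
  obtain ⟨T, hT, hle⟩ := h z hz x hx
  refine ⟨T, hT, hle.trans (mul_le_mul_of_nonneg_right hcd ?_)⟩
  exact Finset.sum_nonneg (fun S _ => mul_nonneg (hx.1 S) (hz S))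

theorem isGapBound_of_gt {m : ℕ} {c : ℝ} (h : setCoverGap m < c) : IsGapBound m c := by
  have hne : {c : ℝ | IsGapBound m c}.Nonempty := ⟨m, isGapBound_self m⟩
  obtain ⟨d, hd, hdc⟩ := exists_lt_of_csInf_lt hne h
  exact IsGapBound.mono hd hdc.le

theorem not_isGapBound_of_lt {m : ℕ} (hm : 1 ≤ m) {c : ℝ} (h : c < setCoverGap m) :
    ¬ IsGapBound m c := by
  intro hc
  have : setCoverGap m ≤ c := csInf_le ⟨1, fun d hd => IsGapBound.one_le hm hd⟩ hc
  linarith

/-- The limit of `ch(K_{m*k}) / k` is the integrality gap of weighted set cover on `m`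
elements. -/
theorem tendsto_choiceNumber {m : ℕ} (hm : 1 ≤ m) :
    Tendsto (fun k : ℕ => (choiceNumber (balancedMultipartite m k) : ℝ) / k) atTop
      (nhds (setCoverGap m)) := by
  rw [Metric.tendsto_atTop]
  intro ε hε
  have hg1 : 1 ≤ setCoverGap m :=
    le_csInf ⟨m, isGapBound_self m⟩ (fun d hd => IsGapBound.one_le hm hd)
  obtain ⟨c₁, hc₁⟩ : ∃ c₁ : ℝ, c₁ = setCoverGap m + ε / 4 := ⟨_, rfl⟩
  have hgap : IsGapBound m c₁ := isGapBound_of_gt (by linarith)
  obtain ⟨k₁, hk₁⟩ := upper_bound hm hgap (ε := ε / 4) (by linarith)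
  obtain ⟨c₂, hc₂⟩ : ∃ c₂ : ℝ, c₂ = max 0 (setCoverGap m - ε / 2) := ⟨_, rfl⟩
  have hc₂0 : 0 ≤ c₂ := by rw [hc₂]; exact le_max_left _ _
  have hc₂lt : c₂ < setCoverGap m := by
    rw [hc₂]
    exact max_lt (by linarith) (by linarith)
  obtain ⟨k₂, hk₂⟩ := lower_bound hc₂0 (not_isGapBound_of_lt hm hc₂lt)
  obtain ⟨k₃, hk₃⟩ := exists_nat_gt (4 / ε)
  refine ⟨max 1 (max k₁ (max k₂ k₃)), fun k hk => ?_⟩
  have h1 : 1 ≤ k := le_trans (le_max_left _ _) hk
  have h2 : k₁ ≤ k := le_trans (le_trans (le_max_left _ _) (le_max_right _ _)) hk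
  have h3 : k₂ ≤ k := le_trans (le_trans (le_trans (le_max_left _ _) (le_max_right _ _))
    (le_max_right _ _)) hk
  have h4 : k₃ ≤ k := le_trans (le_trans (le_trans (le_max_right _ _) (le_max_right _ _))
    (le_max_right _ _)) hk
  have hk0 : (0 : ℝ) < k := by
    have : (1 : ℝ) ≤ k := by exact_mod_cast h1
    linarith
  have hup := hk₁ k h2
  have hle : choiceNumber (balancedMultipartite m k) ≤ ⌈(c₁ + ε / 4) * k⌉₊ := Nat.sInf_le hup
  have hmem : Choosable (balancedMultipartite m k) (choiceNumber (balancedMultipartite m k)) :=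
    Nat.sInf_mem (s := {s | Choosable (balancedMultipartite m k) s}) ⟨_, hup⟩
  have hlow := hk₂ k h3 _ hmem
  have hk3' : 4 / ε < k := lt_of_lt_of_le hk₃ (by exact_mod_cast h4)
  rw [div_lt_iff₀ hε] at hk3'
  rw [Real.dist_eq, abs_lt]
  constructor
  · have : c₂ ≤ (choiceNumber (balancedMultipartite m k) : ℝ) / k := by
      rw [le_div_iff₀ hk0]
      exact hlow
    have h5 : setCoverGap m - ε / 2 ≤ c₂ := by rw [hc₂]; exact le_max_right _ _
    linarith
  · have h5 : ((⌈(c₁ + ε / 4) * k⌉₊ : ℕ) : ℝ) < (c₁ + ε / 4) * k + 1 :=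
      Nat.ceil_lt_add_one (by rw [hc₁]; positivity)
    have h6 : (choiceNumber (balancedMultipartite m k) : ℝ) ≤ ((⌈(c₁ + ε / 4) * k⌉₊ : ℕ) : ℝ) := by
      exact_mod_cast hle
    have h7 : (choiceNumber (balancedMultipartite m k) : ℝ) / k < setCoverGap m + ε := by
      rw [div_lt_iff₀ hk0]
      have h8 : (1 : ℝ) < ε / 4 * k := by linarith
      rw [hc₁] at h5 h6
      nlinarith
    linarith

end Pool.Agent.Lib.MP_46a7d5_co
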