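import Pool.Agent.Lib.MP_46a7d5_co.AsympUpper

/-!
Asymptotic upper bound for the integrality gap of weighted set cover on `m` elements:
`log m - log log m + O(1)`, by rounding at all cost scales at once.
-/

set_option autoImplicit false

namespace Pool.Agent.Lib.MP_46a7d5_co

open Finset Filter

/-- Rounding guarantee: for all nonnegative weights `w` some subfamily `A` of `E` has cost plus
weight of uncovered elements at most `c + ∑ w j * π j`. -/
def Rnd {m : ℕ} (z : Finset (Fin m) → ℝ) (E : Finset (Finset (Fin m))) (c : ℝ)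
    (π : Fin m → ℝ) : Prop :=
  ∀ w : Fin m → ℝ, (∀ j, 0 ≤ w j) → ∃ A ⊆ E,
    ∑ S ∈ A, z S + ∑ j, (if ∃ S ∈ A, j ∈ S then 0 else w j) ≤ c + ∑ j, w j * π j

theorem Rnd.mono {m : ℕ} {z : Finset (Fin m) → ℝ} {E : Finset (Finset (Fin m))} {c c' : ℝ}
    {π π' : Fin m → ℝ} (h : Rnd z E c π) (hc : c ≤ c') (hπ : ∀ j, π j ≤ π' j) :
    Rnd z E c' π' := by
  intro w hw
  obtain ⟨A, hA, hle⟩ := h w hw
  refine ⟨A, hA, hle.trans (add_le_add hc ?_)⟩
  exact Finset.sum_le_sum (fun j _ => mul_le_mul_of_nonneg_left (hπ j) (hw j))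

theorem Rnd.empty {m : ℕ} (z : Finset (Fin m) → ℝ) : Rnd z ∅ 0 (fun _ => 1) := by
  intro w _
  exact ⟨∅, by simp, by simp⟩

theorem Rnd.union {m : ℕ} {z : Finset (Fin m) → ℝ} (hz : ∀ S, 0 ≤ z S)
    {E₁ E₂ : Finset (Finset (Fin m))} {c₁ c₂ : ℝ} {π₁ π₂ : Fin m → ℝ}
    (hπ₂ : ∀ j, 0 ≤ π₂ j) (h₁ : Rnd z E₁ c₁ π₁) (h₂ : Rnd z E₂ c₂ π₂) :
    Rnd z (E₁ ∪ E₂) (c₁ + c₂) (fun j => π₁ j * π₂ j) := by
  classical
  intro w hw
  obtain ⟨A, hA, hAle⟩ := h₁ (fun j => w j * π₂ j) (fun j => mul_nonneg (hw j) (hπ₂ j))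
  obtain ⟨B, hB, hBle⟩ := h₂ (fun j => if ∃ S ∈ A, j ∈ S then 0 else w j) (fun j => by
    split_ifs
    · exact le_rfl
    · exact hw j)
  refine ⟨A ∪ B, Finset.union_subset_union hA hB, ?_⟩
  have h1 : ∑ S ∈ A ∪ B, z S ≤ ∑ S ∈ A, z S + ∑ S ∈ B, z S := by
    rw [← Finset.sum_union_inter]
    have : 0 ≤ ∑ S ∈ A ∩ B, z S := Finset.sum_nonneg (fun S _ => hz S)
    linarith
  have h2 : ∑ j, (if ∃ S ∈ A ∪ B, j ∈ S then 0 else w j) =
      ∑ j, (if ∃ S ∈ B, j ∈ S then 0 else if ∃ S ∈ A, j ∈ S then 0 else w j) := by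
    refine Finset.sum_congr rfl (fun j _ => ?_)
    have : (∃ S ∈ A ∪ B, j ∈ S) ↔ (∃ S ∈ B, j ∈ S) ∨ ∃ S ∈ A, j ∈ S := by
      constructor
      · rintro ⟨S, hS, hj⟩
        rcases Finset.mem_union.1 hS with h | h
        · exact Or.inr ⟨S, h, hj⟩
        · exact Or.inl ⟨S, h, hj⟩
      · rintro (⟨S, hS, hj⟩ | ⟨S, hS, hj⟩)
        · exact ⟨S, Finset.mem_union_right _ hS, hj⟩
        · exact ⟨S, Finset.mem_union_left _ hS, hj⟩
    by_cases hb : ∃ S ∈ B, j ∈ S
    · rw [if_pos (this.2 (Or.inl hb)), if_pos hb]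
    · by_cases ha : ∃ S ∈ A, j ∈ S
      · rw [if_pos (this.2 (Or.inr ha)), if_neg hb, if_pos ha]
      · rw [if_neg (fun h => (this.1 h).elim hb ha), if_neg hb, if_neg ha]
  have h3 : ∑ j, (if ∃ S ∈ A, j ∈ S then 0 else w j) * π₂ j =
      ∑ j, (if ∃ S ∈ A, j ∈ S then 0 else w j * π₂ j) := by
    refine Finset.sum_congr rfl (fun j _ => ?_)
    split_ifs
    · rw [zero_mul]
    · rfl
  have h4 : ∑ j, w j * (π₁ j * π₂ j) = ∑ j, w j * π₂ j * π₁ j :=
    Finset.sum_congr rfl (fun j _ => by ring)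
  rw [h2, h4]
  rw [h3] at hBle
  linarith

theorem Rnd.biUnion {m : ℕ} {z : Finset (Fin m) → ℝ} (hz : ∀ S, 0 ≤ z S)
    (I : Finset ℕ) (E : ℕ → Finset (Finset (Fin m))) (c : ℕ → ℝ) (π : ℕ → Fin m → ℝ)
    (hπ : ∀ i ∈ I, ∀ j, 0 ≤ π i j) (h : ∀ i ∈ I, Rnd z (E i) (c i) (π i)) :
    Rnd z (I.biUnion E) (∑ i ∈ I, c i) (fun j => ∏ i ∈ I, π i j) := by
  classical
  induction I using Finset.induction_on with
  | empty => simpa using Rnd.empty z
  | insert i I hi ih =>
    have h1 := ih (fun i' hi' => hπ i' (Finset.mem_insert_of_mem hi'))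
      (fun i' hi' => h i' (Finset.mem_insert_of_mem hi'))
    have h2 := h i (Finset.mem_insert_self _ _)
    have h3 := Rnd.union hz (fun j => Finset.prod_nonneg (fun i' hi' =>
      hπ i' (Finset.mem_insert_of_mem hi') j)) h2 h1
    rw [Finset.biUnion_insert, Finset.sum_insert hi]
    refine h3.mono le_rfl (fun j => ?_)
    rw [Finset.prod_insert hi]

theorem Rnd.indep {m : ℕ} {z x : Finset (Fin m) → ℝ} (hz : ∀ S, 0 ≤ z S) (hx : ∀ S, 0 ≤ x S)
    {t : ℝ} (ht : 0 ≤ t) (E : Finset (Finset (Fin m))) :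
    Rnd z E (t * ∑ S ∈ E, x S * z S)
      (fun j => Real.exp (-(t * ∑ S ∈ E with j ∈ S, x S))) := by
  classical
  have hp0 : ∀ S, 0 ≤ 1 - Real.exp (-(t * x S)) := by
    intro S
    have : Real.exp (-(t * x S)) ≤ 1 := by
      rw [Real.exp_le_one_iff]
      have := mul_nonneg ht (hx S)
      linarith
    linarith
  have hp1 : ∀ S, 1 - Real.exp (-(t * x S)) ≤ 1 := by
    intro S
    have := Real.exp_pos (-(t * x S))
    linarith
  have hpt : ∀ S, 1 - Real.exp (-(t * x S)) ≤ t * x S := by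
    intro S
    have := Real.add_one_le_exp (-(t * x S))
    linarith
  intro w _
  obtain ⟨A, hA, hle⟩ := round_indep z (fun S => 1 - Real.exp (-(t * x S))) hp0 hp1 E w
  refine ⟨A, hA, hle.trans (add_le_add ?_ (le_of_eq ?_))⟩
  · rw [Finset.mul_sum]
    refine Finset.sum_le_sum (fun S _ => ?_)
    have := mul_le_mul_of_nonneg_right (hpt S) (hz S)
    linarith
  · refine Finset.sum_congr rfl (fun j _ => ?_)
    rw [Finset.prod_congr rfl (fun S _ => sub_sub_cancel _ _), ← Real.exp_sum,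
      Finset.sum_neg_distrib, ← Finset.mul_sum]

theorem Rnd.iid {m : ℕ} {z x : Finset (Fin m) → ℝ} (hz : ∀ S, 0 ≤ z S) (hx : ∀ S, 0 ≤ x S)
    {t : ℝ} (ht : 0 ≤ t) (E : Finset (Finset (Fin m))) (hX : 0 < ∑ S ∈ E, x S) :
    Rnd z E (t * (∑ S ∈ E, x S * z S) + (∑ S ∈ E, x S * z S) / ∑ S ∈ E, x S)
      (fun j => Real.exp (-(t * (∑ S ∈ E with j ∈ S, x S +
        (∑ S ∈ E with j ∈ S, x S) ^ 2 / (2 * ∑ S ∈ E, x S))))) := by
  classical
  intro w hw
  obtain ⟨X, hXdef⟩ : ∃ X : ℝ, X = ∑ S ∈ E, x S := ⟨_, rfl⟩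
  rw [← hXdef] at hX ⊢
  set k : ℕ := ⌈t * X⌉₊ with hk
  have hk1 : t * X ≤ k := Nat.le_ceil _
  have hk2 : (k : ℝ) ≤ t * X + 1 := (Nat.ceil_lt_add_one (by positivity)).le
  obtain ⟨A, hA, hle⟩ := round_iid z x hz hx E hXdef hX k w
  have hF0 : 0 ≤ ∑ S ∈ E, x S * z S := Finset.sum_nonneg (fun S _ => mul_nonneg (hx S) (hz S))
  refine ⟨A, hA, hle.trans (add_le_add ?_ (Finset.sum_le_sum (fun j _ => ?_)))⟩
  · have h3 : 0 ≤ (∑ S ∈ E, x S * z S) / X := div_nonneg hF0 hX.le
    calc k * ((∑ S ∈ E, x S * z S) / X) ≤ (t * X + 1) * ((∑ S ∈ E, x S * z S) / X) :=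
          mul_le_mul_of_nonneg_right hk2 h3
      _ = t * (∑ S ∈ E, x S * z S) + (∑ S ∈ E, x S * z S) / X := by
          field_simp
  · refine mul_le_mul_of_nonneg_left ?_ (hw j)
    have hy0 : 0 ≤ ∑ S ∈ E with j ∈ S, x S := Finset.sum_nonneg (fun S _ => hx S)
    have hyX : ∑ S ∈ E with j ∈ S, x S ≤ X := by
      rw [hXdef]
      exact Finset.sum_le_sum_of_subset_of_nonneg (Finset.filter_subset _ _)
        (fun S _ _ => hx S)
    set y := ∑ S ∈ E with j ∈ S, x S with hy
    have hu0 : 0 ≤ y / X := div_nonneg hy0 hX.le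
    have hu1 : y / X ≤ 1 := by
      rw [div_le_one hX]
      exact hyX
    calc (1 - y / X) ^ k ≤ (Real.exp (-(y / X + (y / X) ^ 2 / 2))) ^ k :=
          pow_le_pow_left₀ (by linarith) (one_sub_le_exp_sq hu0 hu1) _
      _ = Real.exp (-((y / X + (y / X) ^ 2 / 2) * k)) := by
          rw [← Real.exp_nat_mul]
          ring_nf
      _ ≤ Real.exp (-(t * (y + y ^ 2 / (2 * X)))) := by
          refine Real.exp_le_exp.2 (neg_le_neg ?_)
          calc t * (y + y ^ 2 / (2 * X)) = (y / X + (y / X) ^ 2 / 2) * (t * X) := by field_simp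
            _ ≤ (y / X + (y / X) ^ 2 / 2) * k :=
                mul_le_mul_of_nonneg_left hk1 (by positivity)

/-- The bound for normalised costs, using all cost scales. -/
theorem gap_upper_scales {m : ℕ} {t : ℝ} (ht : 0 < t)
    (z x : Finset (Fin m) → ℝ) (hz : ∀ S, 0 ≤ z S) (hx : IsFracCover x)
    (hF : ∑ S, x S * z S = 1) :
    ∃ T : Finset (Finset (Fin m)), IsCover T ∧
      ∑ S ∈ T, z S ≤ t + 8 + m * (16 / t * Real.exp (-t)) := by
  classical
  have hnn : ∀ S, 0 ≤ x S * z S := fun S => mul_nonneg (hx.1 S) (hz S)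
  -- patching sets
  have hpatch1 : ∀ j : Fin m, ∃ S : Finset (Fin m), j ∈ S ∧ z S ≤ 1 := by
    intro j
    by_contra hcon
    push Not at hcon
    have h1 : ∑ S : Finset (Fin m) with j ∈ S, x S * z S ≤ ∑ S, x S * z S :=
      Finset.sum_le_sum_of_subset_of_nonneg (Finset.filter_subset _ _) (fun S _ _ => hnn S)
    have hne : ∃ S : Finset (Fin m), j ∈ S ∧ 0 < x S := by
      by_contra hcon'
      push Not at hcon'
      have h0 : ∑ S : Finset (Fin m) with j ∈ S, x S ≤ 0 :=
        Finset.sum_nonpos (fun S hS => hcon' S (by simpa using hS))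
      have := hx.2 j
      linarith
    obtain ⟨S₀, hjS₀, hxS₀⟩ := hne
    have h2 : ∑ S : Finset (Fin m) with j ∈ S, x S <
        ∑ S : Finset (Fin m) with j ∈ S, x S * z S := by
      refine Finset.sum_lt_sum (fun S hS => ?_) ⟨S₀, by simpa using hjS₀, ?_⟩
      · have := mul_le_mul_of_nonneg_left (hcon S (by simpa using hS)).le (hx.1 S)
        linarith
      · have := mul_lt_mul_of_pos_left (hcon S₀ hjS₀) hxS₀
        linarith
    have := hx.2 j
    linarith
  have hpatch : ∀ j : Fin m, ∃ S : Finset (Fin m), j ∈ S ∧ z S ≤ 1 ∧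
      ∀ S' : Finset (Fin m), j ∈ S' → z S ≤ z S' := by
    intro j
    obtain ⟨S, hS, hmin⟩ := Finset.exists_min_image (univ.filter (fun S : Finset (Fin m) => j ∈ S))
      z ⟨univ, by simp⟩
    obtain ⟨S₁, hS₁, hle₁⟩ := hpatch1 j
    exact ⟨S, by simpa using hS, (hmin S₁ (by simpa using hS₁)).trans hle₁,
      fun S' hS' => hmin S' (by simpa using hS')⟩
  choose P hP1 hP2 hP3 using hpatch
  obtain ⟨w, hw⟩ : ∃ w : Fin m → ℝ, w = fun j => z (P j) := ⟨_, rfl⟩
  have hw0 : ∀ j, 0 ≤ w j := fun j => by rw [hw]; exact hz _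
  have hw1 : ∀ j, w j ≤ 1 := fun j => by rw [hw]; exact hP2 j
  have hwz : ∀ j, ∀ S : Finset (Fin m), j ∈ S → w j ≤ z S := fun j S hS => by
    rw [hw]; exact hP3 j S hS
  -- completing a partial cover
  have hcomplete : ∀ A : Finset (Finset (Fin m)), ∀ V : ℝ,
      ∑ S ∈ A, z S + ∑ j, (if ∃ S ∈ A, j ∈ S then 0 else w j) ≤ V →
      ∃ T : Finset (Finset (Fin m)), IsCover T ∧ ∑ S ∈ T, z S ≤ V := by
    intro A V hV
    refine ⟨A ∪ (univ.filter (fun j => ¬ ∃ S ∈ A, j ∈ S)).image P, ?_, ?_⟩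
    · intro j
      by_cases h : ∃ S ∈ A, j ∈ S
      · obtain ⟨S, hS, hj⟩ := h
        exact ⟨S, Finset.mem_union_left _ hS, hj⟩
      · exact ⟨P j, Finset.mem_union_right _ (Finset.mem_image_of_mem _ (by simpa using h)), hP1 j⟩
    · have h1 : ∑ S ∈ A ∪ (univ.filter (fun j => ¬ ∃ S ∈ A, j ∈ S)).image P, z S ≤
          ∑ S ∈ A, z S + ∑ S ∈ (univ.filter (fun j => ¬ ∃ S ∈ A, j ∈ S)).image P, z S := by
        rw [← Finset.sum_union_inter]
        have : 0 ≤ ∑ S ∈ A ∩ (univ.filter (fun j => ¬ ∃ S ∈ A, j ∈ S)).image P, z S :=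
          Finset.sum_nonneg (fun S _ => hz S)
        linarith
      have h2 := sum_image_le_sum (univ.filter (fun j => ¬ ∃ S ∈ A, j ∈ S)) P z hz
      have h3 : ∑ j ∈ univ.filter (fun j => ¬ ∃ S ∈ A, j ∈ S), z (P j) ≤
          ∑ j, (if ∃ S ∈ A, j ∈ S then 0 else w j) := by
        rw [Finset.sum_filter]
        refine Finset.sum_le_sum (fun j _ => ?_)
        by_cases h : ∃ S ∈ A, j ∈ S
        · rw [if_neg (not_not.2 h), if_pos h]
        · rw [if_pos h, if_neg h, hw]
      linarith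
  -- number of scales
  obtain ⟨n, hn, hn1⟩ : ∃ n : ℕ, (1 / 2 : ℝ) ^ n < 16 / t ∧ 1 ≤ n := by
    obtain ⟨n, hn⟩ := exists_pow_lt_of_lt_one (show (0 : ℝ) < 16 / t by positivity)
      (show (1 / 2 : ℝ) < 1 by norm_num)
    refine ⟨n + 1, lt_of_le_of_lt ?_ hn, by omega⟩
    exact pow_le_pow_of_le_one (by norm_num) (by norm_num) (by omega)
  -- the scale of a set
  obtain ⟨idx, hidx⟩ : ∃ idx : Finset (Fin m) → ℕ, idx = fun S =>
      if h : ∃ i, (1 / 2 : ℝ) ^ (i + 1) ≤ z S then min (Nat.find h) n else n := ⟨_, rfl⟩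
  have hidx_le : ∀ S, idx S ≤ n := by
    intro S
    rw [hidx]
    dsimp only
    split_ifs
    · exact min_le_right _ _
    · exact le_rfl
  have hidx_lb : ∀ S, idx S < n → (1 / 2 : ℝ) ^ (idx S + 1) ≤ z S := by
    intro S hS
    rw [hidx] at hS ⊢
    dsimp only at hS ⊢
    split_ifs at hS ⊢ with h
    · have h1 : Nat.find h < n := by
        by_contra hcon
        rw [min_eq_right (not_lt.1 hcon)] at hS
        exact lt_irrefl _ hS
      rw [min_eq_left h1.le]
      exact Nat.find_spec h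
    · exact absurd hS (lt_irrefl _)
  have hidx_ub : ∀ S, 0 < idx S → z S < (1 / 2 : ℝ) ^ (idx S) := by
    intro S hS
    rw [hidx] at hS ⊢
    dsimp only at hS ⊢
    split_ifs at hS ⊢ with h
    · by_contra hcon
      push Not at hcon
      obtain ⟨i, hi⟩ : ∃ i, min (Nat.find h) n = i + 1 := ⟨_, (Nat.succ_pred_eq_of_pos hS).symm⟩
      rw [hi] at hcon
      have h1 := Nat.find_min' h hcon
      omega
    · by_contra hcon
      push Not at hcon
      obtain ⟨i, hi⟩ : ∃ i, n = i + 1 := ⟨_, (Nat.succ_pred_eq_of_pos hS).symm⟩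
      rw [hi] at hcon
      exact h ⟨i, hcon⟩
  have hidx_mono : ∀ S (i : ℕ), (1 / 2 : ℝ) ^ (i + 1) ≤ z S → idx S ≤ i := by
    intro S i hi
    have h : ∃ i, (1 / 2 : ℝ) ^ (i + 1) ≤ z S := ⟨i, hi⟩
    rw [hidx]
    dsimp only
    rw [dif_pos h]
    exact (min_le_left _ _).trans (Nat.find_min' h hi)
  -- classes
  obtain ⟨E, hE⟩ : ∃ E : ℕ → Finset (Finset (Fin m)), E = fun i =>
      univ.filter (fun S => idx S = i) := ⟨_, rfl⟩
  have hfib : ∀ f : Finset (Fin m) → ℝ, ∑ i ∈ range (n + 1), ∑ S ∈ E i, f S = ∑ S, f S := by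
    intro f
    rw [hE]
    exact Finset.sum_fiberwise_of_maps_to (fun S _ => by
      rw [Finset.mem_range]; exact Nat.lt_succ_of_le (hidx_le S)) f
  obtain ⟨X, hX⟩ : ∃ X : ℕ → ℝ, X = fun i => ∑ S ∈ E i, x S := ⟨_, rfl⟩
  obtain ⟨F, hFdef⟩ : ∃ F : ℕ → ℝ, F = fun i => ∑ S ∈ E i, x S * z S := ⟨_, rfl⟩
  obtain ⟨y, hy⟩ : ∃ y : ℕ → Fin m → ℝ, y = fun i j => ∑ S ∈ E i with j ∈ S, x S := ⟨_, rfl⟩
  have hX0 : ∀ i, 0 ≤ X i := fun i => by rw [hX]; exact Finset.sum_nonneg (fun S _ => hx.1 S)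
  have hF0 : ∀ i, 0 ≤ F i := fun i => by rw [hFdef]; exact Finset.sum_nonneg (fun S _ => hnn S)
  have hy0 : ∀ i j, 0 ≤ y i j := fun i j => by
    rw [hy]; exact Finset.sum_nonneg (fun S _ => hx.1 S)
  have hyX : ∀ i j, y i j ≤ X i := fun i j => by
    rw [hy, hX]
    exact Finset.sum_le_sum_of_subset_of_nonneg (Finset.filter_subset _ _) (fun S _ _ => hx.1 S)
  have hFsum : ∑ i ∈ range (n + 1), F i = 1 := by
    rw [hFdef]
    dsimp only
    rw [hfib, hF]
  have hysum : ∀ j, 1 ≤ ∑ i ∈ range (n + 1), y i j := by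
    intro j
    have h1 : ∑ i ∈ range (n + 1), y i j = ∑ S : Finset (Fin m) with j ∈ S, x S := by
      rw [hy]
      dsimp only
      rw [Finset.sum_filter, ← hfib (fun S => if j ∈ S then x S else 0)]
      exact Finset.sum_congr rfl (fun i _ => Finset.sum_filter _ _)
    rw [h1]
    exact hx.2 j
  -- thresholds
  obtain ⟨G, hG⟩ : ∃ G : ℕ → Fin m → ℝ, G = fun i j =>
      if i < n ∧ (1 / 2 : ℝ) ^ (i + 2) ≤ X i then y i j ^ 2 / (2 * X i) else 0 := ⟨_, rfl⟩
  have hG0 : ∀ i j, 0 ≤ G i j := by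
    intro i j
    rw [hG]
    dsimp only
    split_ifs
    · have := hX0 i
      positivity
    · exact le_rfl
  have hclass : ∀ i ∈ range (n + 1), Rnd z (E i) (t * F i + 4 * (1 / 2 : ℝ) ^ i)
      (fun j => Real.exp (-(t * (y i j + G i j)))) := by
    intro i _
    by_cases hi : i < n ∧ (1 / 2 : ℝ) ^ (i + 2) ≤ X i
    · have hXpos : 0 < X i := lt_of_lt_of_le (by positivity) hi.2
      have h1 := Rnd.iid hz hx.1 ht.le (E i) (by
        have := hXpos
        rw [hX] at this
        exact this)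
      refine h1.mono ?_ (fun j => le_of_eq ?_)
      · have h2 : (∑ S ∈ E i, x S * z S) / ∑ S ∈ E i, x S ≤ 4 * (1 / 2 : ℝ) ^ i := by
          have hXi : ∑ S ∈ E i, x S = X i := by rw [hX]
          rw [hXi, div_le_iff₀ hXpos]
          rcases Nat.eq_zero_or_pos i with h0 | h0
          · subst h0
            have h3 : ∑ S ∈ E 0, x S * z S ≤ 1 := by
              rw [← hF]
              exact Finset.sum_le_sum_of_subset_of_nonneg (Finset.subset_univ _)
                (fun S _ _ => hnn S)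
            have h4 : (1 / 2 : ℝ) ^ (0 + 2) ≤ X 0 := hi.2
            norm_num at h4 ⊢
            linarith
          · have h3 : ∑ S ∈ E i, x S * z S ≤ ∑ S ∈ E i, x S * (1 / 2 : ℝ) ^ i := by
              refine Finset.sum_le_sum (fun S hS => ?_)
              have hSi : idx S = i := by
                rw [hE] at hS
                simpa using hS
              have h5 := hidx_ub S (by rw [hSi]; exact h0)
              rw [hSi] at h5
              exact mul_le_mul_of_nonneg_left h5.le (hx.1 S)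
            rw [← Finset.sum_mul, hXi] at h3
            have h4 : 0 ≤ (1 / 2 : ℝ) ^ i * X i := by
              have := hX0 i
              positivity
            linarith
        rw [hFdef]
        dsimp only
        linarith
      · rw [hG, hy, hX]
        dsimp only
        rw [if_pos (by rw [hX] at hi; exact hi)]
    · have h1 := Rnd.indep hz hx.1 ht.le (E i)
      refine h1.mono ?_ (fun j => le_of_eq ?_)
      · rw [hFdef]
        dsimp only
        have : (0 : ℝ) ≤ 4 * (1 / 2 : ℝ) ^ i := by positivity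
        linarith
      · rw [hG]
        dsimp only
        rw [if_neg hi, add_zero, hy]
  have hall := Rnd.biUnion hz (range (n + 1)) E _ _ (fun i _ j => (Real.exp_pos _).le) hclass
  obtain ⟨A, -, hA⟩ := hall w hw0
  refine hcomplete A _ (hA.trans ?_)
  have hcost : ∑ i ∈ range (n + 1), (t * F i + 4 * (1 / 2 : ℝ) ^ i) ≤ t + 8 := by
    rw [Finset.sum_add_distrib, ← Finset.mul_sum, ← Finset.mul_sum, hFsum]
    have h1 : ∑ i ∈ range (n + 1), (1 / 2 : ℝ) ^ i ≤ 2 := by
      have h2 := geom_sum_eq (by norm_num : (1 / 2 : ℝ) ≠ 1) (n + 1)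
      rw [h2]
      have h3 : (0 : ℝ) ≤ (1 / 2 : ℝ) ^ (n + 1) := by positivity
      rw [div_le_iff_of_neg (by norm_num)]
      linarith
    linarith
  -- the second order gain
  have hgain : ∀ j, (1 / 2 : ℝ) ^ n ≤ w j → w j / 16 ≤ ∑ i ∈ range (n + 1), G i j := by
    intro j hj
    obtain ⟨i₀, hi₀⟩ : ∃ i₀, i₀ = idx (P j) := ⟨_, rfl⟩
    have hwj : w j = z (P j) := by rw [hw]
    have hi₀n : i₀ < n := by
      have h1 := hidx_mono (P j) (n - 1) (by
        rw [← hwj, Nat.sub_add_cancel hn1]; exact hj)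
      omega
    have hlb : (1 / 2 : ℝ) ^ (i₀ + 1) ≤ w j := by
      rw [hwj, hi₀]
      exact hidx_lb (P j) (hi₀ ▸ hi₀n)
    have hub : w j ≤ (1 / 2 : ℝ) ^ i₀ := by
      rcases Nat.eq_zero_or_pos i₀ with h0 | h0
      · rw [h0, pow_zero]
        exact hw1 j
      · rw [hwj, hi₀]
        exact (hidx_ub (P j) (hi₀ ▸ h0)).le
    have hyz : ∀ i, i₀ < i → y i j = 0 := by
      intro i hi
      rw [hy]
      refine Finset.sum_eq_zero (fun S hS => ?_)
      exfalso
      rw [hE] at hS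
      simp only [mem_filter, mem_univ, true_and] at hS
      have h1 := hidx_mono S i₀ (hlb.trans (hwz j S hS.2))
      omega
    have hy1 : 1 ≤ ∑ i ∈ range (i₀ + 1), y i j := by
      refine (hysum j).trans (le_of_eq ?_)
      symm
      refine Finset.sum_subset (Finset.range_subset_range.2 (by omega)) (fun i _ hi => ?_)
      rw [Finset.mem_range] at hi
      exact hyz i (by omega)
    obtain ⟨B, hB⟩ : ∃ B : Finset ℕ, B = (range (i₀ + 1)).filter
      (fun i => (1 / 2 : ℝ) ^ (i + 2) ≤ X i) := ⟨_, rfl⟩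
    have hsplit : ∑ i ∈ range (i₀ + 1), y i j = ∑ i ∈ B, y i j +
        ∑ i ∈ (range (i₀ + 1)).filter (fun i => ¬ (1 / 2 : ℝ) ^ (i + 2) ≤ X i), y i j := by
      rw [hB]
      exact (Finset.sum_filter_add_sum_filter_not _ _ _).symm
    have hsmall : ∑ i ∈ (range (i₀ + 1)).filter (fun i => ¬ (1 / 2 : ℝ) ^ (i + 2) ≤ X i), y i j ≤
        1 / 2 := by
      calc ∑ i ∈ (range (i₀ + 1)).filter (fun i => ¬ (1 / 2 : ℝ) ^ (i + 2) ≤ X i), y i j
          ≤ ∑ i ∈ (range (i₀ + 1)).filter (fun i => ¬ (1 / 2 : ℝ) ^ (i + 2) ≤ X i),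
              (1 / 2 : ℝ) ^ (i + 2) := by
            refine Finset.sum_le_sum (fun i hi => ?_)
            rw [Finset.mem_filter, not_le] at hi
            exact (hyX i j).trans hi.2.le
        _ ≤ ∑ i ∈ range (i₀ + 1), (1 / 2 : ℝ) ^ (i + 2) :=
            Finset.sum_le_sum_of_subset_of_nonneg (Finset.filter_subset _ _)
              (fun i _ _ => by positivity)
        _ = (∑ i ∈ range (i₀ + 1), (1 / 2 : ℝ) ^ i) * (1 / 4) := by
            rw [Finset.sum_mul]
            exact Finset.sum_congr rfl (fun i _ => by rw [pow_add]; norm_num)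
        _ ≤ 2 * (1 / 4) := by
            refine mul_le_mul_of_nonneg_right ?_ (by norm_num)
            have h2 := geom_sum_eq (by norm_num : (1 / 2 : ℝ) ≠ 1) (i₀ + 1)
            rw [h2]
            have h3 : (0 : ℝ) ≤ (1 / 2 : ℝ) ^ (i₀ + 1) := by positivity
            rw [div_le_iff_of_neg (by norm_num)]
            linarith
        _ = 1 / 2 := by norm_num
    have hBy : 1 / 2 ≤ ∑ i ∈ B, y i j := by linarith
    have hBmem : ∀ i ∈ B, i < i₀ + 1 ∧ (1 / 2 : ℝ) ^ (i + 2) ≤ X i := by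
      intro i hi
      rw [hB, Finset.mem_filter, Finset.mem_range] at hi
      exact hi
    have hBpos : ∀ i ∈ B, 0 < 2 * X i := by
      intro i hi
      have h1 := (hBmem i hi).2
      have h2 : (0 : ℝ) < (1 / 2 : ℝ) ^ (i + 2) := by positivity
      linarith
    have hBne : B.Nonempty := by
      rw [Finset.nonempty_iff_ne_empty]
      rintro rfl
      simp at hBy
      linarith
    have hGB : ∑ i ∈ B, y i j ^ 2 / (2 * X i) ≤ ∑ i ∈ range (n + 1), G i j := by
      calc ∑ i ∈ B, y i j ^ 2 / (2 * X i) = ∑ i ∈ B, G i j := by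
            refine Finset.sum_congr rfl (fun i hi => ?_)
            rw [hG]
            dsimp only
            rw [if_pos ⟨by have := (hBmem i hi).1; omega, (hBmem i hi).2⟩]
        _ ≤ _ := by
            refine Finset.sum_le_sum_of_subset_of_nonneg (fun i hi => ?_) (fun i _ _ => hG0 i j)
            have := (hBmem i hi).1
            rw [Finset.mem_range]
            omega
    refine le_trans ?_ hGB
    refine le_trans ?_ (Finset.sq_sum_div_le_sum_sq_div B (fun i => y i j) hBpos)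
    have hDpos : 0 < ∑ i ∈ B, 2 * X i := Finset.sum_pos hBpos hBne
    have hXF : (1 / 2 : ℝ) ^ (i₀ + 1) * ∑ i ∈ range (i₀ + 1), X i ≤ 1 := by
      rw [Finset.mul_sum]
      calc ∑ i ∈ range (i₀ + 1), (1 / 2 : ℝ) ^ (i₀ + 1) * X i ≤ ∑ i ∈ range (i₀ + 1), F i := by
            refine Finset.sum_le_sum (fun i hi => ?_)
            rw [Finset.mem_range] at hi
            rw [hX, hFdef]
            dsimp only
            rw [Finset.mul_sum]
            refine Finset.sum_le_sum (fun S hS => ?_)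
            have hSi : idx S = i := by
              rw [hE] at hS
              simpa using hS
            have h1 := hidx_lb S (by rw [hSi]; omega)
            rw [hSi] at h1
            have h2 : (1 / 2 : ℝ) ^ (i₀ + 1) ≤ (1 / 2 : ℝ) ^ (i + 1) :=
              pow_le_pow_of_le_one (by norm_num) (by norm_num) (by omega)
            have := mul_le_mul_of_nonneg_left (h2.trans h1) (hx.1 S)
            linarith
        _ ≤ ∑ i ∈ range (n + 1), F i :=
            Finset.sum_le_sum_of_subset_of_nonneg (Finset.range_subset_range.2 (by omega))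
              (fun i _ _ => hF0 i)
        _ = 1 := hFsum
    have hD4 : (∑ i ∈ B, 2 * X i) * w j ≤ 4 := by
      have h1 : ∑ i ∈ B, 2 * X i ≤ 2 * ∑ i ∈ range (i₀ + 1), X i := by
        rw [← Finset.mul_sum]
        refine mul_le_mul_of_nonneg_left ?_ (by norm_num)
        rw [hB]
        exact Finset.sum_le_sum_of_subset_of_nonneg (Finset.filter_subset _ _)
          (fun i _ _ => hX0 i)
      have h2 : 0 ≤ ∑ i ∈ range (i₀ + 1), X i := Finset.sum_nonneg (fun i _ => hX0 i)
      calc (∑ i ∈ B, 2 * X i) * w j ≤ (2 * ∑ i ∈ range (i₀ + 1), X i) * (1 / 2 : ℝ) ^ i₀ :=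
            mul_le_mul h1 hub (hw0 j) (by positivity)
        _ = 4 * ((1 / 2 : ℝ) ^ (i₀ + 1) * ∑ i ∈ range (i₀ + 1), X i) := by
            rw [pow_succ]; ring
        _ ≤ 4 * 1 := mul_le_mul_of_nonneg_left hXF (by norm_num)
        _ = 4 := by norm_num
    rw [div_le_div_iff₀ (by norm_num) hDpos]
    have h5 : (1 / 2 : ℝ) ^ 2 ≤ (∑ i ∈ B, y i j) ^ 2 := pow_le_pow_left₀ (by norm_num) hBy 2
    nlinarith
  have hterm : ∀ j, w j * ∏ i ∈ range (n + 1), Real.exp (-(t * (y i j + G i j))) ≤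
      16 / t * Real.exp (-t) := by
    intro j
    have h1 : ∏ i ∈ range (n + 1), Real.exp (-(t * (y i j + G i j))) =
        Real.exp (-(t * (∑ i ∈ range (n + 1), y i j + ∑ i ∈ range (n + 1), G i j))) := by
      rw [← Real.exp_sum, Finset.sum_neg_distrib, ← Finset.mul_sum, Finset.sum_add_distrib]
    rw [h1]
    have hGs : 0 ≤ ∑ i ∈ range (n + 1), G i j := Finset.sum_nonneg (fun i _ => hG0 i j)
    rcases lt_or_ge (w j) ((1 / 2 : ℝ) ^ n) with hlt | hge
    · have h2 : Real.exp (-(t * (∑ i ∈ range (n + 1), y i j + ∑ i ∈ range (n + 1), G i j))) ≤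
          Real.exp (-t) := by
        refine Real.exp_le_exp.2 (neg_le_neg ?_)
        have h3 : 1 ≤ ∑ i ∈ range (n + 1), y i j + ∑ i ∈ range (n + 1), G i j := by
          have := hysum j
          linarith
        have := mul_le_mul_of_nonneg_left h3 ht.le
        linarith
      exact mul_le_mul (hlt.le.trans hn.le) h2 (Real.exp_pos _).le (by positivity)
    · have h2 : Real.exp (-(t * (∑ i ∈ range (n + 1), y i j + ∑ i ∈ range (n + 1), G i j))) ≤
          Real.exp (-t) * Real.exp (-(t * (w j / 16))) := by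
        rw [← Real.exp_add]
        refine Real.exp_le_exp.2 ?_
        have h3 : 1 + w j / 16 ≤ ∑ i ∈ range (n + 1), y i j + ∑ i ∈ range (n + 1), G i j :=
          add_le_add (hysum j) (hgain j hge)
        have := mul_le_mul_of_nonneg_left h3 ht.le
        linarith
      have h4 : w j * Real.exp (-(t * (w j / 16))) ≤ 16 / t := by
        rw [Real.exp_neg, ← div_eq_mul_inv, div_le_div_iff₀ (Real.exp_pos _) ht]
        have h5 := Real.add_one_le_exp (t * (w j / 16))
        linarith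
      calc w j * Real.exp (-(t * (∑ i ∈ range (n + 1), y i j + ∑ i ∈ range (n + 1), G i j)))
          ≤ w j * (Real.exp (-t) * Real.exp (-(t * (w j / 16)))) :=
            mul_le_mul_of_nonneg_left h2 (hw0 j)
        _ = (w j * Real.exp (-(t * (w j / 16)))) * Real.exp (-t) := by ring
        _ ≤ 16 / t * Real.exp (-t) := mul_le_mul_of_nonneg_right h4 (Real.exp_pos _).le
  have hsum : ∑ j, w j * ∏ i ∈ range (n + 1), Real.exp (-(t * (y i j + G i j))) ≤
      m * (16 / t * Real.exp (-t)) := by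
    calc ∑ j, w j * ∏ i ∈ range (n + 1), Real.exp (-(t * (y i j + G i j)))
        ≤ ∑ _j : Fin m, 16 / t * Real.exp (-t) := Finset.sum_le_sum (fun j _ => hterm j)
      _ = _ := by
          rw [Finset.sum_const, nsmul_eq_mul, Finset.card_univ, Fintype.card_fin]
  exact add_le_add hcost hsum

theorem isGapBound_scales {m : ℕ} {t : ℝ} (ht : 0 < t) :
    IsGapBound m (t + 8 + m * (16 / t * Real.exp (-t))) := by
  classical
  intro z hz x hx
  set F := ∑ S, x S * z S with hF
  have hnn : ∀ S, 0 ≤ x S * z S := fun S => mul_nonneg (hx.1 S) (hz S)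
  have hF0 : 0 ≤ F := Finset.sum_nonneg (fun S _ => hnn S)
  rcases hF0.lt_or_eq with hpos | hzero
  · obtain ⟨T, hT, hle⟩ := gap_upper_scales ht (fun S => z S / F) x
      (fun S => div_nonneg (hz S) hF0) hx (by
        have : ∑ S, x S * (z S / F) = (∑ S, x S * z S) / F := by
          rw [Finset.sum_div]
          exact Finset.sum_congr rfl (fun S _ => by ring)
        rw [this, ← hF, div_self hpos.ne'])
    refine ⟨T, hT, ?_⟩
    rw [← Finset.sum_div, div_le_iff₀ hpos] at hle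
    exact hle
  · refine ⟨univ.filter (fun S : Finset (Fin m) => x S ≠ 0), ?_, ?_⟩
    · intro j
      by_contra hcon
      push Not at hcon
      have h0 : ∑ S : Finset (Fin m) with j ∈ S, x S = 0 := by
        apply Finset.sum_eq_zero
        intro S hS
        by_contra hxS
        exact hcon S (by simp [hxS]) (by simpa using hS)
      have := hx.2 j
      linarith
    · rw [← hzero, mul_zero]
      refine le_of_eq (Finset.sum_eq_zero (fun S hS => ?_))
      simp only [mem_filter, mem_univ, true_and] at hS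
      have h1 := (Finset.sum_eq_zero_iff_of_nonneg (fun S _ => hnn S)).1 hzero.symm S (mem_univ S)
      exact (mul_eq_zero.1 h1).resolve_left hS

/-- `c(m) ≤ log m - log log m + 40` for `m ≥ 3`. -/
theorem setCoverGap_le_log {m : ℕ} (hm : 3 ≤ m) :
    setCoverGap m ≤ Real.log m - Real.log (Real.log m) + 40 := by
  have hm0 : (0 : ℝ) < m := by
    have : 0 < m := by omega
    exact_mod_cast this
  have hm3 : (3 : ℝ) ≤ m := by exact_mod_cast hm
  have hL1 : 1 < Real.log m := by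
    rw [Real.lt_log_iff_exp_lt hm0]
    have := Real.exp_one_lt_d9
    linarith
  have hL0 : 0 < Real.log m := by linarith
  have hll : Real.log (Real.log m) ≤ Real.log m / 2 := by
    have h1 := Real.log_le_sub_one_of_pos (show 0 < Real.log m / 2 by positivity)
    rw [Real.log_div hL0.ne' (by norm_num)] at h1
    have h2 := Real.log_two_lt_d9
    linarith
  have ht : 0 < Real.log m - Real.log (Real.log m) := by linarith
  have h := isGapBound_scales (m := m) ht
  have hexp : Real.exp (-(Real.log m - Real.log (Real.log m))) = Real.log m / m := by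
    rw [neg_sub, Real.exp_sub, Real.exp_log hL0, Real.exp_log hm0]
  have hbound : m * (16 / (Real.log m - Real.log (Real.log m)) *
      Real.exp (-(Real.log m - Real.log (Real.log m)))) ≤ 32 := by
    rw [hexp]
    have h1 : m * (16 / (Real.log m - Real.log (Real.log m)) * (Real.log m / m)) =
        16 * Real.log m / (Real.log m - Real.log (Real.log m)) := by
      field_simp
    rw [h1, div_le_iff₀ ht]
    linarith
  have h2 : setCoverGap m ≤ Real.log m - Real.log (Real.log m) + 8 +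
      m * (16 / (Real.log m - Real.log (Real.log m)) *
      Real.exp (-(Real.log m - Real.log (Real.log m)))) :=
    csInf_le ⟨1, fun d hd => IsGapBound.one_le (by omega) hd⟩ h
  linarith

end Pool.Agent.Lib.MP_46a7d5_co
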