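import Pool.Agent.Lib.MP_46a7d5_co.Lower

/-!
Upper bound: `ch(K_{m*k})` is at most about `k` times the integrality gap.
The proof chooses, part after part, a cover of the part by colour types, with multiplicative
weights on the colours; Hall's theorem then gives the colouring.
-/

set_option autoImplicit false

namespace Pool.Agent.Lib.MP_46a7d5_co

open Finset

/-- The `t` cheapest elements of a finite set. -/
theorem exists_cheapest (A : Finset ℕ) (w : ℕ → ℝ) (hw : ∀ a, 0 ≤ w a) :
    ∀ t : ℕ, t ≤ A.card → ∃ U ⊆ A, U.card = t ∧ ∃ ζ : ℝ, 0 ≤ ζ ∧ (∀ a ∈ U, w a ≤ ζ) ∧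
      ∀ a ∈ A \ U, ζ ≤ w a := by
  classical
  intro t
  induction t with
  | zero => exact fun _ => ⟨∅, by simp, by simp, 0, le_rfl, by simp, fun a _ => hw a⟩
  | succ t ih =>
    intro ht
    obtain ⟨U, hUA, hU, ζ, hζ, h1, h2⟩ := ih (by omega)
    have hne : (A \ U).Nonempty := by
      rw [← Finset.card_pos, Finset.card_sdiff_of_subset hUA]
      omega
    obtain ⟨a₀, ha₀, hmin⟩ := Finset.exists_min_image (A \ U) w hne
    have ha₀' := Finset.mem_sdiff.1 ha₀
    refine ⟨insert a₀ U, ?_, ?_, w a₀, hw a₀, ?_, ?_⟩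
    · exact Finset.insert_subset ha₀'.1 hUA
    · rw [Finset.card_insert_of_notMem ha₀'.2, hU]
    · intro a ha
      rcases Finset.mem_insert.1 ha with rfl | ha
      · exact le_rfl
      · exact (h1 a ha).trans (h2 a₀ ha₀)
    · intro a ha
      rw [Finset.mem_sdiff, Finset.mem_insert, not_or] at ha
      exact hmin a (Finset.mem_sdiff.2 ⟨ha.1, ha.2.2⟩)

/-- One part: a cheap choice of a cover by colour types and of `t` colours of each type. -/
theorem part_step {m s t : ℕ} {c : ℝ} (hc : 0 ≤ c) (hgap : IsGapBound m c)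
    (Γ : Finset ℕ) (L : Fin m → Finset ℕ) (hLΓ : ∀ j, L j ⊆ Γ) (hL : ∀ j, (L j).card = s)
    (hD : 0 < (s : ℝ) - 2 ^ m * t) (w : ℕ → ℝ) (hw : ∀ a, 0 ≤ w a) :
    ∃ T : Finset (Finset (Fin m)), ∃ U : Finset (Fin m) → Finset ℕ, IsCover T ∧
      (∀ S ∈ T, (U S).card = t ∧ U S ⊆ Γ.filter (fun a => univ.filter (fun j => a ∈ L j) = S)) ∧
      ∑ S ∈ T, ∑ a ∈ U S, w a ≤ t * (c / (s - 2 ^ m * t)) * ∑ a ∈ Γ, w a := by
  classical
  set D : ℝ := (s : ℝ) - 2 ^ m * t with hDdef
  let A : Finset (Fin m) → Finset ℕ := fun S =>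
    Γ.filter (fun a => univ.filter (fun j => a ∈ L j) = S)
  set W : ℝ := ∑ a ∈ Γ, w a with hW
  have hW0 : 0 ≤ W := Finset.sum_nonneg (fun a _ => hw a)
  set M : ℝ := c * (W / D) + 1 with hM
  have hWD : 0 ≤ W / D := div_nonneg hW0 hD.le
  have hM0 : 0 ≤ M := by positivity
  have hdata : ∀ S : Finset (Fin m), ∃ U : Finset ℕ, ∃ ζ : ℝ, 0 ≤ ζ ∧
      (t ≤ (A S).card → U ⊆ A S ∧ U.card = t ∧ (∀ a ∈ U, w a ≤ ζ) ∧ ∀ a ∈ A S \ U, ζ ≤ w a) ∧
      (¬ t ≤ (A S).card → ζ = M) := by
    intro S
    by_cases h : t ≤ (A S).card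
    · obtain ⟨U, hU, hUc, ζ, hζ, h1, h2⟩ := exists_cheapest (A S) w hw t h
      exact ⟨U, ζ, hζ, fun _ => ⟨hU, hUc, h1, h2⟩, fun hn => absurd h hn⟩
    · exact ⟨∅, M, hM0, fun hn => absurd hn h, fun _ => rfl⟩
  choose U z hz hav hunav using hdata
  let n : Finset (Fin m) → ℕ := fun S => (A S).card - t
  let x : Finset (Fin m) → ℝ := fun S => n S / D
  have hx0 : ∀ S, 0 ≤ x S := fun S => div_nonneg (Nat.cast_nonneg _) hD.le
  have hxcov : IsFracCover x := by
    refine ⟨hx0, fun j => ?_⟩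
    have hcard : (s : ℝ) ≤ ∑ S : Finset (Fin m) with j ∈ S, ((n S : ℝ) + t) := by
      have h1 : (L j).card ≤ ∑ S : Finset (Fin m) with j ∈ S, (A S).card := by
        have hsub : L j ⊆ (univ.filter (fun S : Finset (Fin m) => j ∈ S)).biUnion A := by
          intro a ha
          rw [Finset.mem_biUnion]
          refine ⟨univ.filter (fun j => a ∈ L j), by simp [ha], ?_⟩
          simp only [A, mem_filter, and_true]
          exact hLΓ j ha
        exact (Finset.card_le_card hsub).trans Finset.card_biUnion_le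
      rw [hL] at h1
      have h2 : ∑ S : Finset (Fin m) with j ∈ S, (A S).card ≤
          ∑ S : Finset (Fin m) with j ∈ S, (n S + t) := by
        refine Finset.sum_le_sum (fun S _ => ?_)
        simp only [n]
        omega
      have h3 := h1.trans h2
      exact_mod_cast h3
    have hcount : (∑ S : Finset (Fin m) with j ∈ S, (t : ℝ)) ≤ 2 ^ m * t := by
      rw [Finset.sum_const, nsmul_eq_mul]
      refine mul_le_mul_of_nonneg_right ?_ (Nat.cast_nonneg _)
      have : (univ.filter (fun S : Finset (Fin m) => j ∈ S)).card ≤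
          (univ : Finset (Finset (Fin m))).card := Finset.card_filter_le _ _
      rw [Finset.card_univ, Fintype.card_finset, Fintype.card_fin] at this
      exact_mod_cast this
    rw [Finset.sum_add_distrib] at hcard
    have h4 : D ≤ ∑ S : Finset (Fin m) with j ∈ S, (n S : ℝ) := by
      rw [hDdef]; linarith
    simp only [x]
    rw [← Finset.sum_div, le_div_iff₀ hD, one_mul]
    exact h4
  obtain ⟨T, hT, hTle⟩ := hgap z hz x hxcov
  -- the fractional cost
  have hfrac : ∑ S, x S * z S ≤ W / D := by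
    have h1 : ∀ S, (n S : ℝ) * z S ≤ ∑ a ∈ A S, w a := by
      intro S
      by_cases h : t ≤ (A S).card
      · obtain ⟨hU1, hU2, hU3, hU4⟩ := hav S h
        have hcard : (A S \ U S).card = n S := by
          rw [Finset.card_sdiff_of_subset hU1, hU2]
        calc (n S : ℝ) * z S = ∑ _a ∈ A S \ U S, z S := by
              rw [Finset.sum_const, nsmul_eq_mul, hcard]
          _ ≤ ∑ a ∈ A S \ U S, w a := Finset.sum_le_sum hU4
          _ ≤ ∑ a ∈ A S, w a :=
            Finset.sum_le_sum_of_subset_of_nonneg Finset.sdiff_subset (fun a _ _ => hw a)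
      · have : n S = 0 := by simp only [n]; omega
        rw [this]
        simp only [Nat.cast_zero, zero_mul]
        exact Finset.sum_nonneg (fun a _ => hw a)
    have h2 : ∑ S, x S * z S = (∑ S, (n S : ℝ) * z S) / D := by
      rw [Finset.sum_div]
      refine Finset.sum_congr rfl (fun S _ => ?_)
      simp only [x]
      ring
    have h3 : ∑ S, ∑ a ∈ A S, w a = W := by
      rw [hW]
      rw [← Finset.sum_biUnion]
      · refine Finset.sum_congr ?_ (fun _ _ => rfl)
        ext a
        simp only [A, mem_biUnion, mem_univ, true_and, mem_filter]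
        exact ⟨fun ⟨_, h, _⟩ => h, fun h => ⟨_, h, rfl⟩⟩
      · intro S _ S' _ hne
        rw [Function.onFun, Finset.disjoint_left]
        intro a ha hb
        simp only [A, mem_filter] at ha hb
        exact hne (ha.2.symm.trans hb.2)
    rw [h2]
    refine div_le_div_of_nonneg_right ?_ hD.le
    rw [← h3]
    exact Finset.sum_le_sum (fun S _ => h1 S)
  have hTM : ∑ S ∈ T, z S < M := by
    have := mul_le_mul_of_nonneg_left hfrac hc
    rw [hM]
    linarith
  have havail : ∀ S ∈ T, t ≤ (A S).card := by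
    intro S hS
    by_contra hcon
    have h1 := hunav S hcon
    have h2 : z S ≤ ∑ S ∈ T, z S := Finset.single_le_sum (fun S _ => hz S) hS
    linarith
  refine ⟨T, U, hT, fun S hS => ?_, ?_⟩
  · obtain ⟨hU1, hU2, -, -⟩ := hav S (havail S hS)
    exact ⟨hU2, hU1⟩
  · calc ∑ S ∈ T, ∑ a ∈ U S, w a ≤ ∑ S ∈ T, (t : ℝ) * z S := by
          refine Finset.sum_le_sum (fun S hS => ?_)
          obtain ⟨hU1, hU2, hU3, -⟩ := hav S (havail S hS)
          calc ∑ a ∈ U S, w a ≤ ∑ _a ∈ U S, z S := Finset.sum_le_sum hU3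
            _ = (t : ℝ) * z S := by rw [Finset.sum_const, nsmul_eq_mul, hU2]
      _ = t * ∑ S ∈ T, z S := by rw [Finset.mul_sum]
      _ ≤ t * (c * (W / D)) := by
          refine mul_le_mul_of_nonneg_left ?_ (Nat.cast_nonneg _)
          exact hTle.trans (mul_le_mul_of_nonneg_left hfrac hc)
      _ = t * (c / D) * W := by ring

/-- Multiplicative weights. -/
theorem mult_weights {ι : Type*} [DecidableEq ι] (Γ : Finset ℕ) (β α : ℝ) (hα : 0 ≤ α)
    (hβ : 0 ≤ β) (P : ι → Finset ℕ → Prop) (hsub : ∀ i B, P i B → B ⊆ Γ)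
    (hP : ∀ i, ∀ w : ℕ → ℝ, (∀ a, 0 ≤ w a) → ∃ B, P i B ∧ ∑ a ∈ B, w a ≤ β * ∑ a ∈ Γ, w a)
    (I : Finset ι) :
    ∃ B : ι → Finset ℕ, (∀ i ∈ I, P i (B i)) ∧
      ∑ a ∈ Γ, (1 + α) ^ (I.filter (fun i => a ∈ B i)).card ≤ Γ.card * (1 + α * β) ^ I.card := by
  classical
  induction I using Finset.induction_on with
  | empty => exact ⟨fun _ => ∅, by simp, by simp⟩
  | insert i I hi ih =>
    obtain ⟨B, hB, hle⟩ := ih
    let w : ℕ → ℝ := fun a => (1 + α) ^ (I.filter (fun i => a ∈ B i)).card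
    have hw : ∀ a, 0 ≤ w a := fun a => by positivity
    obtain ⟨B', hB', hle'⟩ := hP i w hw
    refine ⟨Function.update B i B', ?_, ?_⟩
    · intro i' hi'
      rcases Finset.mem_insert.1 hi' with rfl | hi'
      · rw [Function.update_self]
        exact hB'
      · have hne : i' ≠ i := fun h => hi (h ▸ hi')
        rw [Function.update_of_ne hne]
        exact hB i' hi'
    · have hcnt : ∀ a, ((insert i I).filter (fun i' => a ∈ Function.update B i B' i')).card =
          (I.filter (fun i => a ∈ B i)).card + if a ∈ B' then 1 else 0 := by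
        intro a
        rw [Finset.filter_insert, Function.update_self]
        have heq : I.filter (fun i' => a ∈ Function.update B i B' i') =
            I.filter (fun i' => a ∈ B i') := by
          refine Finset.filter_congr (fun i' hi' => ?_)
          have hne : i' ≠ i := fun h => hi (h ▸ hi')
          rw [Function.update_of_ne hne]
        rw [heq]
        split_ifs with h
        · rw [Finset.card_insert_of_notMem]
          simp [hi]
        · simp
      have h1 : ∑ a ∈ Γ,
          (1 + α) ^ ((insert i I).filter (fun i' => a ∈ Function.update B i B' i')).card =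
          ∑ a ∈ Γ, w a + α * ∑ a ∈ B', w a := by
        have hB'Γ : B' ⊆ Γ := hsub i B' hB'
        have h2 : ∑ a ∈ B', w a = ∑ a ∈ Γ, if a ∈ B' then w a else 0 := by
          rw [← Finset.sum_filter]
          refine Finset.sum_congr ?_ (fun _ _ => rfl)
          ext a
          simp only [mem_filter]
          exact ⟨fun h => ⟨hB'Γ h, h⟩, fun h => h.2⟩
        rw [h2, Finset.mul_sum, ← Finset.sum_add_distrib]
        refine Finset.sum_congr rfl (fun a _ => ?_)
        rw [hcnt]
        simp only [w]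
        split_ifs <;> ring
      rw [h1, Finset.card_insert_of_notMem hi, pow_succ]
      have h3 : 0 ≤ 1 + α * β := by positivity
      calc ∑ a ∈ Γ, w a + α * ∑ a ∈ B', w a
          ≤ ∑ a ∈ Γ, w a + α * (β * ∑ a ∈ Γ, w a) := by
            have := mul_le_mul_of_nonneg_left hle' hα
            linarith
        _ = (∑ a ∈ Γ, w a) * (1 + α * β) := by ring
        _ ≤ (Γ.card * (1 + α * β) ^ I.card) * (1 + α * β) :=
            mul_le_mul_of_nonneg_right hle h3
        _ = _ := by ring

/-- The colouring, from the numerical condition. -/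
theorem upper_core {m k s t : ℕ} {c α : ℝ} (hc : 0 ≤ c) (hgap : IsGapBound m c) (ht : 0 < t)
    (hα : 0 ≤ α) (hD : 0 < (s : ℝ) - 2 ^ m * t)
    (hbig : (k * m * s : ℝ) * (1 + α * (t * (c / (s - 2 ^ m * t)))) ^ k < (1 + α) ^ (t + 1)) :
    Choosable (balancedMultipartite m k) s := by
  classical
  intro L hL
  set β : ℝ := t * (c / (s - 2 ^ m * t)) with hβ
  have hβ0 : 0 ≤ β := by positivity
  let Γ : Finset ℕ := univ.biUnion L
  have hLΓ : ∀ v, L v ⊆ Γ := fun v => Finset.subset_biUnion_of_mem L (mem_univ v)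
  have hΓ : (Γ.card : ℝ) ≤ k * m * s := by
    have h1 : Γ.card ≤ ∑ v : (Σ _ : Fin k, Fin m), (L v).card := Finset.card_biUnion_le
    have h2 : ∑ v : (Σ _ : Fin k, Fin m), (L v).card = k * m * s := by
      simp [hL]
    rw [h2] at h1
    exact_mod_cast h1
  let A : Fin k → Finset (Fin m) → Finset ℕ := fun i S =>
    Γ.filter (fun a => univ.filter (fun j => a ∈ L ⟨i, j⟩) = S)
  let P : Fin k → Finset ℕ → Prop := fun i B =>
    ∃ T : Finset (Finset (Fin m)), ∃ U : Finset (Fin m) → Finset ℕ, IsCover T ∧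
      (∀ S ∈ T, (U S).card = t ∧ U S ⊆ A i S) ∧ B = T.biUnion U
  have hPsub : ∀ i B, P i B → B ⊆ Γ := by
    rintro i B ⟨T, U, -, hU, rfl⟩
    intro a ha
    obtain ⟨S, hS, haS⟩ := Finset.mem_biUnion.1 ha
    exact (Finset.mem_filter.1 ((hU S hS).2 haS)).1
  have hP : ∀ i, ∀ w : ℕ → ℝ, (∀ a, 0 ≤ w a) → ∃ B, P i B ∧
      ∑ a ∈ B, w a ≤ β * ∑ a ∈ Γ, w a := by
    intro i w hw
    obtain ⟨T, U, hT, hU, hle⟩ := part_step hc hgap Γ (fun j => L ⟨i, j⟩)
      (fun j => hLΓ _) (fun j => hL _) hD w hw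
    refine ⟨T.biUnion U, ⟨T, U, hT, hU, rfl⟩, ?_⟩
    rw [Finset.sum_biUnion]
    · exact hle
    · intro S hS S' hS' hne
      rw [Function.onFun, Finset.disjoint_left]
      intro a ha hb
      have h1 := (Finset.mem_filter.1 ((hU S hS).2 ha)).2
      have h2 := (Finset.mem_filter.1 ((hU S' hS').2 hb)).2
      exact hne (h1.symm.trans h2)
  obtain ⟨B, hB, hBle⟩ := mult_weights Γ β α hα hβ0 P hPsub hP univ
  have hB' : ∀ i, P i (B i) := fun i => hB i (mem_univ i)
  choose T U hT hU hBU using hB'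
  -- every colour is used at most `t` times
  have hcnt : ∀ a ∈ Γ, (univ.filter (fun i : Fin k => a ∈ B i)).card ≤ t := by
    intro a ha
    by_contra hcon
    push Not at hcon
    have h1 : (1 + α) ^ (t + 1) ≤ (1 + α) ^ (univ.filter (fun i : Fin k => a ∈ B i)).card :=
      pow_le_pow_right₀ (by linarith) hcon
    have h2 : (1 + α) ^ (univ.filter (fun i : Fin k => a ∈ B i)).card ≤
        ∑ a ∈ Γ, (1 + α) ^ (univ.filter (fun i : Fin k => a ∈ B i)).card :=
      Finset.single_le_sum (f := fun a => (1 + α) ^ (univ.filter (fun i : Fin k => a ∈ B i)).card)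
        (fun a _ => by positivity) ha
    have h3 : (Γ.card : ℝ) * (1 + α * β) ^ k ≤ (k * m * s : ℝ) * (1 + α * β) ^ k :=
      mul_le_mul_of_nonneg_right hΓ (by positivity)
    rw [Finset.card_univ, Fintype.card_fin] at hBle
    linarith
  -- Hall's theorem
  let ι := {p : Fin k × Finset (Fin m) // p.2 ∈ T p.1}
  have hall : ∀ X : Finset ι, X.card ≤ (X.biUnion (fun p => U p.1.1 p.1.2)).card := by
    intro X
    have := Finset.card_mul_le_card_mul (s := X) (t := X.biUnion (fun p => U p.1.1 p.1.2))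
      (fun (p : ι) (a : ℕ) => a ∈ U p.1.1 p.1.2) (m := t) (n := t) ?_ ?_
    · exact Nat.le_of_mul_le_mul_right this ht
    · intro p hp
      rw [← (hU p.1.1 p.1.2 p.2).1]
      refine Finset.card_le_card ?_
      intro a ha
      rw [Finset.mem_bipartiteAbove]
      exact ⟨Finset.mem_biUnion.2 ⟨p, hp, ha⟩, ha⟩
    · intro a ha
      obtain ⟨p₀, hp₀, hap₀⟩ := Finset.mem_biUnion.1 ha
      have haΓ : a ∈ Γ := (Finset.mem_filter.1 ((hU p₀.1.1 p₀.1.2 p₀.2).2 hap₀)).1
      refine le_trans ?_ (hcnt a haΓ)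
      refine Finset.card_le_card_of_injOn (fun p : ι => p.1.1) ?_ ?_
      · intro p hp
        have hp' := ((Finset.mem_bipartiteBelow _).1 (Finset.mem_coe.1 hp)).2
        have hmem : a ∈ B p.1.1 := by
          rw [hBU]
          exact Finset.mem_biUnion.2 ⟨p.1.2, p.2, hp'⟩
        simpa using hmem
      · intro p hp q hq hpq
        have hp' := ((Finset.mem_bipartiteBelow _).1 (Finset.mem_coe.1 hp)).2
        have hq' := ((Finset.mem_bipartiteBelow _).1 (Finset.mem_coe.1 hq)).2
        have h1 := (Finset.mem_filter.1 ((hU p.1.1 p.1.2 p.2).2 hp')).2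
        have h2 := (Finset.mem_filter.1 ((hU q.1.1 q.1.2 q.2).2 hq')).2
        have hpq' : p.1.1 = q.1.1 := hpq
        rw [← hpq'] at h2
        exact Subtype.ext (Prod.ext hpq' (h1.symm.trans h2))
  obtain ⟨f, hfinj, hf⟩ := (Finset.all_card_le_biUnion_card_iff_exists_injective
    (fun p : ι => U p.1.1 p.1.2)).1 hall
  -- the colouring
  have hchoice : ∀ v : (Σ _ : Fin k, Fin m), ∃ S ∈ T v.1, v.2 ∈ S := fun v => hT v.1 v.2
  choose S hS hvS using hchoice
  refine ⟨fun v => f ⟨(v.1, S v), hS v⟩, ?_, ?_⟩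
  · intro v
    have h1 := hf ⟨(v.1, S v), hS v⟩
    have h2 := (Finset.mem_filter.1 ((hU v.1 (S v) (hS v)).2 h1)).2
    have h3 : v.2 ∈ univ.filter (fun j => f ⟨(v.1, S v), hS v⟩ ∈ L ⟨v.1, j⟩) := by
      rw [h2]
      exact hvS v
    simpa using h3
  · intro u v huv heq
    have h1 := hfinj heq
    have h2 : u.1 = v.1 := congrArg (fun p : ι => p.1.1) h1
    exact (by simpa using huv : u.1 ≠ v.1) h2

end Pool.Agent.Lib.MP_46a7d5_co
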