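import Pool.Agent.Lib.MP_46a7d5_co.Gap

/-!
The integrality gap of weighted set cover on at most six elements, and the harmonic bound.
-/

set_option autoImplicit false

namespace Pool.Agent.Lib.MP_46a7d5_co

open Finset

theorem sum_inter_card {m : ℕ} (R : Finset (Fin m)) (x : Finset (Fin m) → ℝ) :
    ∑ S, ((S ∩ R).card : ℝ) * x S = ∑ j ∈ R, ∑ S : Finset (Fin m) with j ∈ S, x S := by
  classical
  have h1 : ∀ S : Finset (Fin m), ((S ∩ R).card : ℝ) * x S = ∑ j ∈ R, if j ∈ S then x S else 0 := by
    intro S
    rw [← Finset.sum_filter, Finset.sum_const, nsmul_eq_mul, Finset.inter_comm,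
      Finset.filter_mem_eq_inter]
  rw [Finset.sum_congr rfl (fun S _ => h1 S), Finset.sum_comm]
  exact Finset.sum_congr rfl (fun j _ => (Finset.sum_filter _ _).symm)

/-- The inductive step for the integrality gap. -/
theorem gapOn_step {r : ℕ} (hr : 1 ≤ r) {v β κ : ℝ} (hv : 1 ≤ v) (g : ℕ → ℝ)
    (hg : ∀ r' < r, GapOn r' (g r')) (hg0 : ∀ r' < r, 0 ≤ g r') (hgv : ∀ r' < r, g r' < v)
    (hκ : 0 ≤ κ) (hβ : 0 ≤ β) (hβκ : 1 ≤ (β - κ) * r)
    (hineq : ∀ s : ℕ, 1 ≤ s → s < r → ∀ x : ℝ, 0 < x →
      (β * s * x - κ) * (1 - g (r - s) * x) ≤ x * (v - g (r - s))) :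
    GapOn r v := by
  classical
  intro m R hR z x hz hx hcov
  obtain ⟨x', hx'0, hx'R, hx'cov, hx'cost, hx'full, hx'supp⟩ :=
    exists_small_support R z x hz hx hcov
  set F := ∑ S : Finset (Fin m) with (S ∩ R).Nonempty, x S * z S with hF
  set F' := ∑ S, x' S * z S with hF'
  by_contra hcon
  push Not at hcon
  have hnn : ∀ S, 0 ≤ x' S * z S := fun S => mul_nonneg (hx'0 S) (hz S)
  have hF'0 : 0 ≤ F' := Finset.sum_nonneg (fun S _ => hnn S)
  have hall : ∀ T : Finset (Finset (Fin m)), (∀ j ∈ R, ∃ S ∈ T, j ∈ S) →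
      v * F' < ∑ S ∈ T, z S := fun T hT =>
    lt_of_le_of_lt (mul_le_mul_of_nonneg_left hx'cost (by linarith)) (hcon T hT)
  set supp := univ.filter (fun S => x' S ≠ 0) with hsupp
  have hmem : ∀ S, S ∈ supp ↔ x' S ≠ 0 := by intro S; simp [hsupp]
  have hcovsupp : ∀ j ∈ R, ∃ S ∈ supp, j ∈ S := by
    intro j hj
    by_contra hno
    push Not at hno
    have h0 : ∑ S : Finset (Fin m) with j ∈ S, x' S = 0 := by
      apply Finset.sum_eq_zero
      intro S hS
      by_contra hxS
      exact hno S ((hmem S).2 hxS) (by simpa using hS)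
    have := hx'cov j hj
    linarith
  have hRne : R.Nonempty := by
    rw [← Finset.card_pos]; omega
  have hsuppne : supp.Nonempty := by
    obtain ⟨j, hj⟩ := hRne
    obtain ⟨S, hS, -⟩ := hcovsupp j hj
    exact ⟨S, hS⟩
  have hF'pos : 0 < F' := by
    rcases hF'0.lt_or_eq with h | h
    · exact h
    · exfalso
      have h1 := hall supp hcovsupp
      have h2 : ∑ S ∈ supp, z S = 0 := by
        apply Finset.sum_eq_zero
        intro S hS
        have h3 := (Finset.sum_eq_zero_iff_of_nonneg (fun S _ => hnn S)).1 h.symm S (mem_univ S)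
        exact (mul_eq_zero.1 h3).resolve_left ((hmem S).1 hS)
      rw [h2, ← h, mul_zero] at h1
      exact lt_irrefl _ h1
  -- the inequality for each set of the support
  have hkey : ∀ S ∈ supp, (β * (S ∩ R).card * x' S - κ) * F' < x' S * z S := by
    intro S hS
    have hxS : x' S ≠ 0 := (hmem S).1 hS
    have hxpos : 0 < x' S := lt_of_le_of_ne (hx'0 S) (Ne.symm hxS)
    have hne : (S ∩ R).Nonempty := by
      by_contra h
      exact hxS (hx'R S h)
    have hs1 : 1 ≤ (S ∩ R).card := Finset.card_pos.2 hne
    have hnotfull : ¬ R ⊆ S := by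
      intro hsub
      have h1 := hx'full S hxS hsub
      have h2 := hall {S} (fun j hj => ⟨S, Finset.mem_singleton_self S, hsub hj⟩)
      rw [Finset.sum_singleton] at h2
      nlinarith
    have hsr : (S ∩ R).card < r := by
      rw [← hR]
      apply Finset.card_lt_card
      rw [Finset.ssubset_iff_of_subset Finset.inter_subset_right]
      rw [Finset.not_subset] at hnotfull
      obtain ⟨j, hj, hjS⟩ := hnotfull
      exact ⟨j, hj, fun h => hjS (Finset.mem_inter.1 h).1⟩
    set s := (S ∩ R).card with hs
    have hcard : (R \ S).card = r - s := by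
      rw [Finset.card_sdiff, hR]
    have hlt : r - s < r := by omega
    obtain ⟨T, hT, hTle⟩ := hg (r - s) hlt m (R \ S) hcard z x' hz hx'0
      (fun j hj => hx'cov j (Finset.mem_sdiff.1 hj).1)
    have hrest : ∑ S' : Finset (Fin m) with (S' ∩ (R \ S)).Nonempty, x' S' * z S' ≤
        F' - x' S * z S := by
      have h1 : F' - x' S * z S = ∑ S' ∈ (univ : Finset (Finset (Fin m))).erase S, x' S' * z S' := by
        rw [hF', ← Finset.add_sum_erase _ _ (mem_univ S), add_sub_cancel_left]
      rw [h1]
      refine Finset.sum_le_sum_of_subset_of_nonneg ?_ (fun S' _ _ => hnn S')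
      intro S' hS'
      rw [Finset.mem_filter] at hS'
      rw [Finset.mem_erase]
      refine ⟨?_, mem_univ _⟩
      rintro rfl
      obtain ⟨j, hj⟩ := hS'.2
      rw [Finset.mem_inter, Finset.mem_sdiff] at hj
      exact hj.2.2 hj.1
    have hTle' : ∑ S' ∈ T, z S' ≤ g (r - s) * (F' - x' S * z S) :=
      hTle.trans (mul_le_mul_of_nonneg_left hrest (hg0 _ hlt))
    have hcov2 : v * F' < z S + g (r - s) * (F' - x' S * z S) := by
      have h1 := hall (insert S T) (by
        intro j hj
        by_cases hjS : j ∈ S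
        · exact ⟨S, Finset.mem_insert_self _ _, hjS⟩
        · obtain ⟨S', hS', hj'⟩ := hT j (Finset.mem_sdiff.2 ⟨hj, hjS⟩)
          exact ⟨S', Finset.mem_insert_of_mem hS', hj'⟩)
      have h2 : ∑ S' ∈ insert S T, z S' ≤ z S + ∑ S' ∈ T, z S' := by
        by_cases hST : S ∈ T
        · rw [Finset.insert_eq_of_mem hST]
          linarith [hz S]
        · rw [Finset.sum_insert hST]
      linarith
    have h1 : (v - g (r - s)) * F' < z S * (1 - g (r - s) * x' S) := by linarith
    have hvg : 0 < v - g (r - s) := by linarith [hgv _ hlt]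
    have h2 : 0 < z S * (1 - g (r - s) * x' S) := lt_trans (mul_pos hvg hF'pos) h1
    have h3 : 0 < 1 - g (r - s) * x' S := by
      by_contra h
      push Not at h
      have := mul_nonpos_of_nonneg_of_nonpos (hz S) h
      linarith
    have h4 := hineq s hs1 hsr (x' S) hxpos
    have h5 : (β * s * x' S - κ) * F' * (1 - g (r - s) * x' S) <
        x' S * z S * (1 - g (r - s) * x' S) := by
      calc (β * s * x' S - κ) * F' * (1 - g (r - s) * x' S)
          = (β * s * x' S - κ) * (1 - g (r - s) * x' S) * F' := by ring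
        _ ≤ x' S * (v - g (r - s)) * F' := mul_le_mul_of_nonneg_right h4 hF'0
        _ = x' S * ((v - g (r - s)) * F') := by ring
        _ < x' S * (z S * (1 - g (r - s) * x' S)) := mul_lt_mul_of_pos_left h1 hxpos
        _ = _ := by ring
    exact lt_of_mul_lt_mul_right h5 h3.le
  have hsum := Finset.sum_lt_sum_of_nonempty hsuppne hkey
  have hR1 : ∑ S ∈ supp, x' S * z S = F' := by
    rw [hF']
    refine Finset.sum_subset (Finset.subset_univ _) (fun S _ hS => ?_)
    have : x' S = 0 := by
      by_contra h
      exact hS ((hmem S).2 h)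
    rw [this, zero_mul]
  have hL1 : (r : ℝ) ≤ ∑ S ∈ supp, ((S ∩ R).card : ℝ) * x' S := by
    have h1 : ∑ S ∈ supp, ((S ∩ R).card : ℝ) * x' S = ∑ S, ((S ∩ R).card : ℝ) * x' S := by
      refine Finset.sum_subset (Finset.subset_univ _) (fun S _ hS => ?_)
      have : x' S = 0 := by
        by_contra h
        exact hS ((hmem S).2 h)
      rw [this, mul_zero]
    rw [h1, sum_inter_card]
    calc (r : ℝ) = ∑ _j ∈ R, (1 : ℝ) := by simp [hR]
      _ ≤ _ := Finset.sum_le_sum hx'cov
  have hL2 : ∑ S ∈ supp, (β * (S ∩ R).card * x' S - κ) * F' =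
      (β * ∑ S ∈ supp, ((S ∩ R).card : ℝ) * x' S - supp.card * κ) * F' := by
    have e : ∑ S ∈ supp, (β * (S ∩ R).card * x' S - κ) =
        β * ∑ S ∈ supp, ((S ∩ R).card : ℝ) * x' S - supp.card * κ := by
      rw [Finset.sum_sub_distrib, Finset.mul_sum, Finset.sum_const, nsmul_eq_mul]
      congr 1
      exact Finset.sum_congr rfl (fun S _ => by ring)
    rw [← Finset.sum_mul, e]
  rw [hR1, hL2] at hsum
  have hcardle : (supp.card : ℝ) ≤ r := by
    rw [← hR]
    exact_mod_cast hx'supp
  have h6 : (1 : ℝ) ≤ β * ∑ S ∈ supp, ((S ∩ R).card : ℝ) * x' S - supp.card * κ := by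
    have h7 := mul_le_mul_of_nonneg_left hL1 hβ
    have h8 := mul_le_mul_of_nonneg_right hcardle hκ
    linarith
  have h9 := mul_le_mul_of_nonneg_right h6 hF'0
  linarith

theorem gapOn_one : GapOn 1 1 := by
  refine gapOn_step (g := fun _ => 0) (β := 1) (κ := 0) le_rfl le_rfl ?_ ?_ ?_ le_rfl
    zero_le_one (by norm_num) ?_
  · intro r' hr'
    have : r' = 0 := by omega
    subst this
    exact gapOn_zero
  · intro r' _; exact le_rfl
  · intro r' _; norm_num
  · intro s hs1 hs2; omega

theorem gapOn_two : GapOn 2 1 := by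
  classical
  intro m R hR z x hz hx hcov
  obtain ⟨a, b, hab, rfl⟩ := Finset.card_eq_two.1 hR
  by_contra hcon
  push Not at hcon
  rw [one_mul] at hcon
  set F := ∑ S : Finset (Fin m) with (S ∩ {a, b}).Nonempty, x S * z S with hF
  -- cheapest cover
  let covers : Finset (Finset (Finset (Fin m))) :=
    univ.filter (fun T => ∀ j ∈ ({a, b} : Finset (Fin m)), ∃ S ∈ T, j ∈ S)
  have hne : covers.Nonempty := by
    refine ⟨univ, ?_⟩
    simp only [covers, mem_filter, mem_univ, true_and]
    intro j _
    exact ⟨univ, mem_univ _⟩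
  obtain ⟨T₀, hT₀, hmin⟩ := Finset.exists_min_image covers (fun T => ∑ S ∈ T, z S) hne
  simp only [covers, mem_filter, mem_univ, true_and] at hT₀ hmin
  set τ := ∑ S ∈ T₀, z S with hτ
  have hτF : F < τ := by
    have := hcon T₀ hT₀
    linarith
  have hτ0 : 0 ≤ τ := Finset.sum_nonneg (fun S _ => hz S)
  obtain ⟨Sa, hSa, hSamin⟩ := Finset.exists_min_image
    (univ.filter (fun S : Finset (Fin m) => a ∈ S)) z ⟨univ, by simp⟩
  simp only [mem_filter, mem_univ, true_and] at hSa hSamin
  obtain ⟨p, hp⟩ : ∃ p : ℝ, p = min (z Sa) τ := ⟨_, rfl⟩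
  have hp0 : 0 ≤ p := by rw [hp]; exact le_min (hz _) hτ0
  have hpτ : p ≤ τ := by rw [hp]; exact min_le_right _ _
  have hpa : p ≤ z Sa := by rw [hp]; exact min_le_left _ _
  have ha : ∀ S, a ∈ S → p ≤ z S := fun S hS => hpa.trans (hSamin S hS)
  have hb : ∀ S, b ∈ S → τ - p ≤ z S := by
    intro S hS
    have h1 := hmin {Sa, S} (by
      intro j hj
      rw [Finset.mem_insert, Finset.mem_singleton] at hj
      rcases hj with rfl | rfl
      · exact ⟨Sa, by simp, hSa⟩
      · exact ⟨S, by simp, hS⟩)
    have h2 : ∑ S' ∈ ({Sa, S} : Finset (Finset (Fin m))), z S' ≤ z Sa + z S := by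
      by_cases h : Sa = S
      · rw [h, Finset.pair_eq_singleton, Finset.sum_singleton]
        linarith [hz S]
      · rw [Finset.sum_pair h]
    have h3 := hz S
    rw [hp]
    rcases le_total (z Sa) τ with h | h
    · rw [min_eq_left h]; linarith
    · rw [min_eq_right h]; linarith
  have hboth : ∀ S, a ∈ S → b ∈ S → τ ≤ z S := by
    intro S hSa hSb
    have h1 := hmin {S} (by
      intro j hj
      rw [Finset.mem_insert, Finset.mem_singleton] at hj
      rcases hj with rfl | rfl
      · exact ⟨S, by simp, hSa⟩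
      · exact ⟨S, by simp, hSb⟩)
    simpa using h1
  have hlow : ∀ S : Finset (Fin m), x S * ((if a ∈ S then p else 0) + (if b ∈ S then τ - p else 0)) ≤
      if (S ∩ {a, b}).Nonempty then x S * z S else 0 := by
    intro S
    by_cases h1 : a ∈ S
    · have hne : (S ∩ {a, b}).Nonempty := ⟨a, by simp [h1]⟩
      rw [if_pos h1, if_pos hne]
      refine mul_le_mul_of_nonneg_left ?_ (hx S)
      by_cases h2 : b ∈ S
      · rw [if_pos h2]
        linarith [hboth S h1 h2]
      · rw [if_neg h2]
        linarith [ha S h1]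
    · rw [if_neg h1]
      by_cases h2 : b ∈ S
      · have hne : (S ∩ {a, b}).Nonempty := ⟨b, by simp [h2]⟩
        rw [if_pos h2, if_pos hne]
        refine mul_le_mul_of_nonneg_left ?_ (hx S)
        linarith [hb S h2]
      · rw [if_neg h2]
        have : 0 ≤ if (S ∩ {a, b}).Nonempty then x S * z S else 0 := by
          split_ifs
          · exact mul_nonneg (hx S) (hz S)
          · exact le_rfl
        linarith
  have hsum := Finset.sum_le_sum (fun S (_ : S ∈ (univ : Finset (Finset (Fin m)))) => hlow S)
  rw [← Finset.sum_filter, ← hF] at hsum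
  have hL : ∑ S : Finset (Fin m),
      x S * ((if a ∈ S then p else 0) + (if b ∈ S then τ - p else 0)) =
      p * (∑ S : Finset (Fin m) with a ∈ S, x S) +
        (τ - p) * (∑ S : Finset (Fin m) with b ∈ S, x S) := by
    rw [Finset.mul_sum, Finset.mul_sum, Finset.sum_filter, Finset.sum_filter,
      ← Finset.sum_add_distrib]
    refine Finset.sum_congr rfl (fun S _ => ?_)
    split_ifs <;> ring
  rw [hL] at hsum
  have h1 := hcov a (by simp)
  have h2 := hcov b (by simp)
  have h3 := mul_le_mul_of_nonneg_left h1 hp0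
  have h4 := mul_le_mul_of_nonneg_left h2 (by linarith : 0 ≤ τ - p)
  linarith

theorem gapOn_three : GapOn 3 (4 / 3) := by
  refine gapOn_step (g := fun n => if n = 0 then 0 else 1) (β := 2 / 3) (κ := 1 / 3)
    (by norm_num) (by norm_num) ?_ ?_ ?_ (by norm_num) (by norm_num) (by norm_num) ?_
  · intro r' hr'
    interval_cases r'
    · simpa using gapOn_zero
    · simpa using gapOn_one
    · simpa using gapOn_two
  · intro r' _; split_ifs <;> norm_num
  · intro r' _; split_ifs <;> norm_num
  · intro s hs1 hs2 x hx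
    interval_cases s
    · norm_num
      nlinarith [sq_nonneg (2 * x - 1)]
    · norm_num
      nlinarith [sq_nonneg (2 * x - 1)]

theorem gapOn_four : GapOn 4 (3 / 2) := by
  refine gapOn_step (g := fun n => if n = 0 then 0 else if n = 3 then 4 / 3 else 1)
    (β := 3 / 8) (κ := 1 / 8)
    (by norm_num) (by norm_num) ?_ ?_ ?_ (by norm_num) (by norm_num) (by norm_num) ?_
  · intro r' hr'
    interval_cases r'
    · simpa using gapOn_zero
    · simpa using gapOn_one
    · simpa using gapOn_two
    · simpa using gapOn_three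
  · intro r' _; split_ifs <;> norm_num
  · intro r' _; split_ifs <;> norm_num
  · intro s hs1 hs2 x hx
    interval_cases s
    · norm_num
      nlinarith [sq_nonneg (8 * x - 3)]
    · norm_num
      nlinarith [sq_nonneg (4 * x - 1)]
    · norm_num
      nlinarith [sq_nonneg (3 * x - 1)]

theorem gapOn_five : GapOn 5 (8 / 5) := by
  refine gapOn_step
    (g := fun n => if n = 0 then 0 else if n = 3 then 4 / 3 else if n = 4 then 3 / 2 else 1)
    (β := 4 / 15) (κ := 1 / 15)
    (by norm_num) (by norm_num) ?_ ?_ ?_ (by norm_num) (by norm_num) (by norm_num) ?_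
  · intro r' hr'
    interval_cases r'
    · simpa using gapOn_zero
    · simpa using gapOn_one
    · simpa using gapOn_two
    · simpa using gapOn_three
    · simpa using gapOn_four
  · intro r' _; split_ifs <;> norm_num
  · intro r' _; split_ifs <;> norm_num
  · intro s hs1 hs2 x hx
    interval_cases s
    · norm_num
      nlinarith [sq_nonneg (3 * x - 1)]
    · norm_num
      nlinarith [sq_nonneg (4 * x - 1)]
    · norm_num
      nlinarith [sq_nonneg (4 * x - 1)]
    · norm_num
      nlinarith [sq_nonneg (4 * x - 1)]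

theorem gapOn_six : GapOn 6 (5 / 3) := by
  refine gapOn_step
    (g := fun n => if n = 0 then 0 else if n = 3 then 4 / 3 else if n = 4 then 3 / 2 else
      if n = 5 then 8 / 5 else 1)
    (β := 5 / 24) (κ := 1 / 24)
    (by norm_num) (by norm_num) ?_ ?_ ?_ (by norm_num) (by norm_num) (by norm_num) ?_
  · intro r' hr'
    interval_cases r'
    · simpa using gapOn_zero
    · simpa using gapOn_one
    · simpa using gapOn_two
    · simpa using gapOn_three
    · simpa using gapOn_four
    · simpa using gapOn_five
  · intro r' _; split_ifs <;> norm_num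
  · intro r' _; split_ifs <;> norm_num
  · intro s hs1 hs2 x hx
    interval_cases s
    · norm_num
      nlinarith [sq_nonneg (16 * x - 5)]
    · norm_num
      nlinarith [sq_nonneg (4 * x - 1)]
    · norm_num
      nlinarith [sq_nonneg (24 * x - 5)]
    · norm_num
      nlinarith [sq_nonneg (5 * x - 1)]
    · norm_num
      nlinarith [sq_nonneg (5 * x - 1)]

/-- The sets with `m - 1` elements show that the gap is at least `2 - 2 / m`. -/
theorem le_of_isGapBound {m : ℕ} (hm : 2 ≤ m) {c : ℝ} (h : IsGapBound m c) :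
    2 - 2 / (m : ℝ) ≤ c := by
  classical
  have hmR : (2 : ℝ) ≤ m := by exact_mod_cast hm
  have hm1 : (0 : ℝ) < (m : ℝ) - 1 := by linarith
  let z : Finset (Fin m) → ℝ := fun S => if S = univ then 1 else 1 / 2
  let x : Finset (Fin m) → ℝ := fun S => if S.card = m - 1 then 1 / ((m : ℝ) - 1) else 0
  have hpow : (univ.filter (fun S : Finset (Fin m) => S.card = m - 1)) =
      univ.image (fun i : Fin m => univ.erase i) := by
    ext S
    simp only [mem_filter, mem_univ, true_and, mem_image]
    constructor
    · intro hS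
      have h1 : (Sᶜ).card = 1 := by
        rw [Finset.card_compl, Fintype.card_fin, hS]; omega
      obtain ⟨i, hi⟩ := Finset.card_eq_one.1 h1
      refine ⟨i, ?_⟩
      rw [← compl_compl S, hi]
      ext j
      simp
    · rintro ⟨i, rfl⟩
      rw [Finset.card_erase_of_mem (mem_univ _), Finset.card_univ, Fintype.card_fin]
  have hinj : Function.Injective (fun i : Fin m => (univ : Finset (Fin m)).erase i) := by
    intro i j hij
    by_contra hne
    have : i ∈ (univ : Finset (Fin m)).erase j := by simp [hne]
    have h2 : i ∈ (univ : Finset (Fin m)).erase i := by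
      have hij' : (univ : Finset (Fin m)).erase i = (univ : Finset (Fin m)).erase j := hij
      rw [hij']; exact this
    simp at h2
  obtain ⟨T, hT, hle⟩ := h z (fun S => by simp only [z]; split_ifs <;> norm_num) x
    ⟨fun S => by
      simp only [x]
      split_ifs
      · positivity
      · exact le_rfl, fun j => by
      have h1 : ∑ S : Finset (Fin m) with j ∈ S, x S =
          ∑ S : Finset (Fin m) with (j ∈ S ∧ S.card = m - 1), 1 / ((m : ℝ) - 1) := by
        rw [← Finset.filter_filter, Finset.sum_filter (s := univ.filter _)]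
      have h2 : (univ.filter (fun S : Finset (Fin m) => j ∈ S ∧ S.card = m - 1)) =
          (univ.erase j).image (fun i : Fin m => univ.erase i) := by
        have : (univ.filter (fun S : Finset (Fin m) => j ∈ S ∧ S.card = m - 1)) =
            (univ.filter (fun S : Finset (Fin m) => S.card = m - 1)).filter (fun S => j ∈ S) := by
          rw [Finset.filter_filter]
          exact Finset.filter_congr (fun S _ => and_comm)
        rw [this, hpow]
        ext S
        simp only [mem_filter, mem_image, mem_univ, true_and, mem_erase, and_true]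
        constructor
        · rintro ⟨⟨i, rfl⟩, hj⟩
          refine ⟨i, ?_, rfl⟩
          rintro rfl
          simp at hj
        · rintro ⟨i, hi, rfl⟩
          exact ⟨⟨i, rfl⟩, by simp [Ne.symm hi]⟩
      rw [h1, Finset.sum_const, h2, Finset.card_image_of_injective _ hinj,
        Finset.card_erase_of_mem (mem_univ _), Finset.card_univ, Fintype.card_fin, nsmul_eq_mul,
        Nat.cast_sub (by omega : 1 ≤ m), Nat.cast_one]
      rw [mul_one_div_cancel hm1.ne']⟩
  -- the cost of the fractional cover
  have hcost : ∑ S, x S * z S = m / (2 * ((m : ℝ) - 1)) := by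
    have h1 : ∀ S : Finset (Fin m), x S * z S =
        if S.card = m - 1 then 1 / ((m : ℝ) - 1) * (1 / 2) else 0 := by
      intro S
      simp only [x, z]
      by_cases hS : S.card = m - 1
      · have : S ≠ univ := by
          rintro rfl
          rw [Finset.card_univ, Fintype.card_fin] at hS
          omega
        simp [hS, this]
      · simp [hS]
    rw [Finset.sum_congr rfl (fun S _ => h1 S), ← Finset.sum_filter, Finset.sum_const, hpow,
      Finset.card_image_of_injective _ hinj, Finset.card_univ, Fintype.card_fin, nsmul_eq_mul]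
    field_simp
  have hT1 : 1 ≤ ∑ S ∈ T, z S := by
    by_cases hu : univ ∈ T
    · have h1 : z univ ≤ ∑ S ∈ T, z S := by
        refine Finset.single_le_sum (fun S _ => ?_) hu
        simp only [z]; split_ifs <;> norm_num
      have h2 : z univ = 1 := by simp [z]
      linarith
    · have hcard : 2 ≤ T.card := by
        by_contra hlt
        push Not at hlt
        obtain ⟨S, hS, h0⟩ := hT ⟨0, by omega⟩
        have hc1 : T.card = 1 := by
          have : 0 < T.card := Finset.card_pos.2 ⟨S, hS⟩
          omega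
        obtain ⟨S', hS'⟩ := Finset.card_eq_one.1 hc1
        apply hu
        have : S' = univ := by
          ext j
          simp only [mem_univ, iff_true]
          obtain ⟨S'', h1, h2⟩ := hT j
          rw [hS', Finset.mem_singleton] at h1
          rwa [h1] at h2
        rw [hS', this]
        exact Finset.mem_singleton_self _
      have h1 : ∑ S ∈ T, z S = T.card * (1 / 2) := by
        rw [← nsmul_eq_mul, ← Finset.sum_const]
        refine Finset.sum_congr rfl (fun S hS => ?_)
        simp only [z]
        rw [if_neg]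
        rintro rfl
        exact hu hS
      rw [h1]
      have : (2 : ℝ) ≤ T.card := by exact_mod_cast hcard
      linarith
  rw [hcost] at hle
  have h3 : 1 ≤ c * (m / (2 * ((m : ℝ) - 1))) := le_trans hT1 hle
  have h4 : 0 < 2 * ((m : ℝ) - 1) := by linarith
  rw [← mul_div_assoc, le_div_iff₀ h4, one_mul] at h3
  have hm0 : (0 : ℝ) < m := by linarith
  have h5 : 2 - 2 / (m : ℝ) = (2 * ((m : ℝ) - 1)) / m := by
    field_simp
  rw [h5, div_le_iff₀ hm0]
  exact h3

theorem le_setCoverGap {m : ℕ} (hm : 2 ≤ m) : 2 - 2 / (m : ℝ) ≤ setCoverGap m :=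
  le_csInf ⟨m, isGapBound_self m⟩ (fun _ hd => le_of_isGapBound hm hd)

theorem setCoverGap_eq {m : ℕ} (hm : 2 ≤ m) (h : GapOn m (2 - 2 / (m : ℝ))) :
    setCoverGap m = 2 - 2 / (m : ℝ) := by
  refine le_antisymm ?_ (le_setCoverGap hm)
  have hmR : (2 : ℝ) ≤ m := by exact_mod_cast hm
  have h0 : 0 ≤ 2 - 2 / (m : ℝ) := by
    have : 2 / (m : ℝ) ≤ 1 := by
      rw [div_le_one (by linarith)]
      exact hmR
    linarith
  exact csInf_le ⟨1, fun d hd => IsGapBound.one_le (by omega) hd⟩ (h.isGapBound h0)

theorem setCoverGap_le_six {m : ℕ} (hm : 2 ≤ m) (hm6 : m ≤ 6) :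
    setCoverGap m = 2 - 2 / (m : ℝ) := by
  refine setCoverGap_eq hm ?_
  interval_cases m
  · norm_num; exact gapOn_two
  · norm_num; exact gapOn_three
  · norm_num; exact gapOn_four
  · norm_num; exact gapOn_five
  · norm_num; exact gapOn_six

end Pool.Agent.Lib.MP_46a7d5_co
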